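import Pool.Agent.Helper8.PW.Basic

/-! Project PW: the area of a vertex. -/

namespace Pool.Agent.Helper8.PW

open Pool.Agent.Helper8.PL Finset

variable {d : ℕ} (W : WW d)

/-- every pair of lines meets in exactly one vertex -/
theorem pair_sum (g : Fin W.e → Fin W.e → ℝ) :
    ∑ k ∈ range W.M, ∑ i ∈ W.B k, ∑ j ∈ (W.B k).erase i, g i j =
      ∑ i, ∑ j ∈ univ.erase i, g i j :=
  Pool.Agent.Helper8.PL.pair_sum W.U g

/-- two lines of the block are in the original order before the vertex -/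
private lemma pair_lt_iff {k : ℕ} (hk : k < W.M) {i j : Fin W.e} (hi : i ∈ W.B k)
    (hj : j ∈ W.B k) : i < j ↔ W.U.pos k i < W.U.pos k j := by
  rw [mem_B] at hi hj
  constructor
  · intro h
    rcases lt_trichotomy (W.U.pos k i) (W.U.pos k j) with h1 | h1 | h1
    · exact h1
    · exact absurd (pos_inj W.U hk.le h1) h.ne
    · exact absurd (W.U.sorted k hk j i hj.1 h1 hi.2) (not_lt.2 h.le)
  · intro h
    exact W.U.sorted k hk i j hi.1 h hj.2

private lemma pair_low {k : ℕ} (hk : k < W.M) {i : Fin W.e} (hi : i ∈ W.B k) :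
    W.ht k i = W.lo k + ∑ j ∈ (W.B k).filter (fun j => j < i), W.w j := by
  classical
  have hi' := (mem_B W).1 hi
  unfold WW.ht WW.lo WW.hh
  rw [← sum_union]
  · congr 1
    ext j
    simp only [mem_union, mem_filter, mem_univ, true_and]
    constructor
    · intro h
      by_cases h1 : W.U.pos k j < W.U.lo k
      · exact Or.inl h1
      · right
        have hj : j ∈ W.B k := (mem_B W).2 (by omega)
        exact ⟨hj, (pair_lt_iff W hk hj hi).2 h⟩
    · rintro (h | ⟨h1, h2⟩)
      · omega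
      · exact (pair_lt_iff W hk h1 hi).1 h2
  · rw [Finset.disjoint_left]
    intro j h1 h2
    rw [mem_filter] at h1 h2
    have := (mem_B W).1 h2.1
    omega

private lemma pair_high {k : ℕ} (hk : k < W.M) {i : Fin W.e} (hi : i ∈ W.B k) :
    W.hi k = W.ht k i + W.w i + ∑ j ∈ (W.B k).filter (fun j => i < j), W.w j := by
  classical
  have hi' := (mem_B W).1 hi
  rw [← hh_succ W hk.le i]
  unfold WW.hi WW.hh
  rw [← sum_union]
  · congr 1
    ext j
    simp only [mem_union, mem_filter, mem_univ, true_and]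
    constructor
    · intro h
      by_cases h1 : W.U.pos k j < W.U.pos k i + 1
      · exact Or.inl h1
      · right
        have hj : j ∈ W.B k := (mem_B W).2 (by omega)
        exact ⟨hj, (pair_lt_iff W hk hi hj).2 (by omega)⟩
    · rintro (h | ⟨h1, h2⟩)
      · omega
      · exact ((mem_B W).1 h1).2
  · rw [Finset.disjoint_left]
    intro j h1 h2
    rw [mem_filter] at h1 h2
    have := (pair_lt_iff W hk hi h2.1).1 h2.2
    omega

private lemma pair_f (n w h : ℕ) (hn : h + w ≤ n) :
    2 * ∑ x ∈ range (n + 1), min w (x - h) + w * w = w + 2 * (w * (n + 1 - (h + 1))) := by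
  obtain ⟨t, rfl⟩ : ∃ t, n = h + w + t := ⟨n - (h + w), by omega⟩
  clear hn
  induction t with
  | zero =>
    have key : ∀ w : ℕ, 2 * ∑ x ∈ range (h + w + 1), min w (x - h) + w * w =
        w + 2 * (w * w) := by
      intro w
      rw [show h + w + 1 = h + (w + 1) by ring, sum_range_add]
      have e1 : ∑ x ∈ range h, min w (x - h) = 0 := by
        apply sum_eq_zero
        intro x hx
        rw [mem_range] at hx
        omega
      have e2 : ∑ x ∈ range (w + 1), min w (h + x - h) = ∑ x ∈ range (w + 1), x := by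
        refine Finset.sum_congr rfl fun x hx => ?_
        rw [mem_range] at hx
        omega
      rw [e1, e2, zero_add]
      have e3 := Finset.sum_range_id_mul_two (w + 1)
      simp only [Nat.add_sub_cancel] at e3
      nlinarith
    have := key w
    simp only [add_zero]
    rw [this]
    congr 3
    omega
  | succ t ih =>
    rw [show h + w + (t + 1) + 1 = (h + w + t + 1) + 1 by ring, sum_range_succ, mul_add]
    have e1 : min w (h + w + t + 1 - h) = w := by omega
    rw [e1]
    have e2 : h + w + t + 1 + 1 - (h + 1) = (h + w + t + 1 - (h + 1)) + 1 := by omega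
    rw [e2, mul_add (w : ℕ)]
    linarith

private lemma pair_fR {k : ℕ} (hk : k ≤ W.M) (i : Fin W.e) :
    ∑ x ∈ range (d + 1), (W.f k x i : ℝ) =
      W.w i * ((d : ℝ) - W.ht k i) + ((W.w i : ℝ) - W.w i ^ 2) / 2 := by
  have h1 := ht_add_le_d W hk i
  have h2 := pair_f d (W.w i) (W.ht k i) h1
  have h3 : (2 : ℝ) * ∑ x ∈ range (d + 1), (W.f k x i : ℝ) + W.w i * W.w i =
      W.w i + 2 * (W.w i * ((d : ℝ) - W.ht k i)) := by
    have h4 : ((d + 1 - (W.ht k i + 1) : ℕ) : ℝ) = (d : ℝ) - W.ht k i := by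
      rw [Nat.cast_sub (by omega)]
      push_cast
      ring
    rw [← h4]
    unfold WW.f
    exact_mod_cast h2
  linarith

private lemma pair_T (N : ℕ) {k : ℕ} (hk : k ≤ W.M) :
    ∑ x ∈ range (d + 1), (W.T N k x : ℝ) =
      ∑ i : Fin W.e, (W.cl N i : ℝ) * (W.w i * ((d : ℝ) - W.ht k i) +
        ((W.w i : ℝ) - W.w i ^ 2) / 2) := by
  have e1 : ∀ x ∈ range (d + 1), (W.T N k x : ℝ) =
      ∑ i : Fin W.e, (W.cl N i : ℝ) * W.f k x i := by
    intro x _
    unfold WW.T
    push_cast
    rfl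
  rw [Finset.sum_congr rfl e1, Finset.sum_comm]
  refine Finset.sum_congr rfl fun i _ => ?_
  rw [← mul_sum, pair_fR W hk i]

theorem pair_fib {N m k : ℕ} (hN : 0 < N) (hm : d ≤ m * N) (g : ℕ → ℝ) :
    ∑ i ∈ W.B k, (W.w i : ℝ) * g (W.cl N i) = ∑ c ∈ range m, (W.u N c k : ℝ) * g c := by
  classical
  rw [← Finset.sum_fiberwise_of_maps_to (s := W.B k) (t := range m)
    (g := W.cl N)]
  · refine Finset.sum_congr rfl fun c _ => ?_
    unfold WW.u
    push_cast
    rw [sum_mul]
    refine Finset.sum_congr rfl fun i hi => ?_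
    rw [(mem_filter.1 hi).2]
  · intro i _
    exact mem_range.2 (cl_lt W hN hm i)

/-- the area of a vertex in the dual tiling -/
theorem block_area {N m k : ℕ} (hN : 0 < N) (hm : d ≤ m * N) (hk : k < W.M) :
    ∑ x ∈ range (d + 1), ((W.T N (k + 1) x : ℝ) - W.T N k x) =
      ∑ c ∈ range m, ∑ c' ∈ range m,
        if c < c' then ((c' : ℝ) - c) * ((W.u N c k : ℝ) * W.u N c' k) else 0 := by
  classical
  rw [Finset.sum_sub_distrib, pair_T W N (show k + 1 ≤ W.M from hk), pair_T W N hk.le,
    ← Finset.sum_sub_distrib]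
  -- only the lines of the block contribute
  have s1 : ∑ i : Fin W.e, ((W.cl N i : ℝ) * (W.w i * ((d : ℝ) - W.ht (k + 1) i) +
        ((W.w i : ℝ) - W.w i ^ 2) / 2) - (W.cl N i : ℝ) * (W.w i * ((d : ℝ) - W.ht k i) +
        ((W.w i : ℝ) - W.w i ^ 2) / 2)) =
      ∑ i ∈ W.B k, (W.cl N i : ℝ) * W.w i *
        (∑ j ∈ (W.B k).filter (fun j => j < i), (W.w j : ℝ) -
          ∑ j ∈ (W.B k).filter (fun j => i < j), (W.w j : ℝ)) := by
    rw [← Finset.sum_subset (Finset.subset_univ (W.B k))]
    · refine Finset.sum_congr rfl fun i hi => ?_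
      have h1 := ht_in W hk hi
      have h2 := pair_low W hk hi
      have h3 := pair_high W hk hi
      have h1' : (W.ht (k + 1) i : ℝ) + W.w i + W.ht k i = W.lo k + W.hi k := by
        exact_mod_cast h1
      have h2' : (W.ht k i : ℝ) = W.lo k + ∑ j ∈ (W.B k).filter (fun j => j < i), (W.w j : ℝ) := by
        exact_mod_cast h2
      have h3' : (W.hi k : ℝ) = W.ht k i + W.w i +
          ∑ j ∈ (W.B k).filter (fun j => i < j), (W.w j : ℝ) := by
        exact_mod_cast h3
      have h4 : ∑ j ∈ (W.B k).filter (fun j => j < i), (W.w j : ℝ) -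
          ∑ j ∈ (W.B k).filter (fun j => i < j), (W.w j : ℝ) = W.ht k i - W.ht (k + 1) i := by
        linarith
      rw [h4]
      ring
    · intro i _ hi
      rw [ht_out W hk hi]
      ring
  rw [s1]
  have s2 : ∑ i ∈ W.B k, (W.cl N i : ℝ) * W.w i *
        (∑ j ∈ (W.B k).filter (fun j => j < i), (W.w j : ℝ) -
          ∑ j ∈ (W.B k).filter (fun j => i < j), (W.w j : ℝ)) =
      ∑ i ∈ W.B k, ∑ j ∈ W.B k,
        (if i < j then (W.w i : ℝ) * W.w j * ((W.cl N j : ℝ) - W.cl N i) else 0) := by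
    have t1 : ∀ i ∈ W.B k, (W.cl N i : ℝ) * W.w i *
        (∑ j ∈ (W.B k).filter (fun j => j < i), (W.w j : ℝ) -
          ∑ j ∈ (W.B k).filter (fun j => i < j), (W.w j : ℝ)) =
        ∑ j ∈ W.B k, (if j < i then (W.cl N i : ℝ) * W.w i * W.w j else 0) -
          ∑ j ∈ W.B k, (if i < j then (W.cl N i : ℝ) * W.w i * W.w j else 0) := by
      intro i _
      rw [← Finset.sum_filter, ← Finset.sum_filter, mul_sub, mul_sum, mul_sum]
    rw [Finset.sum_congr rfl t1, Finset.sum_sub_distrib]
    rw [Finset.sum_comm, ← Finset.sum_sub_distrib]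
    refine Finset.sum_congr rfl fun i _ => ?_
    rw [← Finset.sum_sub_distrib]
    refine Finset.sum_congr rfl fun j _ => ?_
    split_ifs
    · ring
    · simp
  rw [s2]
  have s3 : ∀ i ∈ W.B k, ∑ j ∈ W.B k,
        (if i < j then (W.w i : ℝ) * W.w j * ((W.cl N j : ℝ) - W.cl N i) else 0) =
      W.w i * ∑ j ∈ W.B k, (W.w j : ℝ) *
        (fun c : ℕ => if W.cl N i < c then (c : ℝ) - W.cl N i else 0) (W.cl N j) := by
    intro i _
    rw [mul_sum]
    refine Finset.sum_congr rfl fun j _ => ?_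
    show (if i < j then (W.w i : ℝ) * W.w j * ((W.cl N j : ℝ) - W.cl N i) else 0) =
      W.w i * (W.w j * if W.cl N i < W.cl N j then (W.cl N j : ℝ) - W.cl N i else 0)
    by_cases h : W.cl N i < W.cl N j
    · rw [if_pos h, if_pos (lt_of_cl_lt W h)]
      ring
    · rw [if_neg h, mul_zero, mul_zero]
      split_ifs with h'
      · have h3 := cl_mono W (N := N) h'.le
        have h4 : W.cl N j = W.cl N i := by omega
        rw [h4, sub_self, mul_zero]
      · rfl
  rw [Finset.sum_congr rfl s3]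
  have s4 : ∀ i ∈ W.B k, (W.w i : ℝ) * ∑ j ∈ W.B k, (W.w j : ℝ) *
      (fun c : ℕ => if W.cl N i < c then (c : ℝ) - W.cl N i else 0) (W.cl N j) =
      (W.w i : ℝ) * (fun a : ℕ => ∑ c ∈ range m, (W.u N c k : ℝ) *
        (if a < c then (c : ℝ) - a else 0)) (W.cl N i) := by
    intro i _
    rw [pair_fib W (k := k) hN hm
      (fun c : ℕ => if W.cl N i < c then (c : ℝ) - W.cl N i else 0)]
  rw [Finset.sum_congr rfl s4, pair_fib W (k := k) hN hm
    (fun a : ℕ => ∑ c ∈ range m, (W.u N c k : ℝ) * (if a < c then (c : ℝ) - a else 0))]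
  refine Finset.sum_congr rfl fun c _ => ?_
  simp only [Finset.mul_sum]
  refine Finset.sum_congr rfl fun c' _ => ?_
  split_ifs <;> ring

end Pool.Agent.Helper8.PW
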