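import Pool.Agent.Helper8.PW.Rows
import Pool.Agent.Helper8.PW.Pair

/-! Project PW, piece PL-L: lower bound of the dual area of a square. -/

namespace Pool.Agent.Helper8.PW

open Pool.Agent.Helper8.PL

open WW Finset MeasureTheory

/-- The contribution of one row. -/
theorem alow_row {d : ℕ} (W : WW d) {N m : ℕ} {s t l δ ε : ℝ} {v : ℕ → ℝ × ℝ}
    {b : ℕ → ℝ} (h : W.Loc N m s t l δ ε v b) (h3 : 3 * m * δ ≤ l) {x : ℕ} (hx : x ≤ d)
    (hx1 : s + δ ≤ (x : ℝ) / d) (hx2 : (x : ℝ) / d ≤ s + l) :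
    (l - 3 * m * δ) * d ≤
      ∑ k ∈ W.VQ N s t l, ((W.T N (k + 1) x : ℝ) - W.T N k x) := by
  have hd : (0 : ℝ) < d := by exact_mod_cast h.hd
  have hδ : 0 < δ := by
    by_contra hcon
    push Not at hcon
    have := h.one
    nlinarith
  have hl := h.hl
  set a := (m : ℝ) * δ with ha
  have ha0 : 0 ≤ a := by positivity
  have h3' : 3 * a ≤ l := by rw [ha]; linarith
  have habs : |(x : ℝ) / d - s| ≤ 3 * l := by
    rw [abs_le]
    constructor <;> linarith
  have hbot := h.inner.bot x hx habs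
  have htop := h.inner.top x hx habs
  obtain ⟨k1, -, hk1M, hk1a, hk1b⟩ := row_dense_loc W h (τ := t + 2 * a) (k₀ := 0)
    hδ.le (Nat.zero_le _) hx habs (by linarith) (by linarith) (by linarith)
  obtain ⟨k2, hk12, hk2M, hk2a, hk2b⟩ := row_dense_loc W h (τ := t + l) (k₀ := k1)
    hδ.le hk1M hx habs (by linarith) (by linarith) (by linarith)
  have hmono : ∀ {k k' : ℕ}, k ≤ k' → k' ≤ W.M → W.tt N k x ≤ W.tt N k' x := by
    intro k k' h1 h2
    unfold WW.tt
    apply div_le_div_of_nonneg_right _ hd.le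
    exact_mod_cast T_mono W h1 h2 hx
  -- the telescoping sum
  have htel : ∑ k ∈ Ico k1 k2, ((W.T N (k + 1) x : ℝ) - W.T N k x) =
      (W.T N k2 x : ℝ) - W.T N k1 x :=
    Finset.sum_Ico_sub (fun k => (W.T N k x : ℝ)) hk12
  have hge : (l - 3 * m * δ) * d ≤ (W.T N k2 x : ℝ) - W.T N k1 x := by
    have e1 : (W.T N k2 x : ℝ) = W.tt N k2 x * d := by
      unfold WW.tt
      field_simp
    have e2 : (W.T N k1 x : ℝ) = W.tt N k1 x * d := by
      unfold WW.tt
      field_simp
    rw [e1, e2, ← sub_mul]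
    apply mul_le_mul_of_nonneg_right _ hd.le
    linarith
  refine hge.trans ?_
  rw [← htel, ← Finset.sum_filter_ne_zero]
  apply Finset.sum_le_sum_of_subset_of_nonneg
  · intro k hk
    rw [mem_filter, mem_Ico] at hk
    obtain ⟨⟨hkl, hku⟩, hne⟩ := hk
    have hkM : k < W.M := lt_of_lt_of_le hku hk2M
    have hne' : W.T N (k + 1) x ≠ W.T N k x := by
      intro hcon
      apply hne
      rw [hcon, sub_self]
    have hlt : ¬ (x ≤ W.lo k ∨ W.hi k ≤ x) := fun hcon => hne' (T_eq W hkM hcon)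
    push Not at hlt
    obtain ⟨hlo, hhi⟩ := hlt
    have hmul : (W.mult k : ℝ) ≤ δ * d := by
      rcases h.mult k hkM with h2 | h2
      · exact h2
      · exfalso
        have e1 : W.tt N k x ≤ W.tt N (k + 1) x := hmono (Nat.le_succ k) hkM
        have e2 : W.tt N (k + 1) x ≤ W.tt N k2 x := hmono hku hk2M
        have e3 : W.tt N k1 x ≤ W.tt N k x := hmono hkl hkM.le
        rcases h2 x hx hlo.le hhi.le habs with h4 | h4
        · linarith
        · linarith
    have hmul2 : (W.mult k : ℝ) = (W.hi k : ℝ) - W.lo k := by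
      unfold WW.mult
      rw [Nat.cast_sub]
      have := W.two_le k hkM
      omega
    have hloR : (W.lo k : ℝ) < x := by exact_mod_cast hlo
    have hhiR : (x : ℝ) < W.hi k := by exact_mod_cast hhi
    have hxlo : (x : ℝ) - W.lo k ≤ δ * d := by linarith
    have hxlo' : (x : ℝ) / d - (W.lo k : ℝ) / d ≤ δ := by
      rw [← sub_div, div_le_iff₀ hd]
      exact hxlo
    have hlo' : (W.lo k : ℝ) / d < (x : ℝ) / d := by
      apply div_lt_div_of_pos_right hloR hd
    have hle1 : W.T N k (W.lo k) ≤ W.T N k x := T_mono_right W hlo.le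
    have hle1' : W.tt N k (W.lo k) ≤ W.tt N k x := by
      unfold WW.tt
      apply div_le_div_of_nonneg_right _ hd.le
      exact_mod_cast hle1
    have hlt2 : W.tt N k x < W.tt N (k + 1) x := by
      unfold WW.tt
      apply div_lt_div_of_pos_right _ hd
      have := T_mono (N := N) W (Nat.le_succ k) hkM hx
      have h' : W.T N k x < W.T N (k + 1) x := lt_of_le_of_ne this (Ne.symm hne')
      exact_mod_cast h'
    have hle3 : W.tt N (k + 1) x ≤ W.tt N k2 x := hmono hku hk2M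
    have hle4 : W.tt N k1 x ≤ W.tt N k x := hmono hkl hkM.le
    have hlip : W.tt N k x ≤ W.tt N k (W.lo k) + a := by
      have h1 := T_lip_right W h.hN h.hm hkM.le hlo.le
      have h2 : (W.T N k x : ℝ) ≤ W.T N k (W.lo k) + m * ((x : ℝ) - W.lo k) := by
        have h3 : ((x - W.lo k : ℕ) : ℝ) = (x : ℝ) - W.lo k := by
          rw [Nat.cast_sub hlo.le]
        rw [← h3]
        exact_mod_cast h1
      unfold WW.tt
      rw [div_le_iff₀ hd, add_mul, div_mul_cancel₀ _ hd.ne']
      have h4 : (m : ℝ) * ((x : ℝ) - W.lo k) ≤ m * (δ * d) := by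
        apply mul_le_mul_of_nonneg_left hxlo (Nat.cast_nonneg _)
      rw [ha]
      linarith
    unfold WW.VQ
    rw [mem_filter, mem_range]
    refine ⟨hkM, ⟨?_, ?_⟩, ⟨?_, ?_⟩⟩
    · linarith
    · linarith
    · linarith
    · linarith
  · intro k hk _
    unfold WW.VQ at hk
    rw [mem_filter, mem_range] at hk
    have := T_mono (N := N) W (Nat.le_succ k) hk.1 hx
    have h' : (W.T N k x : ℝ) ≤ W.T N (k + 1) x := by exact_mod_cast this
    linarith

/-- PL-L. -/
theorem area_lower {d : ℕ} (W : WW d) {N m : ℕ} {s t l δ ε : ℝ} {v : ℕ → ℝ × ℝ}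
    {b : ℕ → ℝ} (h : W.Loc N m s t l δ ε v b) (h3 : 3 * m * δ ≤ l) (h2 : 2 * δ ≤ l) :
    (l - 3 * m * δ) * (l - 2 * δ) ≤
      ∑ c ∈ range m, ∑ c' ∈ range m,
        if c < c' then ((c' : ℝ) - c) * W.mass N c c' (W.VQ N s t l) else 0 := by
  have hd : (0 : ℝ) < d := by exact_mod_cast h.hd
  have hδ : 0 < δ := by
    by_contra hcon
    push Not at hcon
    have := h.one
    nlinarith
  have hl := h.hl
  have hs0 : 0 ≤ s := by linarith [h.inner.left]
  have hsl : s + l ≤ 1 := by linarith [h.inner.right]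
  -- the total sum
  have key : (l - 3 * m * δ) * (l - 2 * δ) * (d : ℝ) ^ 2 ≤
      ∑ x ∈ range (d + 1), ∑ k ∈ W.VQ N s t l, ((W.T N (k + 1) x : ℝ) - W.T N k x) := by
    set R := Finset.Icc ⌈(s + δ) * d⌉₊ ⌊(s + l) * d⌋₊ with hR
    have hsub : R ⊆ range (d + 1) := by
      intro x hx
      rw [hR, mem_Icc] at hx
      rw [mem_range, Nat.lt_succ_iff]
      have h1 : ⌊(s + l) * d⌋₊ ≤ d := by
        apply Nat.floor_le_of_le
        nlinarith
      exact hx.2.trans h1
    have hcard : (l - 2 * δ) * d ≤ (R.card : ℝ) := by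
      rw [hR, Nat.card_Icc]
      have h1 : (s + l) * d < ⌊(s + l) * d⌋₊ + 1 := Nat.lt_floor_add_one _
      have h2' : (⌈(s + δ) * d⌉₊ : ℝ) < (s + δ) * d + 1 :=
        Nat.ceil_lt_add_one (by positivity)
      have h3' : ((⌊(s + l) * d⌋₊ + 1 : ℕ) : ℝ) - (⌈(s + δ) * d⌉₊ : ℝ) ≤
          ((⌊(s + l) * d⌋₊ + 1 - ⌈(s + δ) * d⌉₊ : ℕ) : ℝ) := by
        rw [sub_le_iff_le_add]
        exact_mod_cast (by omega : ⌊(s + l) * d⌋₊ + 1 ≤
          ⌊(s + l) * d⌋₊ + 1 - ⌈(s + δ) * d⌉₊ + ⌈(s + δ) * d⌉₊)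
      push_cast at h3'
      have := h.one
      nlinarith
    have hrow : ∀ x ∈ R, (l - 3 * m * δ) * d ≤
        ∑ k ∈ W.VQ N s t l, ((W.T N (k + 1) x : ℝ) - W.T N k x) := by
      intro x hx
      have hxd : x ≤ d := by
        have := hsub hx
        rw [mem_range] at this
        omega
      rw [hR, mem_Icc] at hx
      have h1 : (s + δ) * d ≤ x := by
        exact (Nat.le_ceil _).trans (by exact_mod_cast hx.1)
      have h2' : (x : ℝ) ≤ (s + l) * d := by
        refine le_trans (?_ : (x : ℝ) ≤ ⌊(s + l) * d⌋₊) (Nat.floor_le (by positivity))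
        exact_mod_cast hx.2
      exact alow_row W h h3 hxd (by rw [le_div_iff₀ hd]; exact h1)
        (by rw [div_le_iff₀ hd]; exact h2')
    have hnonneg : ∀ x ∈ range (d + 1), x ∉ R →
        0 ≤ ∑ k ∈ W.VQ N s t l, ((W.T N (k + 1) x : ℝ) - W.T N k x) := by
      intro x hx _
      rw [mem_range] at hx
      apply Finset.sum_nonneg
      intro k hk
      unfold WW.VQ at hk
      rw [mem_filter, mem_range] at hk
      have := T_mono (N := N) W (Nat.le_succ k) hk.1 (Nat.lt_succ_iff.mp hx)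
      have h' : (W.T N k x : ℝ) ≤ W.T N (k + 1) x := by exact_mod_cast this
      linarith
    calc (l - 3 * m * δ) * (l - 2 * δ) * (d : ℝ) ^ 2
        = ((l - 2 * δ) * d) * ((l - 3 * m * δ) * d) := by ring
      _ ≤ (R.card : ℝ) * ((l - 3 * m * δ) * d) := by
          apply mul_le_mul_of_nonneg_right hcard
          apply mul_nonneg _ hd.le
          linarith
      _ = ∑ x ∈ R, (l - 3 * m * δ) * d := by
          rw [Finset.sum_const, nsmul_eq_mul]
      _ ≤ ∑ x ∈ R, ∑ k ∈ W.VQ N s t l, ((W.T N (k + 1) x : ℝ) - W.T N k x) :=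
          Finset.sum_le_sum hrow
      _ ≤ ∑ x ∈ range (d + 1), ∑ k ∈ W.VQ N s t l, ((W.T N (k + 1) x : ℝ) - W.T N k x) :=
          Finset.sum_le_sum_of_subset_of_nonneg hsub hnonneg
  rw [Finset.sum_comm] at key
  have hblock : ∀ k ∈ W.VQ N s t l,
      ∑ x ∈ range (d + 1), ((W.T N (k + 1) x : ℝ) - W.T N k x) =
        ∑ c ∈ range m, ∑ c' ∈ range m,
          if c < c' then ((c' : ℝ) - c) * ((W.u N c k : ℝ) * W.u N c' k) else 0 := by
    intro k hk
    unfold WW.VQ at hk
    rw [mem_filter, mem_range] at hk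
    exact block_area W h.hN h.hm hk.1
  rw [Finset.sum_congr rfl hblock] at key
  have hswap : ∑ k ∈ W.VQ N s t l, ∑ c ∈ range m, ∑ c' ∈ range m,
        (if c < c' then ((c' : ℝ) - c) * ((W.u N c k : ℝ) * W.u N c' k) else 0) =
      (∑ c ∈ range m, ∑ c' ∈ range m,
        if c < c' then ((c' : ℝ) - c) * W.mass N c c' (W.VQ N s t l) else 0) * (d : ℝ) ^ 2 := by
    rw [Finset.sum_comm, Finset.sum_mul]
    apply Finset.sum_congr rfl
    intro c _
    rw [Finset.sum_comm, Finset.sum_mul]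
    apply Finset.sum_congr rfl
    intro c' _
    by_cases hcc : c < c'
    · simp only [hcc, if_true]
      unfold WW.mass
      rw [← Finset.mul_sum, mul_assoc, div_mul_cancel₀ _ (by positivity)]
    · simp only [hcc, if_false, Finset.sum_const_zero, zero_mul]
  rw [hswap] at key
  exact le_of_mul_le_mul_right key (by positivity)

end Pool.Agent.Helper8.PW
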