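import Pool.Agent.Helper8.PW.Fin

/-! Project PW: the main inequality if no vertex has more than three quarters of the weight. -/

open Finset

namespace Pool.Agent.Helper8.PW

open Pool.Agent.Helper8.PL

/-- the final computation, first part -/
theorem asym_num1 {X a η C κ ε₁ UK US P Z SB E : ℝ} (ha : 0 < a) (ha1 : a ≤ 1) (hη : 0 < η)
    (hX : 0 < X) (hUK : UK ≤ X ^ 2) (hUS : X ^ 2 - X ≤ US)
    (hSB : SB ≤ X + C) (hε₁ : ε₁ = a * η / 6)
    (hE1 : -X ^ 2 + 3 / 2 * ((2 / 3 - a * η) * UK - ε₁ * X ^ 2) + 3 / 2 * a * P + Z +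
      (US - UK) - 2 * SB ≤ E) (hE : E < κ * X ^ 2) (hκ : κ ≤ a * η / 4)
    (h1 : 3 * X ≤ a * η / 4 * X ^ 2) (h2 : 2 * C ≤ a * η / 4 * X ^ 2) (hP : 0 ≤ P)
    (hZ : 0 ≤ Z) : P ≤ 2 * η * X ^ 2 ∧ Z ≤ 3 * η * X ^ 2 := by
  have hX2 : 0 < X ^ 2 := by positivity
  have h3 : κ * X ^ 2 ≤ a * η / 4 * X ^ 2 := mul_le_mul_of_nonneg_right hκ hX2.le
  have h4 : a * η * UK ≤ a * η * X ^ 2 := mul_le_mul_of_nonneg_left hUK (by positivity)
  have h5 : 3 / 2 * a * P + Z ≤ 3 * (a * η * X ^ 2) := by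
    rw [hε₁] at hE1
    nlinarith
  constructor
  · have h6 : 3 / 2 * a * P ≤ 3 * (a * η * X ^ 2) := by linarith
    have h7 : a * P ≤ a * (2 * η * X ^ 2) := by nlinarith
    exact le_of_mul_le_mul_left h7 ha
  · have h6 : a * η * X ^ 2 ≤ 1 * η * X ^ 2 := by
      apply mul_le_mul_of_nonneg_right _ hX2.le
      exact mul_le_mul_of_nonneg_right ha1 hη.le
    have h7 : 0 ≤ 3 / 2 * a * P := by positivity
    linarith

/-- the final computation, second part -/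
theorem asym_num2 {X ε η C US UB U3 UQ P SB E Q : ℝ} (hX : 0 < X)
    (hUS : X ^ 2 - X ≤ US) (hSB : SB ≤ X + C) (hUB : UB ≤ 3 / 4 * X * SB)
    (hsum : US = UB + P + U3 + UQ) (hε : 0 < ε) (hε1 : ε ≤ 1) (hη1 : η = ε ^ 2 / 100000)
    (hE : -X ^ 2 + (UB - 2 * SB) + P + 9 / 8 * U3 ≤ E) (hP : P ≤ 2 * η * X ^ 2)
    (hUQ : UQ ≤ 256 * (Q + X / ε) + 24 * η * X ^ 2) (hQ : Q ≤ η * X ^ 2 / ε ^ 2)
    (hC : 0 ≤ C)
    (h1 : 4 * X + 9 / 8 * (256 * (X / ε)) + 2 * C + X * C ≤ X ^ 2 / 128) :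
    X ^ 2 / 64 ≤ E := by
  have hX2 : 0 < X ^ 2 := by positivity
  have h2 : η * X ^ 2 / ε ^ 2 = X ^ 2 / 100000 := by
    rw [hη1]
    field_simp
  rw [h2] at hQ
  have h3 : η * X ^ 2 ≤ X ^ 2 / 100000 := by
    rw [hη1]
    have : ε ^ 2 ≤ 1 := by nlinarith
    nlinarith
  have h4 : 3 / 4 * X * SB ≤ 3 / 4 * X * (X + C) :=
    mul_le_mul_of_nonneg_left hSB (by positivity)
  have h5 : 0 ≤ X * C := by positivity
  nlinarith

theorem pw_asym {ε : ℝ} (hε : 0 < ε) (hε1 : ε ≤ 1) : ∃ κ : ℝ, 0 < κ ∧ ∀ {d : ℕ} (W : Wiring d)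
    (w : Fin d → ℝ) (z : ℕ → ℝ) (Bl : Finset ℕ), (∀ i, ε ≤ w i ∧ w i ≤ 1) →
      1 ≤ κ * ∑ i, w i → Bl ⊆ range W.M → (∀ k < W.M, k ∉ Bl → W.mult k = 2) →
        (∀ k ∈ Bl, 16 < SS W w k → 0 ≤ z k) → (∀ k < W.M, SS W w k ≤ 3 / 4 * ∑ i, w i) →
          c1sq W w z Bl + κ * (∑ i, w i) ^ 2 ≤ 3 * c2 W w z Bl := by
  classical
  obtain ⟨η, hη⟩ : ∃ η : ℝ, η = ε ^ 2 / 100000 := ⟨_, rfl⟩
  have hη0 : 0 < η := by
    rw [hη]
    positivity
  obtain ⟨n, a, hn, ha, han, hK⟩ := kern_exists hη0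
  have ha1 : a ≤ 1 := by
    have h1 : (1 : ℝ) ≤ n := by exact_mod_cast hn
    nlinarith
  obtain ⟨ε₁, hε₁⟩ : ∃ ε₁ : ℝ, ε₁ = a * η / 6 := ⟨_, rfl⟩
  have hε₁0 : 0 < ε₁ := by
    rw [hε₁]
    positivity
  obtain ⟨δ, hδ, HK⟩ := kernel_real (φ := fun x => Real.sin x ^ 2 - a * (Real.sin x ^ 2) ^ n)
    (kern_bdd n ha.le ha1) hK hε₁0
  obtain ⟨C, hC⟩ : ∃ C : ℝ, C = (2 / δ ^ 2) ^ 2 := ⟨_, rfl⟩
  have hC0 : 0 ≤ C := by
    rw [hC]
    positivity
  obtain ⟨L, hL⟩ : ∃ L : ℝ, L = 12 / (a * η) + 8 * C / (a * η) + 17 / δ +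
      128 * (4 + 288 / ε + 3 * C) + 4 / (a * η) + 64 := ⟨_, rfl⟩
  have haη : 0 < a * η := by positivity
  have p1 : 0 < 12 / (a * η) := by positivity
  have p2 : 0 ≤ 8 * C / (a * η) := by positivity
  have p3 : 0 < 17 / δ := by positivity
  have p4 : 0 < 128 * (4 + 288 / ε + 3 * C) := by positivity
  have p5 : 0 < 4 / (a * η) := by positivity
  have hL0 : 0 < L := by
    rw [hL]
    linarith
  refine ⟨1 / L, by positivity, ?_⟩
  intro d W w z Bl hw hX hBl h2 hz hs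
  obtain ⟨X, hXX⟩ : ∃ X : ℝ, X = ∑ i, w i := ⟨_, rfl⟩
  rw [← hXX] at hX hs ⊢
  have hXL : L ≤ X := by
    rw [one_div, ← div_eq_inv_mul, le_div_iff₀ hL0] at hX
    linarith
  have hX0 : 0 < X := hL0.trans_le hXL
  have hw0 : ∀ i, 0 ≤ w i := fun i => hε.le.trans (hw i).1
  have hw1 : ∀ i, w i ≤ 1 := fun i => (hw i).2
  have q1 : 12 / (a * η) ≤ X := by linarith
  have q2 : 8 * C / (a * η) ≤ X := by linarith
  have q3 : 17 / δ ≤ X := by linarith
  have q4 : 128 * (4 + 288 / ε + 3 * C) ≤ X := by linarith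
  have q5 : 4 / (a * η) ≤ L := by linarith
  have q6 : 64 ≤ L := by linarith
  have hX1 : 1 ≤ X := by linarith
  have hδX : 17 ≤ δ * X := by
    rw [div_le_iff₀ hδ] at q3
    linarith
  have hκ1 : 1 / L ≤ a * η / 4 := by
    rw [div_le_iff₀ haη] at q5
    rw [div_le_iff₀ hL0]
    linarith
  have hκ2 : 1 / L ≤ 1 / 64 := one_div_le_one_div_of_le (by norm_num) q6
  -- the number of lines
  have hXd : X ≤ d := by
    rw [hXX]
    calc ∑ i, w i ≤ ∑ _i : Fin d, (1 : ℝ) := Finset.sum_le_sum fun i _ => hw1 i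
      _ = d := by simp
  have hdX : (d : ℝ) ≤ X / ε := by
    rw [le_div_iff₀ hε, hXX]
    calc (d : ℝ) * ε = ∑ _i : Fin d, ε := by simp
      _ ≤ ∑ i, w i := Finset.sum_le_sum fun i _ => (hw i).1
  have hd1 : 1 ≤ d := by
    have : (1 : ℝ) ≤ d := hX1.trans hXd
    exact_mod_cast this
  -- the kernel inequality
  obtain ⟨K, θ, hKM, hKb, hKI⟩ := HK W w (by omega) (fun i => hε.trans_le (hw i).1)
    (fun i => by
      rw [← hXX]
      exact (hw1 i).trans (by linarith))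
  rw [← hXX] at hKb hKI
  obtain ⟨E, hE⟩ : ∃ E : ℝ, E = 3 * c2 W w z Bl - c1sq W w z Bl := ⟨_, rfl⟩
  suffices hgoal : 1 / L * X ^ 2 ≤ E by linarith
  by_contra hcon
  rw [not_le] at hcon
  have hEsum := fin_sum W w z Bl hBl h2
  rw [← hE, ← hXX, ← sum_sdiff hKM] at hEsum
  -- the large vertices
  have hbig : ∀ k ∈ range W.M \ K, k ∈ Bl ∧ 17 ≤ SS W w k ∧ 0 ≤ z k := by
    intro k hk
    rw [mem_sdiff, mem_range] at hk
    have h3 : 17 ≤ SS W w k := hδX.trans (hKb k hk.1 hk.2)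
    have h4 : k ∈ Bl := by
      by_contra hcon2
      have h5 := h2 k hk.1 hcon2
      have h6 : SS W w k ≤ 2 := by
        calc SS W w k ≤ ∑ _i ∈ W.B k, (1 : ℝ) := Finset.sum_le_sum fun i _ => hw1 i
          _ = 2 := by rw [sum_const, card_B W hk.1, h5, nsmul_eq_mul]; norm_num
      linarith
    exact ⟨h4, h3, hz k h4 (by linarith)⟩
  have hTbig : ∑ k ∈ range W.M \ K, UU W w k - 2 * ∑ k ∈ range W.M \ K, SS W w k ≤
      ∑ k ∈ range W.M \ K, TT W w z Bl k := by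
    rw [mul_sum, ← sum_sub_distrib]
    refine Finset.sum_le_sum fun k hk => ?_
    obtain ⟨h3, h4, h5⟩ := hbig k hk
    exact fin_big h3 h5 (by linarith)
  obtain ⟨SB, hSB⟩ : ∃ SB : ℝ, SB = ∑ k ∈ range W.M \ K, SS W w k := ⟨_, rfl⟩
  obtain ⟨UB, hUB⟩ : ∃ UB : ℝ, UB = ∑ k ∈ range W.M \ K, UU W w k := ⟨_, rfl⟩
  have hSBC : SB ≤ X + C := by
    have h3 := (few_big_w W w hw0 hw1 hδ (by rw [← hXX]; linarith) (range W.M \ K)
      sdiff_subset (fun k hk => by
        rw [mem_sdiff, mem_range] at hk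
        rw [← hXX]
        exact hKb k hk.1 hk.2)).2
    rw [hSB, hC, hXX]
    exact h3
  have hUBS : UB ≤ 3 / 4 * X * SB := by
    rw [hUB, hSB, mul_sum]
    refine Finset.sum_le_sum fun k hk => ?_
    rw [mem_sdiff, mem_range] at hk
    have h3 := fin_US (W := W) (w := w) k
    have h4 := mul_le_mul_of_nonneg_right (hs k hk.1) (fin_S (W := W) hw0 k)
    nlinarith
  -- all pairs
  have hUall := sum_UU W w
  rw [← hXX] at hUall
  have hsq0 : 0 ≤ ∑ i, w i ^ 2 := Finset.sum_nonneg fun i _ => sq_nonneg _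
  have hsq1 : ∑ i, w i ^ 2 ≤ X := by
    rw [hXX]
    refine Finset.sum_le_sum fun i _ => ?_
    have := hw0 i
    have := hw1 i
    nlinarith
  obtain ⟨US, hUS⟩ : ∃ US : ℝ, US = ∑ k ∈ range W.M, UU W w k := ⟨_, rfl⟩
  rw [← hUS] at hUall
  have hUS1 : X ^ 2 - X ≤ US := by linarith
  have hUS2 : US ≤ X ^ 2 := by linarith
  obtain ⟨UK, hUK⟩ : ∃ UK : ℝ, UK = ∑ k ∈ K, UU W w k := ⟨_, rfl⟩
  have hUsplit : US = UB + UK := by
    rw [hUS, hUB, hUK, sum_sdiff hKM]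
  have hUB0 : 0 ≤ UB := by
    rw [hUB]
    exact Finset.sum_nonneg fun k _ => fin_U hw0 k
  -- first estimate
  obtain ⟨P, hP⟩ : ∃ P : ℝ, P = ∑ k ∈ K.filter (fun k => W.mult k = 2), UU W w k := ⟨_, rfl⟩
  obtain ⟨Z, hZ⟩ : ∃ Z : ℝ, Z = ∑ k ∈ K, ZZ W w z Bl k := ⟨_, rfl⟩
  have hP0 : 0 ≤ P := by
    rw [hP]
    exact Finset.sum_nonneg fun k _ => fin_U hw0 k
  have hZ0 : 0 ≤ Z := by
    rw [hZ]
    exact Finset.sum_nonneg fun k _ => fin_ZZ W w z Bl k
  have hTK : 3 / 2 * ((2 / 3 - a * η) * UK - ε₁ * X ^ 2) + 3 / 2 * a * P + Z ≤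
      ∑ k ∈ K, TT W w z Bl k := by
    have h3 : 3 / 2 * ∑ k ∈ K, ∑ i ∈ W.B k, ∑ j ∈ (W.B k).erase i, w i * w j *
        (Real.sin (θ k i - θ k j) ^ 2 - a * (Real.sin (θ k i - θ k j) ^ 2) ^ n) +
        3 / 2 * a * P + Z ≤ ∑ k ∈ K, TT W w z Bl k := by
      rw [hP, hZ, sum_filter, mul_sum, mul_sum, ← sum_add_distrib, ← sum_add_distrib]
      refine Finset.sum_le_sum fun k hk => ?_
      have h4 := fin_ker (z := z) hw0 h2 (mem_range.1 (hKM hk)) (θ k) n ha.le han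
      refine le_trans (le_of_eq ?_) h4
      congr 2
      split_ifs <;> ring
    rw [← hUK] at hKI
    linarith
  have hE1 : -X ^ 2 + 3 / 2 * ((2 / 3 - a * η) * UK - ε₁ * X ^ 2) + 3 / 2 * a * P + Z +
      (US - UK) - 2 * SB ≤ E := by
    rw [hEsum]
    rw [← hUB, ← hSB] at hTbig
    linarith
  have r1 : 3 * X ≤ a * η / 4 * X ^ 2 := by
    rw [div_le_iff₀ haη] at q1
    have := mul_le_mul_of_nonneg_right q1 hX0.le
    nlinarith
  have r2 : 2 * C ≤ a * η / 4 * X ^ 2 := by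
    rw [div_le_iff₀ haη] at q2
    have h3 := mul_le_mul_of_nonneg_left hX1 (by positivity : 0 ≤ X * (a * η))
    nlinarith
  obtain ⟨hPη, hZη⟩ := asym_num1 (C := C) (SB := SB) ha ha1 hη0 hX0 (by linarith) hUS1 hSBC
    hε₁ hE1 hcon hκ1 r1 r2 hP0 hZ0
  -- the double points
  obtain ⟨t, ht⟩ : ∃ t : ℝ, t = ((range W.M).filter fun k => W.mult k = 2).card := ⟨_, rfl⟩
  have htP : t ≤ η * X ^ 2 / ε ^ 2 := by
    have h3 : (range W.M).filter (fun k => W.mult k = 2) ⊆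
        K.filter (fun k => W.mult k = 2) := by
      intro k hk
      rw [mem_filter] at hk ⊢
      refine ⟨?_, hk.2⟩
      by_contra hcon2
      have h4 := (hbig k (by rw [mem_sdiff]; exact ⟨hk.1, hcon2⟩)).2.1
      have h6 : SS W w k ≤ 2 := by
        calc SS W w k ≤ ∑ _i ∈ W.B k, (1 : ℝ) := Finset.sum_le_sum fun i _ => hw1 i
          _ = 2 := by
            rw [sum_const, card_B W (mem_range.1 hk.1), hk.2, nsmul_eq_mul]
            norm_num
      linarith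
    have h4 : t * (2 * ε ^ 2) ≤ P := by
      rw [ht, hP]
      calc (((range W.M).filter fun k => W.mult k = 2).card : ℝ) * (2 * ε ^ 2) =
          ∑ _k ∈ (range W.M).filter (fun k => W.mult k = 2), 2 * ε ^ 2 := by
            rw [sum_const, nsmul_eq_mul]
        _ ≤ ∑ k ∈ (range W.M).filter (fun k => W.mult k = 2), UU W w k := by
            refine Finset.sum_le_sum fun k hk => ?_
            rw [mem_filter, mem_range] at hk
            obtain ⟨h5, _⟩ := fin_two (w := w) (z := z) (Bl := Bl) hk.1 hk.2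
            rw [h5]
            have h6 : ε ^ 2 ≤ ∏ i ∈ W.B k, w i := by
              rw [← hk.2, ← card_B W hk.1, ← prod_const]
              exact Finset.prod_le_prod (fun i _ => hε.le) (fun i _ => (hw i).1)
            linarith
        _ ≤ ∑ k ∈ K.filter (fun k => W.mult k = 2), UU W w k :=
            Finset.sum_le_sum_of_subset_of_nonneg h3 fun k _ _ => fin_U hw0 k
    rw [le_div_iff₀ (by positivity)]
    linarith
  -- the vertices of multiplicity at least four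
  obtain ⟨UQ, hUQ⟩ : ∃ UQ : ℝ, UQ = ∑ k ∈ K.filter (fun k => 4 ≤ W.mult k), UU W w k :=
    ⟨_, rfl⟩
  have hUQ1 : UQ ≤ 256 * (t + X / ε) + 24 * η * X ^ 2 := by
    have h3 : ∀ k ∈ K.filter (fun k => 4 ≤ W.mult k), UU W w k ≤
        256 + 8 * ZZ W w z Bl k := by
      intro k hk
      rw [mem_filter] at hk
      have hkM := mem_range.1 (hKM hk.1)
      have hkB : k ∈ Bl := by
        by_contra hcon2
        have := h2 k hkM hcon2
        omega
      have h4 := fin_ZZ W w z Bl k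
      by_cases h5 : 16 < SS W w k
      · have := fin_Zbig (W := W) (w := w) (z := z) hkB (hz k hkB h5) h5.le
        linarith
      · rw [not_lt] at h5
        have h6 := fin_US (W := W) (w := w) k
        have h7 := fin_S (W := W) hw0 k
        nlinarith
    have h4 : UQ ≤ 256 * ((K.filter fun k => 4 ≤ W.mult k).card : ℝ) + 8 * Z := by
      rw [hUQ, hZ]
      refine (Finset.sum_le_sum h3).trans ?_
      rw [sum_add_distrib, sum_const, nsmul_eq_mul, ← mul_sum, mul_comm (256 : ℝ)]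
      have : ∑ k ∈ K.filter (fun k => 4 ≤ W.mult k), ZZ W w z Bl k ≤
          ∑ k ∈ K, ZZ W w z Bl k :=
        Finset.sum_le_sum_of_subset_of_nonneg (filter_subset _ _) fun k _ _ =>
          fin_ZZ W w z Bl k
      linarith
    have h5 : ((K.filter fun k => 4 ≤ W.mult k).card : ℝ) ≤ t + d := by
      have h6 := fin_mel (W := W) hd1
      rw [← ht] at h6
      have h7 : (K.filter fun k => 4 ≤ W.mult k).card ≤
          ((range W.M).filter fun k => 4 ≤ W.mult k).card :=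
        card_le_card (filter_subset_filter _ hKM)
      have h8 : ((K.filter fun k => 4 ≤ W.mult k).card : ℝ) ≤
          ((range W.M).filter fun k => 4 ≤ W.mult k).card := by exact_mod_cast h7
      linarith
    linarith
  -- second estimate
  obtain ⟨U3, hU3⟩ : ∃ U3 : ℝ, U3 = ∑ k ∈ K.filter (fun k => W.mult k = 3), UU W w k :=
    ⟨_, rfl⟩
  have hcase : ∀ k ∈ K, W.mult k = 2 ∨ W.mult k = 3 ∨ 4 ≤ W.mult k := by
    intro k hk
    have h3 := W.two_le k (mem_range.1 (hKM hk))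
    have h4 : 2 ≤ W.mult k := by
      unfold Wiring.mult
      omega
    omega
  have hUK3 : UK = P + U3 + UQ := by
    rw [hUK, hP, hU3, hUQ, sum_filter, sum_filter, sum_filter, ← sum_add_distrib,
      ← sum_add_distrib]
    refine Finset.sum_congr rfl fun k hk => ?_
    rcases hcase k hk with h | h | h
    · rw [if_pos h, if_neg (by omega), if_neg (by omega)]
      ring
    · rw [if_neg (by omega), if_pos h, if_neg (by omega)]
      ring
    · rw [if_neg (by omega), if_neg (by omega), if_pos h]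
      ring
  have hTK2 : P + 9 / 8 * U3 ≤ ∑ k ∈ K, TT W w z Bl k := by
    rw [hP, hU3, sum_filter, sum_filter, mul_sum, ← sum_add_distrib]
    refine Finset.sum_le_sum fun k hk => ?_
    have hkM := mem_range.1 (hKM hk)
    rcases hcase k hk with h | h | h
    · rw [if_pos h, if_neg (by omega)]
      obtain ⟨h5, h6⟩ := fin_two (w := w) (z := z) (Bl := Bl) hkM h
      have h7 := fin_ZZ W w z Bl k
      have h8 : 0 ≤ ∏ i ∈ W.B k, w i := Finset.prod_nonneg fun i _ => hw0 i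
      rw [h5]
      linarith
    · rw [if_neg (by omega), if_pos h]
      have hkB : k ∈ Bl := by
        by_contra hcon2
        have := h2 k hkM hcon2
        omega
      have := fin_three (w := w) (z := z) hkM h hkB
      linarith
    · rw [if_neg (by omega), if_neg (by omega)]
      have := fin_T (z := z) (Bl := Bl) (W := W) hw0 k
      linarith
  have hE2 : -X ^ 2 + (UB - 2 * SB) + P + 9 / 8 * U3 ≤ E := by
    rw [hEsum]
    rw [← hUB, ← hSB] at hTbig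
    linarith
  have r3 : 4 * X + 9 / 8 * (256 * (X / ε)) + 2 * C + X * C ≤ X ^ 2 / 128 := by
    have h3 := mul_le_mul_of_nonneg_right q4 hX0.le
    have h4 : 128 * (4 + 288 / ε + 3 * C) * X = 128 * (4 * X + 288 * (X / ε) + 3 * C * X) := by
      ring
    rw [h4] at h3
    have h5 : C ≤ C * X := by nlinarith
    have h6 : 0 ≤ X / ε := by positivity
    nlinarith
  have hfin := asym_num2 (UQ := UQ) (Q := t) hX0 hUS1 hSBC hUBS (by linarith) hε hε1 hη hE2
    hPη hUQ1 htP hC0 r3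
  have h3 : 1 / L * X ^ 2 ≤ 1 / 64 * X ^ 2 := mul_le_mul_of_nonneg_right hκ2 (by positivity)
  linarith

end Pool.Agent.Helper8.PW
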