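import Pool.Agent.Helper8.PW.Defs

/-! Project PW: basic facts on weighted wiring diagrams. -/

namespace Pool.Agent.Helper8.PW

open Pool.Agent.Helper8.PL Finset

variable {d : ℕ} (W : WW d)

theorem hh_mono {k g g' : ℕ} (h : g ≤ g') : W.hh k g ≤ W.hh k g' := by
  unfold WW.hh
  apply sum_le_sum_of_subset
  intro i hi
  rw [mem_filter] at hi ⊢
  exact ⟨hi.1, hi.2.trans_le h⟩

theorem hh_zero (k : ℕ) : W.hh k 0 = 0 := by
  unfold WW.hh
  simp

theorem hh_top {k g : ℕ} (hk : k ≤ W.M) (hg : W.e ≤ g) : W.hh k g = d := by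
  unfold WW.hh
  rw [filter_true_of_mem, W.sum_w]
  intro i _
  exact (pos_lt W.U hk i).trans_le hg

theorem hh_le (k g : ℕ) : W.hh k g ≤ d := by
  unfold WW.hh
  calc ∑ i ∈ univ.filter (fun i => W.U.pos k i < g), W.w i ≤ ∑ i, W.w i :=
        sum_le_sum_of_subset (filter_subset _ _)
    _ = d := W.sum_w

theorem hh_succ {k : ℕ} (hk : k ≤ W.M) (i : Fin W.e) :
    W.hh k (W.U.pos k i + 1) = W.ht k i + W.w i := by
  unfold WW.ht WW.hh
  have h : (univ.filter fun j => W.U.pos k j < W.U.pos k i + 1) =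
      insert i (univ.filter fun j => W.U.pos k j < W.U.pos k i) := by
    ext j
    simp only [mem_filter, mem_insert, mem_univ, true_and]
    constructor
    · intro h
      rcases Nat.lt_succ_iff_lt_or_eq.1 h with h1 | h1
      · exact Or.inr h1
      · exact Or.inl (pos_inj W.U hk h1)
    · rintro (rfl | h)
      · exact Nat.lt_succ_self _
      · exact Nat.lt_succ_of_lt h
  rw [h, sum_insert (by simp), add_comm]

theorem ht_add_le {k : ℕ} (hk : k ≤ W.M) {i j : Fin W.e} (h : W.U.pos k i < W.U.pos k j) :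
    W.ht k i + W.w i ≤ W.ht k j := by
  rw [← hh_succ W hk i]
  exact hh_mono W h

theorem ht_add_le_d {k : ℕ} (hk : k ≤ W.M) (i : Fin W.e) : W.ht k i + W.w i ≤ d := by
  rw [← hh_succ W hk i]
  exact hh_le W _ _

theorem f_le_w (k x : ℕ) (i : Fin W.e) : W.f k x i ≤ W.w i := min_le_left _ _

theorem f_eq_w {k x : ℕ} {i : Fin W.e} (h : W.ht k i + W.w i ≤ x) : W.f k x i = W.w i := by
  unfold WW.f
  omega

theorem f_eq_zero {k x : ℕ} {i : Fin W.e} (h : x ≤ W.ht k i) : W.f k x i = 0 := by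
  unfold WW.f
  omega

theorem f_mono {k x y : ℕ} (h : x ≤ y) (i : Fin W.e) : W.f k x i ≤ W.f k y i := by
  unfold WW.f
  omega

/-- the lines tile the interval -/
theorem sum_f {k x : ℕ} (hk : k ≤ W.M) (hx : x ≤ d) : ∑ i, W.f k x i = x := by
  have h1 : ∀ i : Fin W.e, W.f k x i =
      min x (W.hh k (W.U.pos k i + 1)) - min x (W.hh k (W.U.pos k i)) := by
    intro i
    rw [hh_succ W hk i]
    unfold WW.f WW.ht
    omega
  have h2 : ∑ i : Fin W.e, (min x (W.hh k (W.U.pos k i + 1)) - min x (W.hh k (W.U.pos k i))) =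
      ∑ g ∈ range W.e, (min x (W.hh k (g + 1)) - min x (W.hh k g)) := by
    refine Finset.sum_bij (fun i _ => W.U.pos k i) ?_ ?_ ?_ ?_
    · intro i _
      exact mem_range.2 (pos_lt W.U hk i)
    · intro i _ j _ h
      exact pos_inj W.U hk h
    · intro g hg
      obtain ⟨i, hi⟩ := pos_surj W.U hk (mem_range.1 hg)
      exact ⟨i, mem_univ _, hi⟩
    · intro i _
      rfl
  rw [Finset.sum_congr rfl fun i _ => h1 i, h2]
  have h3 : ∀ n, ∑ g ∈ range n, (min x (W.hh k (g + 1)) - min x (W.hh k g)) =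
      min x (W.hh k n) := by
    intro n
    induction n with
    | zero =>
      rw [hh_zero]
      simp
    | succ n ih =>
      rw [sum_range_succ, ih]
      have h4 := hh_mono W (k := k) (Nat.le_succ n)
      simp only [Nat.succ_eq_add_one] at h4
      omega
  rw [h3, hh_top W hk le_rfl]
  omega

/-- the gaps outside a vertex keep their height -/
theorem hh_step {k g : ℕ} (hk : k < W.M) (hg : g ≤ W.U.lo k ∨ W.U.hi k ≤ g) :
    W.hh (k + 1) g = W.hh k g := by
  unfold WW.hh
  have h : (univ.filter fun i : Fin W.e => W.U.pos (k + 1) i < g) =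
      univ.filter fun i : Fin W.e => W.U.pos k i < g := by
    apply filter_congr
    intro i _
    rcases basic_step W.U hk i with h | h <;> omega
  rw [h]

theorem mem_B {k : ℕ} {i : Fin W.e} :
    i ∈ W.B k ↔ W.U.lo k ≤ W.U.pos k i ∧ W.U.pos k i < W.U.hi k := by
  unfold WW.B Wiring.B
  simp

theorem ht_out {k : ℕ} (hk : k < W.M) {i : Fin W.e} (hi : i ∉ W.B k) :
    W.ht (k + 1) i = W.ht k i := by
  rw [mem_B] at hi
  unfold WW.ht
  rcases basic_step W.U hk i with h | h
  · rw [h.2]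
    apply hh_step W hk
    omega
  · exact absurd h.1 hi

theorem lo_le_ht {k : ℕ} {i : Fin W.e} (hi : i ∈ W.B k) : W.lo k ≤ W.ht k i := by
  rw [mem_B] at hi
  exact hh_mono W hi.1

theorem ht_le_hi {k : ℕ} (hk : k ≤ W.M) {i : Fin W.e} (hi : i ∈ W.B k) :
    W.ht k i + W.w i ≤ W.hi k := by
  rw [mem_B] at hi
  rw [← hh_succ W hk i]
  exact hh_mono W hi.2

/-- below or above the vertex -/
theorem out_cases {k : ℕ} (hk : k ≤ W.M) {i : Fin W.e} (hi : i ∉ W.B k) :
    W.ht k i + W.w i ≤ W.lo k ∨ W.hi k ≤ W.ht k i := by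
  rw [mem_B] at hi
  by_cases h : W.U.pos k i < W.U.lo k
  · left
    rw [← hh_succ W hk i]
    exact hh_mono W h
  · right
    exact hh_mono W (by omega)

theorem lo_le_hi {k : ℕ} (hk : k < W.M) : W.lo k ≤ W.hi k :=
  hh_mono W (by have := W.U.two_le k hk; omega)

/-- the weight of the vertex -/
theorem sum_B {k : ℕ} (hk : k < W.M) : ∑ i ∈ W.B k, W.w i = W.mult k := by
  have h1 : W.hi k = W.lo k + ∑ i ∈ W.B k, W.w i := by
    unfold WW.hi WW.lo WW.hh
    rw [← sum_union]
    · congr 1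
      ext i
      have := W.U.two_le k hk
      rw [mem_union, mem_B]
      simp only [mem_filter, mem_univ, true_and]
      omega
    · rw [Finset.disjoint_left]
      intro i h1 h2
      rw [mem_B] at h2
      rw [mem_filter] at h1
      omega
  unfold WW.mult
  omega

theorem u_le (N c : ℕ) {k : ℕ} (hk : k < W.M) : W.u N c k ≤ W.mult k := by
  rw [← sum_B W hk]
  exact sum_le_sum_of_subset (filter_subset _ _)

theorem sum_block (k : ℕ) (i : Fin W.e) :
    W.hi k = W.hh k (W.U.pos k i + 1) + ∑ j ∈ univ.filter (fun j : Fin W.e =>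
      W.U.pos k i < W.U.pos k j ∧ W.U.pos k j < W.U.hi k), W.w j ∨ W.U.hi k ≤ W.U.pos k i := by
  by_cases h : W.U.pos k i < W.U.hi k
  · left
    unfold WW.hi WW.hh
    rw [← sum_union]
    · congr 1
      ext j
      simp only [mem_union, mem_filter, mem_univ, true_and]
      omega
    · rw [Finset.disjoint_left]
      intro j h1 h2
      simp only [mem_filter, mem_univ, true_and] at h1 h2
      omega
  · right
    omega

theorem ht_in {k : ℕ} (hk : k < W.M) {i : Fin W.e} (hi : i ∈ W.B k) :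
    W.ht (k + 1) i + W.w i + W.ht k i = W.lo k + W.hi k := by
  have hi' := (mem_B W).1 hi
  have hflip := W.U.flip k hk i hi'.1 hi'.2
  have h1 : W.ht (k + 1) i = W.lo k + ∑ j ∈ univ.filter (fun j : Fin W.e =>
      W.U.pos k i < W.U.pos k j ∧ W.U.pos k j < W.U.hi k), W.w j := by
    unfold WW.ht WW.lo WW.hh
    rw [← sum_union]
    · congr 1
      ext j
      simp only [mem_union, mem_filter, mem_univ, true_and]
      rcases basic_step W.U hk j with h | h <;> omega
    · rw [Finset.disjoint_left]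
      intro j h1 h2
      simp only [mem_filter, mem_univ, true_and] at h1 h2
      omega
  rcases sum_block W k i with h2 | h2
  · have h3 := hh_succ W hk.le i
    omega
  · omega

theorem ht_in_lo {k : ℕ} (hk : k < W.M) {i : Fin W.e} (hi : i ∈ W.B k) :
    W.lo k ≤ W.ht (k + 1) i := by
  have h1 := ht_in W hk hi
  have h2 := ht_le_hi W hk.le hi
  omega

theorem ht_in_hi {k : ℕ} (hk : k < W.M) {i : Fin W.e} (hi : i ∈ W.B k) :
    W.ht (k + 1) i + W.w i ≤ W.hi k := by
  have h1 := ht_in W hk hi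
  have h2 := lo_le_ht W hi
  omega

namespace WW

theorem two_le (k : ℕ) (hk : k < W.M) : W.lo k + 2 ≤ W.hi k := by
  have h1 := sum_B W hk
  have h2 := W.U.two_le k hk
  have h3 := card_B W.U hk
  have h4 : (W.B k).card ≤ ∑ i ∈ W.B k, W.w i := by
    rw [card_eq_sum_ones]
    exact sum_le_sum fun i _ => W.pos_w i
  have h5 : (W.B k).card = W.U.hi k - W.U.lo k := h3
  have h6 := lo_le_hi W hk
  unfold WW.mult at h1
  omega

theorem le_d (k : ℕ) (_hk : k < W.M) : W.hi k ≤ d := hh_le W _ _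

end WW

/-- the two halves of the vertex `k` -/
theorem cnt_hi (N e : ℕ) {k : ℕ} (hk : k < W.M) :
    W.cnt N e k (W.hi k) = W.cnt N e k (W.lo k) + W.u N e k := by
  unfold WW.cnt WW.u
  have h1 : (W.B k).filter (fun i => W.cl N i = e) =
      (univ.filter fun i => W.cl N i = e).filter (fun i => i ∈ W.B k) := by
    ext i
    simp only [mem_filter, mem_univ, true_and]
    exact and_comm
  rw [h1, sum_filter (s := univ.filter fun i => W.cl N i = e), ← sum_add_distrib]
  refine Finset.sum_congr rfl fun i _ => ?_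
  have h3 := lo_le_hi W hk
  split_ifs with h
  · rw [f_eq_w W (ht_le_hi W hk.le h), f_eq_zero W (lo_le_ht W h), zero_add]
  · rcases out_cases W hk.le h with h2 | h2
    · rw [f_eq_w W h2, f_eq_w W (h2.trans h3), add_zero]
    · rw [f_eq_zero W h2, f_eq_zero W (h3.trans h2), add_zero]

theorem cl_mono {N : ℕ} {i j : Fin W.e} (h : i ≤ j) : W.cl N i ≤ W.cl N j := by
  unfold WW.cl
  apply Nat.div_le_div_right
  apply sum_le_sum_of_subset
  intro l hl
  rw [mem_filter] at hl ⊢
  exact ⟨hl.1, hl.2.trans_le h⟩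

theorem lt_of_cl_lt {N : ℕ} {i j : Fin W.e} (h : W.cl N i < W.cl N j) : i < j := by
  by_contra hcon
  exact absurd (cl_mono W (N := N) (not_lt.1 hcon)) (not_le.2 h)

/-- the sign pattern: for two cuts, the second one to the right -/
theorem cnt_sign {N c c' k l x y : ℕ} (hkl : k ≤ l) (hl : l ≤ W.M) (hc : c < c') :
    W.cnt N c l y ≤ W.cnt N c k x ∨ W.cnt N c' k x ≤ W.cnt N c' l y := by
  by_contra hcon
  push Not at hcon
  obtain ⟨h1, h2⟩ := hcon
  unfold WW.cnt at h1 h2
  obtain ⟨i, hi1, hi2⟩ := exists_lt_of_sum_lt h1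
  obtain ⟨j, hj1, hj2⟩ := exists_lt_of_sum_lt h2
  rw [mem_filter] at hi1 hj1
  have hij : i < j := lt_of_cl_lt W (N := N) (by omega)
  have hk : k ≤ W.M := hkl.trans hl
  unfold WW.f at hi2 hj2
  have hpos : W.U.pos k j < W.U.pos k i := by
    rcases lt_trichotomy (W.U.pos k j) (W.U.pos k i) with h | h | h
    · exact h
    · exact absurd (pos_inj W.U hk h).symm hij.ne
    · have := ht_add_le W hk h
      omega
  have h5 := inv_mono W.U hkl hl hij hpos
  have := ht_add_le W hl h5
  omega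

/-- all classes are smaller than `m` -/
theorem cl_lt {N m : ℕ} (hN : 0 < N) (hm : d ≤ m * N) (i : Fin W.e) : W.cl N i < m := by
  unfold WW.cl
  rw [Nat.div_lt_iff_lt_mul hN]
  refine lt_of_lt_of_le ?_ hm
  have h1 : ∑ j ∈ univ.filter (fun j => j < i), W.w j + W.w i ≤ d := by
    rw [add_comm, ← sum_insert (s := univ.filter fun j => j < i) (a := i) (by simp)]
    calc ∑ j ∈ insert i (univ.filter fun j => j < i), W.w j ≤ ∑ j, W.w j :=
          sum_le_sum_of_subset (subset_univ _)
      _ = d := W.sum_w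
  have h2 := W.pos_w i
  omega

theorem sum_cnt {N m k x : ℕ} (hN : 0 < N) (hm : d ≤ m * N) (hk : k ≤ W.M) (hx : x ≤ d) :
    ∑ e ∈ range m, W.cnt N e k x = x := by
  conv_rhs => rw [← sum_f W hk hx]
  unfold WW.cnt
  exact Finset.sum_fiberwise_of_maps_to (fun i _ => mem_range.2 (cl_lt W hN hm i)) _

theorem sum_mul_cnt {N m : ℕ} (hN : 0 < N) (hm : d ≤ m * N) (k x : ℕ) :
    ∑ e ∈ range m, e * W.cnt N e k x = W.T N k x := by
  unfold WW.T WW.cnt
  rw [← Finset.sum_fiberwise_of_maps_to (s := univ) (t := range m) (g := W.cl N)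
    (fun i _ => mem_range.2 (cl_lt W hN hm i))]
  refine Finset.sum_congr rfl fun e _ => ?_
  rw [mul_sum]
  refine Finset.sum_congr rfl fun i hi => ?_
  rw [(mem_filter.1 hi).2]

end Pool.Agent.Helper8.PW
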