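import Pool.Agent.Helper8.PW.RDefs

/-! Project PW, piece BigW: few vertices of large weight. -/

namespace Pool.Agent.Helper8.PW

open Pool.Agent.Helper8.PL Finset

private lemma bigw_erase {d : ℕ} (w : Fin d → ℝ) (S : Finset (Fin d)) :
    ∑ i ∈ S, ∑ j ∈ S.erase i, w i * w j = (∑ i ∈ S, w i) ^ 2 - ∑ i ∈ S, w i ^ 2 := by
  have h : ∀ i ∈ S, ∑ j ∈ S.erase i, w i * w j = w i * (∑ j ∈ S, w j) - w i ^ 2 := by
    intro i hi
    rw [← mul_sum, ← Finset.add_sum_erase S w hi]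
    ring
  rw [sum_congr rfl h, sum_sub_distrib, ← sum_mul, sq (∑ i ∈ S, w i)]

/-- `∑ UU = X ^ 2 - ∑ w i ^ 2` (`pair_sum` of PL/Pair.lean). -/
theorem sum_UU {d : ℕ} (W : Wiring d) (w : Fin d → ℝ) :
    ∑ k ∈ range W.M, UU W w k = (∑ i, w i) ^ 2 - ∑ i, w i ^ 2 := by
  have h := pair_sum W (fun i j => w i * w j)
  unfold UU
  rw [h]
  exact bigw_erase w univ

/-- `UU = SS ^ 2 - ∑ w i ^ 2` over the lines through `k`. -/
theorem UU_eq {d : ℕ} (W : Wiring d) (w : Fin d → ℝ) (k : ℕ) :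
    UU W w k = SS W w k ^ 2 - ∑ i ∈ W.B k, w i ^ 2 := by
  unfold UU SS
  exact bigw_erase w (W.B k)

/-- two vertices have at most one common line -/
private lemma bigw_inter {d : ℕ} (W : Wiring d) {k l : ℕ} (hk : k < W.M) (hl : l < W.M)
    (hkl : k ≠ l) : (W.B k ∩ W.B l).card ≤ 1 := by
  classical
  rw [card_le_one]
  intro i hi j hj
  by_contra hij
  rw [mem_inter] at hi hj
  have h := pair_sum W (fun a b => if a = i ∧ b = j then 1 else 0)
  have hR : ∑ a, ∑ b ∈ univ.erase a, (if a = i ∧ b = j then (1 : ℝ) else 0) = 1 := by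
    rw [sum_eq_single i]
    · rw [sum_eq_single j]
      · simp
      · intro b _ hb
        rw [if_neg]
        exact fun h => hb h.2
      · intro h1
        exact absurd (mem_erase.2 ⟨Ne.symm hij, mem_univ _⟩) h1
    · intro a _ ha
      apply sum_eq_zero
      intro b _
      rw [if_neg]
      exact fun h => ha h.1
    · intro h1
      exact absurd (mem_univ _) h1
  have hL : ∀ n, i ∈ W.B n → j ∈ W.B n →
      ∑ a ∈ W.B n, ∑ b ∈ (W.B n).erase a, (if a = i ∧ b = j then (1 : ℝ) else 0) = 1 := by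
    intro n hin hjn
    rw [sum_eq_single i]
    · rw [sum_eq_single j]
      · simp
      · intro b _ hb
        rw [if_neg]
        exact fun h => hb h.2
      · intro h1
        exact absurd (mem_erase.2 ⟨Ne.symm hij, hjn⟩) h1
    · intro a _ ha
      apply sum_eq_zero
      intro b _
      rw [if_neg]
      exact fun h => ha h.1
    · intro h1
      exact absurd hin h1
  have h0 : ∀ n ∈ range W.M, 0 ≤ ∑ a ∈ W.B n, ∑ b ∈ (W.B n).erase a,
      (if a = i ∧ b = j then (1 : ℝ) else 0) := by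
    intro n _
    apply sum_nonneg
    intro a _
    apply sum_nonneg
    intro b _
    split_ifs <;> norm_num
  have h2 : ∑ n ∈ ({k, l} : Finset ℕ), ∑ a ∈ W.B n, ∑ b ∈ (W.B n).erase a,
      (if a = i ∧ b = j then (1 : ℝ) else 0) ≤ ∑ n ∈ range W.M, ∑ a ∈ W.B n,
        ∑ b ∈ (W.B n).erase a, (if a = i ∧ b = j then (1 : ℝ) else 0) := by
    apply sum_le_sum_of_subset_of_nonneg
    · intro n hn
      rw [mem_insert, mem_singleton] at hn
      rw [mem_range]
      rcases hn with rfl | rfl <;> assumption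
    · intro n hn _
      exact h0 n hn
  rw [sum_pair hkl, hL k hi.1 hj.1, hL l hi.2 hj.2, h, hR] at h2
  norm_num at h2

private lemma bigw_union {d : ℕ} (W : Wiring d) (w : Fin d → ℝ) (hw1 : ∀ i, w i ≤ 1)
    (S : Finset ℕ) (hS : ∀ k ∈ S, k < W.M) :
    ∑ k ∈ S, SS W w k ≤ ∑ i ∈ S.biUnion W.B, w i + (S.card : ℝ) ^ 2 := by
  classical
  induction S using Finset.induction_on with
  | empty => simp
  | insert k S hk ih =>
    have ih := ih fun n hn => hS n (mem_insert_of_mem hn)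
    rw [sum_insert hk, biUnion_insert, card_insert_of_notMem hk]
    have h1 := sum_union_inter (s₁ := W.B k) (s₂ := S.biUnion W.B) (f := w)
    have h2 : ((W.B k ∩ S.biUnion W.B).card : ℝ) ≤ S.card := by
      have h3 : (W.B k ∩ S.biUnion W.B).card ≤ S.card := by
        rw [inter_biUnion]
        calc (S.biUnion fun x => W.B k ∩ W.B x).card ≤ ∑ x ∈ S, (W.B k ∩ W.B x).card :=
              card_biUnion_le
          _ ≤ ∑ _x ∈ S, 1 := sum_le_sum fun x hx => bigw_inter W (hS k (mem_insert_self _ _))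
              (hS x (mem_insert_of_mem hx)) (fun h => hk (h ▸ hx))
          _ = S.card := by simp
      exact_mod_cast h3
    have h4 : ∑ i ∈ W.B k ∩ S.biUnion W.B, w i ≤ ((W.B k ∩ S.biUnion W.B).card : ℝ) := by
      calc ∑ i ∈ W.B k ∩ S.biUnion W.B, w i ≤ ∑ _i ∈ W.B k ∩ S.biUnion W.B, (1 : ℝ) :=
            sum_le_sum fun i _ => hw1 i
        _ = _ := by simp
    have h5 : SS W w k = ∑ i ∈ W.B k, w i := rfl
    have h6 : (0 : ℝ) ≤ S.card := Nat.cast_nonneg _
    push_cast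
    nlinarith

/-- As in PL/Big.lean (`big_inter`, `big_union` there, which are private: copy them): two
vertices have at most one common line, of weight at most one. For `k ∈ K`:
`∑_{i ∈ B k} w i ^ 2 ≤ SS k ≤ SS k ^ 2 / 2`, so `SS k ^ 2 ≤ 2 UU k` and
`K.card (δ X) ^ 2 ≤ 2 X ^ 2`. -/
theorem few_big_w {d : ℕ} (W : Wiring d) (w : Fin d → ℝ) (hw0 : ∀ i, 0 ≤ w i)
    (hw1 : ∀ i, w i ≤ 1) {δ : ℝ} (hδ : 0 < δ) (hX : 2 ≤ δ * ∑ i, w i) (K : Finset ℕ)
    (hK : K ⊆ range W.M) (hS : ∀ k ∈ K, δ * ∑ i, w i ≤ SS W w k) :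
    (K.card : ℝ) ≤ 2 / δ ^ 2 ∧ ∑ k ∈ K, SS W w k ≤ ∑ i, w i + (2 / δ ^ 2) ^ 2 := by
  classical
  set X := ∑ i, w i with hXdef
  have hX0 : 0 < X := by
    by_contra h
    push Not at h
    nlinarith
  have hU0 : ∀ k, 0 ≤ UU W w k := fun k =>
    sum_nonneg fun i _ => sum_nonneg fun j _ => mul_nonneg (hw0 i) (hw0 j)
  have hsq : ∀ k, ∑ i ∈ W.B k, w i ^ 2 ≤ SS W w k := fun k =>
    sum_le_sum fun i _ => by nlinarith [hw0 i, hw1 i]
  have hC : (K.card : ℝ) ≤ 2 / δ ^ 2 := by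
    have h1 : (K.card : ℝ) * (δ * X) ^ 2 ≤ 2 * X ^ 2 := by
      calc (K.card : ℝ) * (δ * X) ^ 2 = ∑ _k ∈ K, (δ * X) ^ 2 := by
            rw [sum_const, nsmul_eq_mul]
        _ ≤ ∑ k ∈ K, 2 * UU W w k := by
            apply sum_le_sum
            intro k hk
            have h2 := hS k hk
            have h3 := hsq k
            rw [UU_eq]
            nlinarith
        _ ≤ ∑ k ∈ range W.M, 2 * UU W w k := by
            apply sum_le_sum_of_subset_of_nonneg hK
            intro k _ _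
            have := hU0 k
            linarith
        _ = 2 * (X ^ 2 - ∑ i, w i ^ 2) := by rw [← mul_sum, sum_UU]
        _ ≤ 2 * X ^ 2 := by
            have : 0 ≤ ∑ i, w i ^ 2 := sum_nonneg fun i _ => sq_nonneg _
            linarith
    rw [le_div_iff₀ (by positivity)]
    have h5 : 0 < X ^ 2 := by positivity
    have h6 : (K.card : ℝ) * δ ^ 2 * X ^ 2 ≤ 2 * X ^ 2 := by
      calc (K.card : ℝ) * δ ^ 2 * X ^ 2 = (K.card : ℝ) * (δ * X) ^ 2 := by ring
        _ ≤ _ := h1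
    exact le_of_mul_le_mul_right h6 h5
  refine ⟨hC, ?_⟩
  have h1 := bigw_union W w hw1 K fun k hk => mem_range.1 (hK hk)
  have h2 : ∑ i ∈ K.biUnion W.B, w i ≤ X :=
    sum_le_sum_of_subset_of_nonneg (subset_univ _) fun i _ _ => hw0 i
  have h3 : (K.card : ℝ) ^ 2 ≤ (2 / δ ^ 2) ^ 2 := pow_le_pow_left₀ (Nat.cast_nonneg _) hC 2
  linarith

end Pool.Agent.Helper8.PW
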