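import Pool.Agent.Helper8.PL.Ineq

/-! Project PW, piece KerN: the kernel `sin² - a (sin²)^n` and the vertices. -/

namespace Pool.Agent.Helper8.PW

open Pool.Agent.Helper8.PL Finset

theorem kern_int_tendsto : Filter.Tendsto (fun n : ℕ => ∫ x in (0 : ℝ)..1, (1 - x ^ 2) ^ n)
    Filter.atTop (nhds 0) := by
  have h := intervalIntegral.tendsto_integral_filter_of_dominated_convergence
    (μ := MeasureTheory.volume) (a := (0 : ℝ)) (b := 1) (l := Filter.atTop)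
    (F := fun (n : ℕ) (x : ℝ) => (1 - x ^ 2) ^ n) (f := fun _ => (0 : ℝ)) (fun _ => (1 : ℝ))
    ?_ ?_ ?_ ?_
  · simpa using h
  · filter_upwards with n
    exact (by fun_prop : Continuous fun x : ℝ => (1 - x ^ 2) ^ n).aestronglyMeasurable
  · filter_upwards with n
    filter_upwards with x hx
    rw [Set.uIoc_of_le zero_le_one] at hx
    have h1 : x ^ 2 ≤ 1 := by nlinarith [hx.1, hx.2]
    have h2 : 0 ≤ x ^ 2 := sq_nonneg x
    rw [norm_pow, Real.norm_eq_abs, abs_of_nonneg (by linarith)]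
    exact pow_le_one₀ (by linarith) (by linarith)
  · exact intervalIntegrable_const
  · filter_upwards with x hx
    rw [Set.uIoc_of_le zero_le_one] at hx
    have h1 : x ^ 2 ≤ 1 := by nlinarith [hx.1, hx.2]
    have h2 : 0 < x ^ 2 := by have := hx.1; positivity
    exact tendsto_pow_atTop_nhds_zero_of_lt_one (by linarith) (by linarith)

/-- The kernel inequality: `ineq_hK` of PL/Ineq.lean with the polynomial `p = -(1 - X) ^ n`
(`Polynomial`), for which `p.eval (cos ^ 2) = -(sin ^ 2) ^ n`; the integral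
`∫ (1 - x ^ 2) ^ n` over `[0, 1]` tends to zero. -/
theorem kern_exists {η : ℝ} (hη : 0 < η) : ∃ (n : ℕ) (a : ℝ), 1 ≤ n ∧ 0 < a ∧ a * n ≤ 1 ∧
    ∀ (m : ℕ) (v : ℕ → ℝ × ℝ), ∃ θ : ℕ → ℝ,
      (2 / 3 - a * η) * ∑ c ∈ range m, ∑ c' ∈ range m, |wd (v c) (v c')| ≤
        ∑ c ∈ range m, ∑ c' ∈ range m, |wd (v c) (v c')| *
          (Real.sin (θ c - θ c') ^ 2 - a * (Real.sin (θ c - θ c') ^ 2) ^ n) := by
  have h1 := kern_int_tendsto.eventually (gt_mem_nhds hη)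
  obtain ⟨n, hn1, hn⟩ := (h1.and (Filter.eventually_ge_atTop 1)).exists
  obtain ⟨a₀, ha₀, H⟩ := ineq_hK (-(1 - Polynomial.X) ^ n)
  have hn0 : (0 : ℝ) < n := by exact_mod_cast hn
  refine ⟨n, min a₀ (1 / n), hn, lt_min ha₀ (by positivity), ?_, ?_⟩
  · calc min a₀ (1 / (n : ℝ)) * n ≤ 1 / n * n := by
          apply mul_le_mul_of_nonneg_right (min_le_right _ _) hn0.le
      _ = 1 := by field_simp
  · intro m v
    have ha0 : 0 < min a₀ (1 / (n : ℝ)) := lt_min ha₀ (by positivity)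
    obtain ⟨θ, hθ⟩ := H (min a₀ (1 / n)) ha0.le (min_le_left _ _) m v
    refine ⟨θ, ?_⟩
    have e1 : ∫ x in (0 : ℝ)..1, (-(1 - Polynomial.X) ^ n : Polynomial ℝ).eval (x ^ 2) =
        - ∫ x in (0 : ℝ)..1, (1 - x ^ 2) ^ n := by
      rw [← intervalIntegral.integral_neg]
      congr 1
      funext x
      simp
    rw [e1] at hθ
    have hS : 0 ≤ ∑ c ∈ range m, ∑ c' ∈ range m, |wd (v c) (v c')| :=
      Finset.sum_nonneg fun _ _ => Finset.sum_nonneg fun _ _ => abs_nonneg _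
    have e2 : (2 / 3 - min a₀ (1 / (n : ℝ)) * η) *
        ∑ c ∈ range m, ∑ c' ∈ range m, |wd (v c) (v c')| ≤
        (2 / 3 + min a₀ (1 / (n : ℝ)) * -∫ x in (0 : ℝ)..1, (1 - x ^ 2) ^ n) *
        ∑ c ∈ range m, ∑ c' ∈ range m, |wd (v c) (v c')| := by
      apply mul_le_mul_of_nonneg_right _ hS
      have := mul_le_mul_of_nonneg_left hn1.le ha0.le
      linarith
    refine e2.trans (hθ.trans (le_of_eq ?_))
    refine Finset.sum_congr rfl fun c _ => Finset.sum_congr rfl fun c' _ => ?_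
    have e3 : 1 - Real.cos (θ c - θ c') ^ 2 = Real.sin (θ c - θ c') ^ 2 := by
      rw [Real.sin_sq]
    simp only [Polynomial.eval_neg, Polynomial.eval_pow, Polynomial.eval_sub,
      Polynomial.eval_one, Polynomial.eval_X, e3]
    ring

theorem kern_bdd (n : ℕ) {a : ℝ} (ha : 0 ≤ a) (ha1 : a ≤ 1) (x : ℝ) :
    |Real.sin x ^ 2 - a * (Real.sin x ^ 2) ^ n| ≤ 2 := by
  have h1 : 0 ≤ Real.sin x ^ 2 := sq_nonneg _
  have h2 : Real.sin x ^ 2 ≤ 1 := Real.sin_sq_le_one x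
  have h3 : 0 ≤ (Real.sin x ^ 2) ^ n := pow_nonneg h1 n
  have h4 : (Real.sin x ^ 2) ^ n ≤ 1 := pow_le_one₀ h1 h2
  have h5 : 0 ≤ a * (Real.sin x ^ 2) ^ n := mul_nonneg ha h3
  have h6 : a * (Real.sin x ^ 2) ^ n ≤ 1 := mul_le_one₀ ha1 h3 h4
  rw [abs_le]
  constructor <;> linarith

/-- `∑_{i ≠ j} w i w j sin² (θ i - θ j) = (S² - |∑ w i exp (2 i θ)|²) / 2 ≤ S² / 2`. -/
theorem kern_vertex {ι : Type*} [DecidableEq ι] (B : Finset ι) (w θ : ι → ℝ)
    (hw : ∀ i ∈ B, 0 ≤ w i) (n : ℕ) {a : ℝ} (ha : 0 ≤ a) :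
    3 / 2 * ∑ i ∈ B, ∑ j ∈ B.erase i, w i * w j *
      (Real.sin (θ i - θ j) ^ 2 - a * (Real.sin (θ i - θ j) ^ 2) ^ n) ≤
      3 / 4 * (∑ i ∈ B, w i) ^ 2 := by
  have h1 : ∑ i ∈ B, ∑ j ∈ B.erase i, w i * w j *
      (Real.sin (θ i - θ j) ^ 2 - a * (Real.sin (θ i - θ j) ^ 2) ^ n) ≤
      ∑ i ∈ B, ∑ j ∈ B, w i * w j * Real.sin (θ i - θ j) ^ 2 := by
    refine Finset.sum_le_sum fun i hi => ?_
    calc ∑ j ∈ B.erase i, w i * w j *
        (Real.sin (θ i - θ j) ^ 2 - a * (Real.sin (θ i - θ j) ^ 2) ^ n) ≤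
        ∑ j ∈ B.erase i, w i * w j * Real.sin (θ i - θ j) ^ 2 := by
          refine Finset.sum_le_sum fun j hj => ?_
          apply mul_le_mul_of_nonneg_left _ (mul_nonneg (hw i hi) (hw j (mem_of_mem_erase hj)))
          have : 0 ≤ a * (Real.sin (θ i - θ j) ^ 2) ^ n := by positivity
          linarith
      _ ≤ ∑ j ∈ B, w i * w j * Real.sin (θ i - θ j) ^ 2 := by
          refine Finset.sum_le_sum_of_subset_of_nonneg (erase_subset _ _) fun j hj _ => ?_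
          exact mul_nonneg (mul_nonneg (hw i hi) (hw j hj)) (sq_nonneg _)
  have h2 : ∑ i ∈ B, ∑ j ∈ B, w i * w j * Real.sin (θ i - θ j) ^ 2 =
      1 / 2 * ((∑ i ∈ B, w i) ^ 2 - (∑ i ∈ B, w i * Real.cos (2 * θ i)) ^ 2 -
        (∑ i ∈ B, w i * Real.sin (2 * θ i)) ^ 2) := by
    rw [sq, sq, sq, Finset.sum_mul_sum, Finset.sum_mul_sum, Finset.sum_mul_sum,
      ← Finset.sum_sub_distrib, ← Finset.sum_sub_distrib, Finset.mul_sum]
    refine Finset.sum_congr rfl fun i _ => ?_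
    rw [← Finset.sum_sub_distrib, ← Finset.sum_sub_distrib, Finset.mul_sum]
    refine Finset.sum_congr rfl fun j _ => ?_
    have e1 : Real.sin (θ i - θ j) ^ 2 = 1 / 2 - Real.cos (2 * (θ i - θ j)) / 2 := by
      rw [Real.cos_two_mul, Real.cos_sq']
      ring
    have e2 : Real.cos (2 * (θ i - θ j)) = Real.cos (2 * θ i) * Real.cos (2 * θ j) +
        Real.sin (2 * θ i) * Real.sin (2 * θ j) := by
      rw [mul_sub, Real.cos_sub]
    rw [e1, e2]
    ring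
  have h3 := sq_nonneg (∑ i ∈ B, w i * Real.cos (2 * θ i))
  have h4 := sq_nonneg (∑ i ∈ B, w i * Real.sin (2 * θ i))
  rw [h2] at h1
  linarith

/-- `y - a y ^ n ≤ 1 - a` for `0 ≤ y ≤ 1`, because `1 - y ^ n ≤ n (1 - y)`. -/
theorem kern_double {ι : Type*} [DecidableEq ι] (B : Finset ι) (w θ : ι → ℝ)
    (hw : ∀ i ∈ B, 0 ≤ w i) (hB : B.card = 2) (n : ℕ) {a : ℝ} (ha : 0 ≤ a) (ha1 : a * n ≤ 1) :
    3 / 2 * ∑ i ∈ B, ∑ j ∈ B.erase i, w i * w j *
      (Real.sin (θ i - θ j) ^ 2 - a * (Real.sin (θ i - θ j) ^ 2) ^ n) ≤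
      3 * (1 - a) * ∏ i ∈ B, w i := by
  obtain ⟨x, y, hxy, rfl⟩ := Finset.card_eq_two.1 hB
  have ex : ({x, y} : Finset ι).erase x = {y} := by
    ext z
    simp only [mem_erase, mem_insert, mem_singleton]
    constructor
    · rintro ⟨h1, h2 | h2⟩
      · exact absurd h2 h1
      · exact h2
    · rintro rfl
      exact ⟨hxy.symm, Or.inr rfl⟩
  have ey : ({x, y} : Finset ι).erase y = {x} := by
    ext z
    simp only [mem_erase, mem_insert, mem_singleton]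
    constructor
    · rintro ⟨h1, h2 | h2⟩
      · exact h2
      · exact absurd h2 h1
    · rintro rfl
      exact ⟨hxy, Or.inl rfl⟩
  rw [Finset.sum_pair hxy, Finset.prod_pair hxy, ex, ey, Finset.sum_singleton,
    Finset.sum_singleton]
  have e1 : Real.sin (θ y - θ x) ^ 2 = Real.sin (θ x - θ y) ^ 2 := by
    rw [← neg_sub (θ x) (θ y), Real.sin_neg, neg_sq]
  rw [e1]
  set s := Real.sin (θ x - θ y) ^ 2 with hs
  have hs0 : 0 ≤ s := sq_nonneg _
  have hs1 : s ≤ 1 := Real.sin_sq_le_one _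
  have h1 : 1 + n * (s - 1) ≤ s ^ n := by
    have := one_add_mul_le_pow (a := s - 1) (by linarith) n
    simpa using this
  have h2 : s - a * s ^ n ≤ 1 - a := by
    have h3 := mul_le_mul_of_nonneg_left h1 ha
    have h4 : a * n * (1 - s) ≤ 1 * (1 - s) := mul_le_mul_of_nonneg_right ha1 (by linarith)
    nlinarith
  have hx := hw x (by simp)
  have hy := hw y (by simp)
  have h5 := mul_le_mul_of_nonneg_left h2 (mul_nonneg hx hy)
  nlinarith

end Pool.Agent.Helper8.PW
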