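import Pool.Agent.Helper8.PL.Pair

/-! Project PW, piece Mel: Melchior's inequality for wiring diagrams (weak form). -/

namespace Pool.Agent.Helper8.PW

open Pool.Agent.Helper8.PL Finset

private lemma mel_core {d : ℕ} (W : Wiring d) {l k g : ℕ} (hlk : l < k) (hk : k < W.M)
    (h1 : W.lo l < g) (h2 : g < W.hi l) (h3 : W.lo k < g) (h4 : g < W.hi k)
    (h5 : ∀ m, l < m → m < k → (g < W.lo m ∨ W.hi m < g)) : False := by
  have hl : l < W.M := by omega
  have hled := W.le_d l hl
  obtain ⟨a, ha⟩ := pos_surj W (k := l + 1) (by omega) (x := g - 1) (by omega)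
  obtain ⟨b, hb⟩ := pos_surj W (k := l + 1) (by omega) (x := g) (by omega)
  have key : ∀ m, l + 1 ≤ m → m ≤ k → W.pos m a = g - 1 ∧ W.pos m b = g := by
    intro m hm
    induction m, hm using Nat.le_induction with
    | base =>
      intro _
      exact ⟨ha, hb⟩
    | succ m hm ih =>
      intro hmk
      obtain ⟨i1, i2⟩ := ih (by omega)
      have h6 := h5 m (by omega) (by omega)
      exact ⟨(W.fixed m (by omega) a (by omega)).trans i1,
        (W.fixed m (by omega) b (by omega)).trans i2⟩
  obtain ⟨ka, kb⟩ := key k (by omega) le_rfl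
  have hab : a < b := W.sorted k hk a b (by omega) (by omega) (by omega)
  have h7 : W.lo l ≤ W.pos l b ∧ W.pos l b < W.pos l a ∧ W.pos l a < W.hi l := by
    rcases basic_step W hl a with ⟨h6, h7⟩ | ⟨h6, h7⟩ <;>
      rcases basic_step W hl b with ⟨h8, h9⟩ | ⟨h8, h9⟩ <;> omega
  exact absurd (W.sorted l hl b a h7.1 h7.2.1 h7.2.2) (not_lt.2 hab.le)

private lemma mel_alt {d : ℕ} (W : Wiring d) {k g : ℕ} (hk : k < W.M)
    (h3 : W.lo k < g) (h4 : g < W.hi k) :
    (∀ l < k, ¬ (W.lo l < g ∧ g < W.hi l)) ∨
      ∃ i < k, (W.lo i = g ∨ W.hi i = g) ∧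
        ∀ m, i ≤ m → m < k → ¬ (W.lo m < g ∧ g < W.hi m) := by
  classical
  by_cases h : ∃ l < k, W.lo l < g ∧ g < W.hi l
  · right
    obtain ⟨l, hl, hmax⟩ := Finset.exists_max_image
      ((range k).filter fun l => W.lo l < g ∧ g < W.hi l) id (by
        obtain ⟨l, hl, hl'⟩ := h
        exact ⟨l, mem_filter.2 ⟨mem_range.2 hl, hl'⟩⟩)
    rw [mem_filter, mem_range] at hl
    have hlast : ∀ m, l < m → m < k → ¬ (W.lo m < g ∧ g < W.hi m) := by
      intro m hm hmk hc
      have := hmax m (mem_filter.2 ⟨mem_range.2 hmk, hc⟩)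
      simp only [id] at this
      omega
    have hex : ∃ m, l < m ∧ m < k ∧ ¬ (g < W.lo m ∨ W.hi m < g) := by
      by_contra hno
      push Not at hno
      refine mel_core W hl.1 hk hl.2.1 hl.2.2 h3 h4 fun m hm hmk => ?_
      by_contra hc
      push Not at hc
      have := hno m hm hmk
      omega
    obtain ⟨m, hm, hmk, hm'⟩ := hex
    have hm'' := hlast m hm hmk
    refine ⟨m, hmk, by omega, fun m' h1 h2 => hlast m' (by omega) h2⟩
  · left
    push Not at h
    intro l hl hc
    have := h l hl hc.1
    omega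

/-- Weak form of Melchior's inequality. Proof: call `(k, g)` with `k < M` and `lo k < g < hi k` a
closed gap (the face below the vertex `k` ends there, `g` is the height of the gap between the
positions `g - 1` and `g`). There are `∑ (mult k - 1)` closed gaps. For every `g` with
`1 ≤ g ≤ d - 1` at most one closed gap `(k, g)` is the first one, so `∑ (mult k - 1) - (d - 1)`
is at most the number of closed gaps `(k, g)` for which there is an `l < k` with
`lo l < g < hi l`; take the last such `l`. Between `l` and `k` there must be a vertex `i`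
(`l < i < k`) with `lo i = g` or `hi i = g`: otherwise the lines at the positions `g - 1` and `g`
after the vertex `l` stay there up to the vertex `k` (a vertex `i` with `l < i < k` has `hi i < g`
or `g < lo i`, it does not move the positions `g - 1` and `g`), they have crossed in the vertex
`l` (`sorted`, `flip`) and cross again in the vertex `k`, a contradiction (`inv_mono`,
`sorted`). Let `i` be the last vertex of this kind. The map `(k, g) -> (i, lo i = g or hi i = g)`
is injective (the gap `g` is determined by `i` and the bit, and `k` is the first vertex after `i`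
with `lo k < g < hi k`). So `∑ (mult k - 1) - (d - 1) ≤ 2 M`. -/
theorem melchior {d : ℕ} (W : Wiring d) (hd : 1 ≤ d) :
    ∑ k ∈ range W.M, ((W.mult k : ℝ) - 3) ≤ d - 1 := by
  classical
  set G : Finset (Σ _ : ℕ, ℕ) :=
    (range W.M).sigma fun k => Finset.Ioo (W.lo k) (W.hi k) with hG
  set T : Finset (ℕ ⊕ (ℕ × Bool)) :=
    (Finset.Ico 1 d).disjSum ((range W.M) ×ˢ (univ : Finset Bool)) with hT
  have hGc : (G.card : ℝ) = ∑ k ∈ range W.M, ((W.mult k : ℝ) - 1) := by
    rw [hG, card_sigma]
    push_cast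
    refine Finset.sum_congr rfl fun k hk => ?_
    rw [mem_range] at hk
    have h1 := W.two_le k hk
    rw [Nat.card_Ioo]
    unfold Wiring.mult
    rw [Nat.cast_sub (by omega)]
    norm_num
  have hTc : (T.card : ℝ) = (d - 1 : ℝ) + 2 * W.M := by
    rw [hT, card_disjSum, Nat.card_Ico, card_product, card_range, Finset.card_univ,
      Fintype.card_bool]
    push_cast [Nat.cast_sub hd]
    ring
  let r : (Σ _ : ℕ, ℕ) → (ℕ ⊕ (ℕ × Bool)) → Prop := fun p t =>
    match t with
    | Sum.inl g => g = p.2 ∧ ∀ l < p.1, ¬ (W.lo l < p.2 ∧ p.2 < W.hi l)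
    | Sum.inr x => x.1 < p.1 ∧ p.2 = (if x.2 = true then W.lo x.1 else W.hi x.1) ∧
        ∀ m, x.1 ≤ m → m < p.1 → ¬ (W.lo m < p.2 ∧ p.2 < W.hi m)
  have hle : G.card ≤ T.card := by
    refine Finset.card_le_card_of_forall_subsingleton r ?_ ?_
    · rintro ⟨k, g⟩ hkg
      rw [hG, mem_sigma, mem_range, mem_Ioo] at hkg
      obtain ⟨hk, h3, h4⟩ := hkg
      simp only at hk h3 h4
      have hled := W.le_d k hk
      rcases mel_alt W hk h3 h4 with h | ⟨i, hi, hi', hlast⟩
      · refine ⟨Sum.inl g, ?_, rfl, h⟩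
        rw [hT, inl_mem_disjSum, mem_Ico]
        omega
      · rcases hi' with hi' | hi'
        · refine ⟨Sum.inr (i, true), ?_, hi, ?_, hlast⟩
          · rw [hT, inr_mem_disjSum, mem_product, mem_range]
            exact ⟨by simp only; omega, mem_univ _⟩
          · rw [if_pos rfl]
            exact hi'.symm
        · refine ⟨Sum.inr (i, false), ?_, hi, ?_, hlast⟩
          · rw [hT, inr_mem_disjSum, mem_product, mem_range]
            exact ⟨by simp only; omega, mem_univ _⟩
          · rw [if_neg (by simp)]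
            exact hi'.symm
    · rintro t -
      rintro ⟨k, g⟩ ⟨hkg, hr⟩ ⟨k', g'⟩ ⟨hkg', hr'⟩
      rw [hG, mem_sigma, mem_range, mem_Ioo] at hkg hkg'
      simp only at hkg hkg'
      rcases t with g₀ | ⟨i, b⟩
      · obtain ⟨e1, e2⟩ := hr
        obtain ⟨e3, e4⟩ := hr'
        simp only at e1 e2 e3 e4
        have hg : g = g' := by omega
        subst hg
        have hk : k = k' := by
          rcases lt_trichotomy k k' with h | h | h
          · exact absurd ⟨hkg.2.1, hkg.2.2⟩ (e4 k h)
          · exact h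
          · exact absurd ⟨hkg'.2.1, hkg'.2.2⟩ (e2 k' h)
        rw [hk]
      · obtain ⟨e1, e2, e3⟩ := hr
        obtain ⟨e4, e5, e6⟩ := hr'
        simp only at e1 e2 e3 e4 e5 e6
        have hg : g = g' := e2.trans e5.symm
        subst hg
        have hk : k = k' := by
          rcases lt_trichotomy k k' with h | h | h
          · exact absurd ⟨hkg.2.1, hkg.2.2⟩ (e6 k e1.le h)
          · exact h
          · exact absurd ⟨hkg'.2.1, hkg'.2.2⟩ (e3 k' e4.le h)
        rw [hk]
  have h1 : (G.card : ℝ) ≤ T.card := by exact_mod_cast hle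
  rw [hGc, hTc] at h1
  have h2 : ∑ k ∈ range W.M, ((W.mult k : ℝ) - 3) =
      ∑ k ∈ range W.M, ((W.mult k : ℝ) - 1) - 2 * W.M := by
    have : ∀ k ∈ range W.M, ((W.mult k : ℝ) - 3) = ((W.mult k : ℝ) - 1) - 2 := fun k _ => by ring
    rw [Finset.sum_congr rfl this, Finset.sum_sub_distrib, Finset.sum_const, card_range,
      nsmul_eq_mul]
    ring
  rw [h2]
  linarith

end Pool.Agent.Helper8.PW
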