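import Pool.Agent.Helper8.PL.Pair

/-! Project PW: real weights. -/

namespace Pool.Agent.Helper8.PW

open Pool.Agent.Helper8.PL Finset

variable {d : ℕ} (W : Wiring d) (w : Fin d → ℝ)

/-- the sum of the weights of the lines through the vertex `k` -/
noncomputable def SS (k : ℕ) : ℝ := ∑ i ∈ W.B k, w i

/-- the pairs of lines through the vertex `k` -/
noncomputable def UU (k : ℕ) : ℝ := ∑ i ∈ W.B k, ∑ j ∈ (W.B k).erase i, w i * w j

end Pool.Agent.Helper8.PW
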