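import Pool.Agent.Helper8.PL.Chern
import Pool.Agent.Helper8.PW.RDefs

/-! Project PW, piece Pen: arrangements with a vertex of weight more than one half. -/

namespace Pool.Agent.Helper8.PW

open Pool.Agent.Helper8.PL Finset

/-- the weight of the lines of `B` in `A` -/
private noncomputable def pen_x {d : ℕ} (w : Fin d → ℝ) (A B : Finset (Fin d)) : ℝ :=
  ∑ i ∈ B, if i ∈ A then w i else 0

/-- the weight of the lines of `B` outside of `A` -/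
private noncomputable def pen_y {d : ℕ} (w : Fin d → ℝ) (A B : Finset (Fin d)) : ℝ :=
  ∑ i ∈ B, if i ∈ A then 0 else w i

/-- the pairs -/
private noncomputable def pen_f {d : ℕ} (w : Fin d → ℝ) (A : Finset (Fin d)) (i j : Fin d) : ℝ :=
  (if i ∈ A then w i else 0) * (if j ∈ A then 0 else w j)

private lemma pen_add {d : ℕ} (w : Fin d → ℝ) (A B : Finset (Fin d)) :
    pen_x w A B + pen_y w A B = ∑ i ∈ B, w i := by
  unfold pen_x pen_y
  rw [← sum_add_distrib]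
  refine sum_congr rfl fun i _ => ?_
  split_ifs <;> simp

private lemma pen_mul {d : ℕ} (w : Fin d → ℝ) (A B : Finset (Fin d)) :
    ∑ i ∈ B, ∑ j ∈ B.erase i, pen_f w A i j = pen_x w A B * pen_y w A B := by
  unfold pen_x pen_y
  rw [sum_mul_sum]
  refine sum_congr rfl fun i _ => ?_
  rw [sum_erase]
  · rfl
  · unfold pen_f
    split_ifs <;> simp

private lemma pen_x_nonneg {d : ℕ} {w : Fin d → ℝ} (hw0 : ∀ i, 0 ≤ w i) (A B : Finset (Fin d)) :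
    0 ≤ pen_x w A B := by
  refine sum_nonneg fun i _ => ?_
  split_ifs
  · exact hw0 i
  · exact le_rfl

private lemma pen_y_nonneg {d : ℕ} {w : Fin d → ℝ} (hw0 : ∀ i, 0 ≤ w i) (A B : Finset (Fin d)) :
    0 ≤ pen_y w A B := by
  refine sum_nonneg fun i _ => ?_
  split_ifs
  · exact le_rfl
  · exact hw0 i

private lemma pen_self {d : ℕ} (w : Fin d → ℝ) (A : Finset (Fin d)) :
    pen_y w A A = 0 := by
  refine sum_eq_zero fun i hi => ?_
  rw [if_pos hi]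

private lemma pen_univ {d : ℕ} (w : Fin d → ℝ) (A : Finset (Fin d)) :
    pen_x w A univ = ∑ i ∈ A, w i := by
  unfold pen_x
  rw [sum_ite_mem, univ_inter]

private lemma pen_pair {d : ℕ} {w : Fin d → ℝ} (hw0 : ∀ i, 0 ≤ w i) (A : Finset (Fin d))
    {i j : Fin d} (hij : i ≠ j) :
    pen_x w A {i, j} * pen_y w A {i, j} ≤ w i * w j := by
  unfold pen_x pen_y
  rw [sum_pair hij, sum_pair hij]
  have h1 := mul_nonneg (hw0 i) (hw0 j)
  split_ifs <;> simp <;> nlinarith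

/-- Proof. Let `S = SS k₀`, `a = X - S` and write `T k` for the terms of `chern_diff`
(PL/Chern.lean): `3 c2 - c1sq = -X ^ 2 + ∑ T k`. For `k₀`: `T = 3/4 S² + (z - 2 + S/2)² ≥
S² - 2 S + 4` as `z ≥ 0` and `S ≥ 4`. For `k ≠ k₀` let `x` be the sum of `w i` over
`B k ∩ B k₀` and `y` the sum over `B k \ B k₀`; then `T k ≥ 3 x y` (`3/4 (x + y)² ≥ 3 x y`; if
`k ∉ Bl` then `mult k = 2` and `T k = 3 w i w j ≥ 3 x y` in the three cases). By `pair_sum`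
(PL/Pair.lean) with `f i j = if i ∈ B k₀ and j ∉ B k₀ then w i w j else 0` the sum of `x y` over
`k ≠ k₀` is `S a`. So `3 c2 - c1sq ≥ -(S + a)² + S² - 2 S + 4 + 3 S a = (a - 2) (S - a - 2)`. -/
theorem pencil {d : ℕ} (W : Wiring d) (w : Fin d → ℝ) (z : ℕ → ℝ) (Bl : Finset ℕ)
    (hBl : Bl ⊆ range W.M) (h2 : ∀ k < W.M, k ∉ Bl → W.mult k = 2) (hw0 : ∀ i, 0 ≤ w i)
    {k₀ : ℕ} (hk₀ : k₀ ∈ Bl) (hz : 0 ≤ z k₀) (hS : 4 ≤ SS W w k₀) :
    (∑ i, w i - SS W w k₀ - 2) * (2 * SS W w k₀ - ∑ i, w i - 2) ≤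
      3 * c2 W w z Bl - c1sq W w z Bl := by
  have hS' : SS W w k₀ = ∑ i ∈ W.B k₀, w i := rfl
  obtain ⟨S, hSS⟩ : ∃ S : ℝ, S = SS W w k₀ := ⟨_, rfl⟩
  obtain ⟨X, hX⟩ : ∃ X : ℝ, X = ∑ i, w i := ⟨_, rfl⟩
  rw [chern_diff W w z Bl hBl h2]
  -- the pairs
  have h3 : ∑ k ∈ range W.M, pen_x w (W.B k₀) (W.B k) * pen_y w (W.B k₀) (W.B k) =
      S * (X - S) := by
    have e1 := pair_sum W (pen_f w (W.B k₀))
    rw [pen_mul, pen_univ] at e1
    have e2 : ∑ k ∈ range W.M, ∑ i ∈ W.B k, ∑ j ∈ (W.B k).erase i, pen_f w (W.B k₀) i j =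
        ∑ k ∈ range W.M, pen_x w (W.B k₀) (W.B k) * pen_y w (W.B k₀) (W.B k) :=
      sum_congr rfl fun k _ => pen_mul w _ _
    rw [e2] at e1
    rw [e1]
    have e3 := pen_add w (W.B k₀) univ
    rw [pen_univ, ← hX, ← hS', ← hSS] at e3
    rw [← hS', ← hSS]
    rw [show pen_y w (W.B k₀) univ = X - S by linarith]
  -- the vertices that are not blown up
  have h4 : ∑ k ∈ range W.M \ Bl, 3 * (pen_x w (W.B k₀) (W.B k) * pen_y w (W.B k₀) (W.B k)) ≤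
      ∑ k ∈ range W.M \ Bl, 3 * ∏ i ∈ W.B k, w i := by
    refine sum_le_sum fun k hk => ?_
    rw [mem_sdiff, mem_range] at hk
    have e1 := h2 k hk.1 hk.2
    obtain ⟨i, j, hij, hB⟩ := Finset.card_eq_two.1 ((card_B W hk.1).trans e1)
    rw [hB, prod_pair hij]
    exact mul_le_mul_of_nonneg_left (pen_pair hw0 _ hij) (by norm_num)
  -- the other vertices
  have h5 : ∑ k ∈ Bl.erase k₀,
      3 * (pen_x w (W.B k₀) (W.B k) * pen_y w (W.B k₀) (W.B k)) ≤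
      ∑ k ∈ Bl.erase k₀, (3 / 4 * (∑ i ∈ W.B k, w i) ^ 2 +
        (z k - 2 + (∑ i ∈ W.B k, w i) / 2) ^ 2) := by
    refine sum_le_sum fun k _ => ?_
    rw [← pen_add w (W.B k₀) (W.B k)]
    nlinarith [sq_nonneg (pen_x w (W.B k₀) (W.B k) - pen_y w (W.B k₀) (W.B k)),
      sq_nonneg (z k - 2 + (pen_x w (W.B k₀) (W.B k) + pen_y w (W.B k₀) (W.B k)) / 2)]
  have h6 : S ^ 2 - 2 * S + 4 ≤ 3 / 4 * (∑ i ∈ W.B k₀, w i) ^ 2 +
      (z k₀ - 2 + (∑ i ∈ W.B k₀, w i) / 2) ^ 2 := by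
    rw [← hS', ← hSS]
    rw [← hSS] at hS
    have e1 : 0 ≤ S / 2 - 2 := by linarith
    have e2 : S / 2 - 2 ≤ z k₀ - 2 + S / 2 := by linarith
    have e3 := pow_le_pow_left₀ e1 e2 2
    nlinarith
  have h7 : 3 * (pen_x w (W.B k₀) (W.B k₀) * pen_y w (W.B k₀) (W.B k₀)) = 0 := by
    rw [pen_self]
    ring
  have h8 := sum_sdiff hBl
    (f := fun k => 3 * (pen_x w (W.B k₀) (W.B k) * pen_y w (W.B k₀) (W.B k)))
  have h9 := add_sum_erase Bl
    (fun k => 3 * (pen_x w (W.B k₀) (W.B k) * pen_y w (W.B k₀) (W.B k))) hk₀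
  have h10 := add_sum_erase Bl (fun k => 3 / 4 * (∑ i ∈ W.B k, w i) ^ 2 +
        (z k - 2 + (∑ i ∈ W.B k, w i) / 2) ^ 2) hk₀
  rw [← mul_sum, ← mul_sum, ← mul_sum, h3] at h8
  rw [← mul_sum] at h4
  rw [← mul_sum] at h5
  rw [← mul_sum, ← mul_sum, h7] at h9
  rw [← hX, ← hSS, ← h10]
  nlinarith

end Pool.Agent.Helper8.PW
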