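import Pool.Agent.Helper8.PW.KReal
import Pool.Agent.Helper8.PW.KerN
import Pool.Agent.Helper8.PW.BigW
import Pool.Agent.Helper8.PW.Pen
import Pool.Agent.Helper8.PW.Mel

/-! Project PW: the main inequality for weighted pseudoline arrangements. -/

open Finset

namespace Pool.Agent.Helper8.PW

open Pool.Agent.Helper8.PL

variable {d : ℕ} (W : Wiring d) (w : Fin d → ℝ) (z : ℕ → ℝ) (Bl : Finset ℕ)

/-- the contribution of a vertex to `3 c2 - c1sq` -/
noncomputable def TT (k : ℕ) : ℝ :=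
  if k ∈ Bl then 3 / 4 * SS W w k ^ 2 + (z k - 2 + SS W w k / 2) ^ 2
  else 3 * ∏ i ∈ W.B k, w i

/-- the part with the weight of the exceptional sphere -/
noncomputable def ZZ (k : ℕ) : ℝ := if k ∈ Bl then (z k - 2 + SS W w k / 2) ^ 2 else 0

theorem fin_ZZ (k : ℕ) : 0 ≤ ZZ W w z Bl k := by
  unfold ZZ
  split_ifs
  · exact sq_nonneg _
  · exact le_rfl

theorem fin_sum (hBl : Bl ⊆ range W.M) (h2 : ∀ k < W.M, k ∉ Bl → W.mult k = 2) :
    3 * c2 W w z Bl - c1sq W w z Bl = -(∑ i, w i) ^ 2 + ∑ k ∈ range W.M, TT W w z Bl k := by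
  rw [chern_diff W w z Bl hBl h2, add_assoc]
  congr 1
  rw [← sum_sdiff hBl]
  congr 1
  · refine Finset.sum_congr rfl fun k hk => ?_
    rw [mem_sdiff] at hk
    rw [TT, if_neg hk.2]
  · refine Finset.sum_congr rfl fun k hk => ?_
    rw [TT, if_pos hk]
    rfl

variable {W w z Bl}

theorem fin_S (hw0 : ∀ i, 0 ≤ w i) (k : ℕ) : 0 ≤ SS W w k :=
  Finset.sum_nonneg fun i _ => hw0 i

theorem fin_U (hw0 : ∀ i, 0 ≤ w i) (k : ℕ) : 0 ≤ UU W w k :=
  Finset.sum_nonneg fun i _ => Finset.sum_nonneg fun j _ => mul_nonneg (hw0 i) (hw0 j)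

theorem fin_US (k : ℕ) : UU W w k ≤ SS W w k ^ 2 := by
  rw [UU_eq]
  have : 0 ≤ ∑ i ∈ W.B k, w i ^ 2 := Finset.sum_nonneg fun i _ => sq_nonneg _
  linarith

/-- double points -/
theorem fin_two {k : ℕ} (hk : k < W.M) (hm : W.mult k = 2) :
    UU W w k = 2 * ∏ i ∈ W.B k, w i ∧ 3 * ∏ i ∈ W.B k, w i + ZZ W w z Bl k ≤ TT W w z Bl k := by
  obtain ⟨i, j, hij, hB⟩ := Finset.card_eq_two.1 ((card_B W hk).trans hm)
  have e1 : ({i, j} : Finset (Fin d)).erase i = {j} := by
    rw [erase_insert (by simpa using hij)]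
  have e2 : ({i, j} : Finset (Fin d)).erase j = {i} := by
    rw [pair_comm, erase_insert (by simpa using hij.symm)]
  constructor
  · unfold UU
    rw [hB, sum_pair hij, e1, e2, sum_singleton, sum_singleton, prod_pair hij]
    ring
  · unfold TT ZZ SS
    rw [hB, sum_pair hij, prod_pair hij]
    split_ifs
    · nlinarith [sq_nonneg (w i - w j)]
    · linarith

/-- triple points -/
theorem fin_three {k : ℕ} (hk : k < W.M) (hm : W.mult k = 3) (hB : k ∈ Bl) :
    9 / 8 * UU W w k ≤ TT W w z Bl k := by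
  have h1 := UU_eq W w k
  rw [TT, if_pos hB]
  have h2 : SS W w k ^ 2 ≤ 3 * ∑ i ∈ W.B k, w i ^ 2 := by
    have h3 := sq_sum_le_card_mul_sum_sq (s := W.B k) (f := w)
    rw [card_B W hk, hm] at h3
    exact_mod_cast h3
  have h3 : 0 ≤ (z k - 2 + SS W w k / 2) ^ 2 := sq_nonneg _
  linarith

/-- large vertices -/
theorem fin_big {k : ℕ} (hB : k ∈ Bl) (hz : 0 ≤ z k) (hS : 4 ≤ SS W w k) :
    UU W w k - 2 * SS W w k ≤ TT W w z Bl k := by
  rw [TT, if_pos hB]
  have h1 := fin_US (W := W) (w := w) k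
  have h2 : 0 ≤ z k * (SS W w k - 4) := mul_nonneg hz (by linarith)
  nlinarith [sq_nonneg (z k)]

/-- large vertices: the part with the weight of the exceptional sphere -/
theorem fin_Zbig {k : ℕ} (hB : k ∈ Bl) (hz : 0 ≤ z k) (hS : 16 ≤ SS W w k) :
    UU W w k ≤ 8 * ZZ W w z Bl k := by
  rw [ZZ, if_pos hB]
  have h1 := fin_US (W := W) (w := w) k
  have h2 : 0 ≤ z k * (SS W w k - 4) := mul_nonneg hz (by linarith)
  nlinarith [sq_nonneg (z k)]

theorem fin_T (hw0 : ∀ i, 0 ≤ w i) (k : ℕ) : 0 ≤ TT W w z Bl k := by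
  unfold TT
  split_ifs
  · positivity
  · have : 0 ≤ ∏ i ∈ W.B k, w i := Finset.prod_nonneg fun i _ => hw0 i
    linarith

/-- all vertices and the kernel -/
theorem fin_ker (hw0 : ∀ i, 0 ≤ w i) (h2 : ∀ k < W.M, k ∉ Bl → W.mult k = 2) {k : ℕ}
    (hk : k < W.M) (θ : Fin d → ℝ) (n : ℕ) {a : ℝ} (ha : 0 ≤ a) (ha1 : a * n ≤ 1) :
    3 / 2 * ∑ i ∈ W.B k, ∑ j ∈ (W.B k).erase i, w i * w j *
      (Real.sin (θ i - θ j) ^ 2 - a * (Real.sin (θ i - θ j) ^ 2) ^ n) +
      (if W.mult k = 2 then 3 / 2 * a * UU W w k else 0) + ZZ W w z Bl k ≤ TT W w z Bl k := by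
  split_ifs with h
  · obtain ⟨h3, h4⟩ := fin_two (w := w) (z := z) (Bl := Bl) hk h
    have h5 := kern_double (W.B k) w θ (fun i _ => hw0 i) ((card_B W hk).trans h) n ha ha1
    rw [h3]
    linarith
  · have hB : k ∈ Bl := by
      by_contra hcon
      exact h (h2 k hk hcon)
    have h5 := kern_vertex (W.B k) w θ (fun i _ => hw0 i) n ha
    rw [ZZ, TT, if_pos hB, if_pos hB]
    have h6 : ∑ i ∈ W.B k, w i = SS W w k := rfl
    rw [h6] at h5
    linarith

/-- Melchior's inequality: few vertices of multiplicity at least four. -/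
theorem fin_mel (hd : 1 ≤ d) :
    (((range W.M).filter fun k => 4 ≤ W.mult k).card : ℝ) ≤
      ((range W.M).filter fun k => W.mult k = 2).card + d := by
  have h1 := melchior W hd
  have h2 : ∀ k ∈ range W.M, (if 4 ≤ W.mult k then (1 : ℝ) else 0) -
      (if W.mult k = 2 then (1 : ℝ) else 0) ≤ (W.mult k : ℝ) - 3 := by
    intro k hk
    have h3 : 2 ≤ W.mult k := by
      have := W.two_le k (mem_range.1 hk)
      unfold Wiring.mult
      omega
    rcases (by omega : W.mult k = 2 ∨ W.mult k = 3 ∨ 4 ≤ W.mult k) with h | h | h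
    · rw [if_neg (by omega), if_pos h, h]
      norm_num
    · rw [if_neg (by omega), if_neg (by omega), h]
      norm_num
    · rw [if_pos h, if_neg (by omega)]
      have : (4 : ℝ) ≤ W.mult k := by exact_mod_cast h
      linarith
  have h3 := Finset.sum_le_sum h2
  rw [sum_sub_distrib, sum_boole, sum_boole] at h3
  linarith

end Pool.Agent.Helper8.PW
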