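import Pool.Agent.Helper8.PL.Chern
import Pool.Agent.Helper8.PW.RDefs

/-! Project PW: the sharp inequality for arrangements with a vertex of large weight. -/

namespace Pool.Agent.Helper8.PW

open Pool.Agent.Helper8.PL Finset

/-- the weight of the lines of `B` in `A` -/
private noncomputable def penc_x {d : ℕ} (w : Fin d → ℝ) (A B : Finset (Fin d)) : ℝ :=
  ∑ i ∈ B, if i ∈ A then w i else 0

/-- the weight of the lines of `B` outside of `A` -/
private noncomputable def penc_y {d : ℕ} (w : Fin d → ℝ) (A B : Finset (Fin d)) : ℝ :=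
  ∑ i ∈ B, if i ∈ A then 0 else w i

/-- the pairs -/
private noncomputable def penc_f {d : ℕ} (w : Fin d → ℝ) (A : Finset (Fin d)) (i j : Fin d) : ℝ :=
  (if i ∈ A then w i else 0) * (if j ∈ A then 0 else w j)

private lemma penc_add {d : ℕ} (w : Fin d → ℝ) (A B : Finset (Fin d)) :
    penc_x w A B + penc_y w A B = ∑ i ∈ B, w i := by
  unfold penc_x penc_y
  rw [← sum_add_distrib]
  refine sum_congr rfl fun i _ => ?_
  split_ifs <;> simp

private lemma penc_mul {d : ℕ} (w : Fin d → ℝ) (A B : Finset (Fin d)) :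
    ∑ i ∈ B, ∑ j ∈ B.erase i, penc_f w A i j = penc_x w A B * penc_y w A B := by
  unfold penc_x penc_y
  rw [sum_mul_sum]
  refine sum_congr rfl fun i _ => ?_
  rw [sum_erase]
  · rfl
  · unfold penc_f
    split_ifs <;> simp

private lemma penc_x_nonneg {d : ℕ} {w : Fin d → ℝ} (hw0 : ∀ i, 0 ≤ w i) (A B : Finset (Fin d)) :
    0 ≤ penc_x w A B := by
  refine sum_nonneg fun i _ => ?_
  split_ifs
  · exact hw0 i
  · exact le_rfl

private lemma penc_y_nonneg {d : ℕ} {w : Fin d → ℝ} (hw0 : ∀ i, 0 ≤ w i) (A B : Finset (Fin d)) :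
    0 ≤ penc_y w A B := by
  refine sum_nonneg fun i _ => ?_
  split_ifs
  · exact le_rfl
  · exact hw0 i

private lemma penc_self {d : ℕ} (w : Fin d → ℝ) (A : Finset (Fin d)) :
    penc_y w A A = 0 := by
  refine sum_eq_zero fun i hi => ?_
  rw [if_pos hi]

private lemma penc_univ {d : ℕ} (w : Fin d → ℝ) (A : Finset (Fin d)) :
    penc_x w A univ = ∑ i ∈ A, w i := by
  unfold penc_x
  rw [sum_ite_mem, univ_inter]

private lemma penc_pair {d : ℕ} {w : Fin d → ℝ} (hw0 : ∀ i, 0 ≤ w i) (A : Finset (Fin d))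
    {i j : Fin d} (hij : i ≠ j) :
    penc_x w A {i, j} * penc_y w A {i, j} ≤ w i * w j := by
  unfold penc_x penc_y
  rw [sum_pair hij, sum_pair hij]
  have h1 := mul_nonneg (hw0 i) (hw0 j)
  split_ifs <;> simp <;> nlinarith

/-- Let `S = SS k₀`, `a = X - S` and write `T k` for the terms of `chern_diff`
(PL/Chern.lean): `3 c2 - c1sq = -X ^ 2 + ∑ T k`. For `k ≠ k₀` let `x` be the sum of `w i` over
`B k ∩ B k₀` and `y` the sum over `B k \ B k₀`; then `T k ≥ 3 x y`, and the sum of `x y` over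
`k ≠ k₀` is `S a`. So `3 c2 - c1sq ≥ -(S + a)² + T k₀ + 3 S a = (a + z - 2) (S - a - 2 + z)`. -/
theorem pencil_sharp {d : ℕ} (W : Wiring d) (w : Fin d → ℝ) (z : ℕ → ℝ) (Bl : Finset ℕ)
    (hBl : Bl ⊆ range W.M) (h2 : ∀ k < W.M, k ∉ Bl → W.mult k = 2) (hw0 : ∀ i, 0 ≤ w i)
    {k₀ : ℕ} (hk₀ : k₀ ∈ Bl) :
    (∑ i, w i - SS W w k₀ + z k₀ - 2) * (2 * SS W w k₀ - ∑ i, w i - 2 + z k₀) ≤
      3 * c2 W w z Bl - c1sq W w z Bl := by
  have hS' : SS W w k₀ = ∑ i ∈ W.B k₀, w i := rfl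
  obtain ⟨S, hSS⟩ : ∃ S : ℝ, S = SS W w k₀ := ⟨_, rfl⟩
  obtain ⟨X, hX⟩ : ∃ X : ℝ, X = ∑ i, w i := ⟨_, rfl⟩
  rw [chern_diff W w z Bl hBl h2]
  -- the pairs
  have h3 : ∑ k ∈ range W.M, penc_x w (W.B k₀) (W.B k) * penc_y w (W.B k₀) (W.B k) =
      S * (X - S) := by
    have e1 := pair_sum W (penc_f w (W.B k₀))
    rw [penc_mul, penc_univ] at e1
    have e2 : ∑ k ∈ range W.M, ∑ i ∈ W.B k, ∑ j ∈ (W.B k).erase i, penc_f w (W.B k₀) i j =
        ∑ k ∈ range W.M, penc_x w (W.B k₀) (W.B k) * penc_y w (W.B k₀) (W.B k) :=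
      sum_congr rfl fun k _ => penc_mul w _ _
    rw [e2] at e1
    rw [e1]
    have e3 := penc_add w (W.B k₀) univ
    rw [penc_univ, ← hX, ← hS', ← hSS] at e3
    rw [← hS', ← hSS]
    rw [show penc_y w (W.B k₀) univ = X - S by linarith]
  -- the vertices that are not blown up
  have h4 : ∑ k ∈ range W.M \ Bl, 3 * (penc_x w (W.B k₀) (W.B k) * penc_y w (W.B k₀) (W.B k)) ≤
      ∑ k ∈ range W.M \ Bl, 3 * ∏ i ∈ W.B k, w i := by
    refine sum_le_sum fun k hk => ?_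
    rw [mem_sdiff, mem_range] at hk
    have e1 := h2 k hk.1 hk.2
    obtain ⟨i, j, hij, hB⟩ := Finset.card_eq_two.1 ((card_B W hk.1).trans e1)
    rw [hB, prod_pair hij]
    exact mul_le_mul_of_nonneg_left (penc_pair hw0 _ hij) (by norm_num)
  -- the other vertices
  have h5 : ∑ k ∈ Bl.erase k₀,
      3 * (penc_x w (W.B k₀) (W.B k) * penc_y w (W.B k₀) (W.B k)) ≤
      ∑ k ∈ Bl.erase k₀, (3 / 4 * (∑ i ∈ W.B k, w i) ^ 2 +
        (z k - 2 + (∑ i ∈ W.B k, w i) / 2) ^ 2) := by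
    refine sum_le_sum fun k _ => ?_
    rw [← penc_add w (W.B k₀) (W.B k)]
    nlinarith [sq_nonneg (penc_x w (W.B k₀) (W.B k) - penc_y w (W.B k₀) (W.B k)),
      sq_nonneg (z k - 2 + (penc_x w (W.B k₀) (W.B k) + penc_y w (W.B k₀) (W.B k)) / 2)]
  have h6 : 3 / 4 * S ^ 2 + (z k₀ - 2 + S / 2) ^ 2 = 3 / 4 * (∑ i ∈ W.B k₀, w i) ^ 2 +
      (z k₀ - 2 + (∑ i ∈ W.B k₀, w i) / 2) ^ 2 := by
    rw [← hS', ← hSS]
  have h7 : 3 * (penc_x w (W.B k₀) (W.B k₀) * penc_y w (W.B k₀) (W.B k₀)) = 0 := by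
    rw [penc_self]
    ring
  have h8 := sum_sdiff hBl
    (f := fun k => 3 * (penc_x w (W.B k₀) (W.B k) * penc_y w (W.B k₀) (W.B k)))
  have h9 := add_sum_erase Bl
    (fun k => 3 * (penc_x w (W.B k₀) (W.B k) * penc_y w (W.B k₀) (W.B k))) hk₀
  have h10 := add_sum_erase Bl (fun k => 3 / 4 * (∑ i ∈ W.B k, w i) ^ 2 +
        (z k - 2 + (∑ i ∈ W.B k, w i) / 2) ^ 2) hk₀
  rw [← mul_sum, ← mul_sum, ← mul_sum, h3] at h8
  rw [← mul_sum] at h4
  rw [← mul_sum] at h5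
  rw [← mul_sum, ← mul_sum, h7] at h9
  rw [← hX, ← hSS, ← h10, ← h6]
  have h11 : (X - S + z k₀ - 2) * (2 * S - X - 2 + z k₀) =
      -X ^ 2 + (3 / 4 * S ^ 2 + (z k₀ - 2 + S / 2) ^ 2) + 3 * (S * (X - S)) := by ring
  rw [h11]
  linarith

end Pool.Agent.Helper8.PW
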