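import Pool.Agent.Helper8.PW.Asym
import Pool.Agent.Helper8.PW.Pen2

/-! Project PW: the final result. -/

open Finset

namespace Pool.Agent.Helper8.PW

open Pool.Agent.Helper8.PL

/-- a vertex with more than three quarters of the weight -/
theorem final_pencil {κ : ℝ} (hκ0 : 0 < κ) (hκ2 : κ ≤ 1 / 64) {d : ℕ} (W : Wiring d)
    (w : Fin d → ℝ) (z : ℕ → ℝ) (Bl : Finset ℕ) (X s : ℝ) (hXX : X = ∑ i, w i)
    (hw0 : ∀ i, 0 ≤ w i) (hw1 : ∀ i, w i ≤ 1) (hX : 1 ≤ κ * X) (hBl : Bl ⊆ range W.M)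
    (h2 : ∀ k < W.M, k ∉ Bl → W.mult k = 2) (hz : ∀ k ∈ Bl, 16 < SS W w k → 0 ≤ z k)
    (hsX : s ≤ X - 2) (hs : ∀ k ∈ Bl, 3 / 4 * X < SS W w k → SS W w k ≤ s + z k)
    {k₀ : ℕ} (hk₀ : k₀ < W.M) (hS : 3 / 4 * X < SS W w k₀) :
    c1sq W w z Bl + κ * (X * (X - 2 - s)) ≤ 3 * c2 W w z Bl := by
  have hX0 : 0 < X := by
    by_contra hcon
    have := mul_nonpos_of_nonneg_of_nonpos hκ0.le (not_lt.1 hcon)
    linarith
  have hX64 : 64 ≤ X := by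
    have := mul_le_mul_of_nonneg_right hκ2 hX0.le
    linarith
  have hkB : k₀ ∈ Bl := by
    by_contra hcon
    have h5 := h2 k₀ hk₀ hcon
    have h6 : SS W w k₀ ≤ 2 := by
      calc SS W w k₀ ≤ ∑ _i ∈ W.B k₀, (1 : ℝ) := Finset.sum_le_sum fun i _ => hw1 i
        _ = 2 := by rw [sum_const, card_B W hk₀, h5, nsmul_eq_mul]; norm_num
    linarith
  have h3 := pencil_sharp W w z Bl hBl h2 hw0 hkB
  rw [← hXX] at h3
  have hz0 := hz k₀ hkB (by linarith)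
  have h4 := hs k₀ hkB hS
  obtain ⟨S, hSS⟩ : ∃ S : ℝ, S = SS W w k₀ := ⟨_, rfl⟩
  rw [← hSS] at h3 h4 hS
  have h5 : (X - 2 - s) * (X / 4) ≤ (X - S + z k₀ - 2) * (2 * S - X - 2 + z k₀) :=
    mul_le_mul (by linarith) (by linarith) (by linarith) (by linarith)
  have h6 : 0 ≤ X * (X - 2 - s) := mul_nonneg hX0.le (by linarith)
  have h7 : κ * (X * (X - 2 - s)) ≤ 1 / 64 * (X * (X - 2 - s)) :=
    mul_le_mul_of_nonneg_right hκ2 h6
  linarith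

/-- weights bounded below -/
theorem final_part {ε : ℝ} (hε : 0 < ε) (hε1 : ε ≤ 1) : ∃ κ₁ : ℝ, 0 < κ₁ ∧ ∀ κ : ℝ, 0 < κ →
    κ ≤ κ₁ → κ ≤ 1 / 64 → ∀ {d : ℕ}
    (W : Wiring d) (w : Fin d → ℝ) (z : ℕ → ℝ) (Bl : Finset ℕ) (X s : ℝ), X = ∑ i, w i →
      (∀ i, ε ≤ w i ∧ w i ≤ 1) →
      1 ≤ κ * X → Bl ⊆ range W.M → (∀ k < W.M, k ∉ Bl → W.mult k = 2) →
        (∀ k ∈ Bl, 16 < SS W w k → 0 ≤ z k) → 0 ≤ s → s ≤ X - 2 →
          (∀ k ∈ Bl, 3 / 4 * X < SS W w k → SS W w k ≤ s + z k) →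
            c1sq W w z Bl + κ * (X * (X - 2 - s)) ≤ 3 * c2 W w z Bl := by
  classical
  obtain ⟨κ₁, hκ₁, H⟩ := pw_asym hε hε1
  refine ⟨κ₁, hκ₁, ?_⟩
  intro κ hκ0 hκ1 hκ2 d W w z Bl X s hXX hw hX hBl h2 hz hs0 hsX hs
  have hX0 : 0 < X := by
    by_contra hcon
    have := mul_nonpos_of_nonneg_of_nonpos hκ0.le (not_lt.1 hcon)
    linarith
  have hw0 : ∀ i, 0 ≤ w i := fun i => hε.le.trans (hw i).1
  have hw1 : ∀ i, w i ≤ 1 := fun i => (hw i).2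
  by_cases hcase : ∀ k < W.M, SS W w k ≤ 3 / 4 * X
  · have h3 : 1 ≤ κ₁ * ∑ i, w i := by
      rw [← hXX]
      exact hX.trans (mul_le_mul_of_nonneg_right hκ1 hX0.le)
    have h4 := H W w z Bl hw h3 hBl h2 hz (by rw [← hXX]; exact hcase)
    rw [← hXX] at h4
    have h5 : X * (X - 2 - s) ≤ X ^ 2 := by nlinarith
    have h6 : 0 ≤ X * (X - 2 - s) := mul_nonneg hX0.le (by linarith)
    have h7 : κ * (X * (X - 2 - s)) ≤ κ₁ * X ^ 2 :=
      mul_le_mul hκ1 h5 h6 hκ₁.le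
    linarith
  · push Not at hcase
    obtain ⟨k₀, hk₀, hS⟩ := hcase
    exact final_pencil hκ0 hκ2 W w z Bl X s hXX hw0 hw1 hX hBl h2 hz hsX hs hk₀ hS

/-- almost equal weights -/
theorem final_equal : ∃ κ₁ : ℝ, 0 < κ₁ ∧ ∀ κ : ℝ, 0 < κ →
    κ ≤ κ₁ → κ ≤ 1 / 64 → ∀ {d : ℕ}
    (W : Wiring d) (w : Fin d → ℝ) (z : ℕ → ℝ) (Bl : Finset ℕ) (X s x : ℝ), X = ∑ i, w i →
      x ≤ 1 → (∀ i, (1 - κ) * x ≤ w i ∧ w i ≤ x) →
      1 ≤ κ * X → Bl ⊆ range W.M → (∀ k < W.M, k ∉ Bl → W.mult k = 2) →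
        (∀ k ∈ Bl, 16 < SS W w k → 0 ≤ z k) → 0 ≤ s → s ≤ X - 2 →
          (∀ k ∈ Bl, 3 / 4 * X < SS W w k → SS W w k ≤ s + z k) →
            c1sq W w z Bl + κ * (X * (X - 2 - s)) ≤ 3 * c2 W w z Bl := by
  classical
  obtain ⟨κ₂, hκ₂, H⟩ := chern_main (ε := 1 / 5) (by norm_num)
  refine ⟨κ₂ / 18, by positivity, ?_⟩
  intro κ hκ0 hκ1 hκ2 d W w z Bl X s x hXX hx hw hX hBl h2 hz hs0 hsX hs
  have hX0 : 0 < X := by
    by_contra hcon
    have := mul_nonpos_of_nonneg_of_nonpos hκ0.le (not_lt.1 hcon)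
    linarith
  have hX1 : X ≤ x * d := by
    rw [hXX]
    calc ∑ i, w i ≤ ∑ _i : Fin d, x := Finset.sum_le_sum fun i _ => (hw i).2
      _ = x * d := by rw [sum_const, card_univ, Fintype.card_fin, nsmul_eq_mul, mul_comm]
  have hd0 : (0 : ℝ) ≤ d := by positivity
  have hx0 : 0 < x := by
    by_contra hcon
    have := mul_nonpos_of_nonpos_of_nonneg (not_lt.1 hcon) hd0
    linarith
  have hw0 : ∀ i, 0 ≤ w i := by
    intro i
    refine le_trans ?_ (hw i).1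
    exact mul_nonneg (by linarith) hx0.le
  have hw1 : ∀ i, w i ≤ 1 := fun i => (hw i).2.trans hx
  have hSm : ∀ k < W.M, 15 / 16 * x * W.mult k ≤ SS W w k := by
    intro k hk
    calc 15 / 16 * x * (W.mult k : ℝ) = ∑ _i ∈ W.B k, 15 / 16 * x := by
          rw [sum_const, card_B W hk, nsmul_eq_mul, mul_comm]
      _ ≤ SS W w k := Finset.sum_le_sum fun i _ => by
          refine le_trans ?_ (hw i).1
          exact mul_le_mul_of_nonneg_right (by linarith) hx0.le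
  by_cases hcase : ∀ k < W.M, SS W w k ≤ 3 / 4 * X
  · have h3 := (H W (by
      intro k hk
      have h4 := (hSm k hk).trans (hcase k hk)
      have h5 : x * (15 / 16 * (W.mult k : ℝ)) ≤ x * (3 / 4 * d) := by linarith
      have h6 := le_of_mul_le_mul_left h5 hx0
      linarith) x w z Bl hx (by
      have h4 : κ * X ≤ κ₂ * (x * d) := mul_le_mul (by linarith) hX1 hX0.le hκ₂.le
      linarith) (by
      intro i
      refine ⟨le_trans ?_ (hw i).1, (hw i).2⟩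
      exact mul_le_mul_of_nonneg_right (by linarith) hx0.le) hBl h2 (by
      intro k hk hkd
      apply hz k hk
      have h4 := hSm k (mem_range.1 (hBl hk))
      have h5 : 15 / 16 * x * (κ₂ * d) ≤ 15 / 16 * x * W.mult k :=
        mul_le_mul_of_nonneg_left hkd.le (by positivity)
      have h6 : κ₂ * X ≤ κ₂ * (x * d) := mul_le_mul_of_nonneg_left hX1 hκ₂.le
      have h7 : 18 * (κ * X) ≤ κ₂ * X := by
        have := mul_le_mul_of_nonneg_right hκ1 hX0.le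
        linarith
      linarith)).1
    have h5 : X * (X - 2 - s) ≤ (x * d) ^ 2 := by nlinarith
    have h6 : 0 ≤ X * (X - 2 - s) := mul_nonneg hX0.le (by linarith)
    have h7 : κ * (X * (X - 2 - s)) ≤ κ₂ * (x * d) ^ 2 :=
      mul_le_mul (by linarith) h5 h6 hκ₂.le
    linarith
  · push Not at hcase
    obtain ⟨k₀, hk₀, hS⟩ := hcase
    exact final_pencil hκ0 hκ2 W w z Bl X s hXX hw0 hw1 hX hBl h2 hz hsX hs hk₀ hS

/-- The main result. -/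
theorem pw_main {ε : ℝ} (hε : 0 < ε) : ∃ κ : ℝ, 0 < κ ∧ ∀ {d : ℕ}
    (W : Wiring d) (w : Fin d → ℝ) (z : ℕ → ℝ) (Bl : Finset ℕ) (X s : ℝ), X = ∑ i, w i →
      ((∀ i, ε ≤ w i ∧ w i ≤ 1) ∨ ∃ x ≤ 1, ∀ i, (1 - κ) * x ≤ w i ∧ w i ≤ x) →
        1 ≤ κ * X → Bl ⊆ range W.M → (∀ k < W.M, k ∉ Bl → W.mult k = 2) →
          (∀ k ∈ Bl, 16 < ∑ i ∈ W.B k, w i → 0 ≤ z k) → 0 ≤ s → s ≤ X - 2 →
            (∀ k ∈ Bl, 3 / 4 * X < ∑ i ∈ W.B k, w i → ∑ i ∈ W.B k, w i ≤ s + z k) →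
              c1sq W w z Bl + κ * (X * (X - 2 - s)) ≤ 3 * c2 W w z Bl ∧
              ((∀ i, ε ≤ w i) → (∀ k ∈ Bl, 0 ≤ z k ∧ z k ≤ 1) → s ≤ (1 - ε) * X →
                c1sq W w z Bl ≤ (3 - κ) * c2 W w z Bl) := by
  classical
  obtain ⟨b, hb⟩ : ∃ b : ℝ, b = min ε 1 := ⟨_, rfl⟩
  have hb0 : 0 < b := by
    rw [hb]
    exact lt_min hε one_pos
  have hb1 : b ≤ 1 := by
    rw [hb]
    exact min_le_right _ _
  have hbε : b ≤ ε := by
    rw [hb]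
    exact min_le_left _ _
  obtain ⟨κ₂, hκ₂, H⟩ := final_part hb0 hb1
  obtain ⟨κ₃, hκ₃, H'⟩ := final_equal
  obtain ⟨κ₄, hκ₄⟩ : ∃ κ₄ : ℝ, κ₄ = min (min κ₂ κ₃) (1 / 64) := ⟨_, rfl⟩
  have hκ₄0 : 0 < κ₄ := by
    rw [hκ₄]
    exact lt_min (lt_min hκ₂ hκ₃) (by norm_num)
  have hκ₄2 : κ₄ ≤ κ₂ := by
    rw [hκ₄]
    exact (min_le_left _ _).trans (min_le_left _ _)
  have hκ₄3 : κ₄ ≤ κ₃ := by
    rw [hκ₄]
    exact (min_le_left _ _).trans (min_le_right _ _)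
  have hκ₄4 : κ₄ ≤ 1 / 64 := by
    rw [hκ₄]
    exact min_le_right _ _
  obtain ⟨κ, hκ⟩ : ∃ κ : ℝ, κ = κ₄ * b ^ 3 / 6 := ⟨_, rfl⟩
  have hκ0 : 0 < κ := by
    rw [hκ]
    positivity
  have hb3 : b ^ 3 ≤ b := by
    have : b ^ 2 ≤ 1 := pow_le_one₀ hb0.le hb1
    nlinarith
  have hκb : κ ≤ κ₄ * b / 6 := by
    rw [hκ]
    have := mul_le_mul_of_nonneg_left hb3 hκ₄0.le
    linarith
  have hκ4 : κ ≤ b / 4 := by
    have := mul_le_mul_of_nonneg_right hκ₄4 hb0.le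
    linarith
  have hκ5 : κ ≤ κ₄ := by
    have := mul_le_mul_of_nonneg_left hb1 hκ₄0.le
    linarith
  refine ⟨κ, hκ0, ?_⟩
  intro d W w z Bl X s hXX hw hX hBl h2 hz hs0 hsX hs
  have hX0 : 0 < X := by
    by_contra hcon
    have := mul_nonpos_of_nonneg_of_nonpos hκ0.le (not_lt.1 hcon)
    linarith
  have hX1 : 1 ≤ κ₄ * X := hX.trans (mul_le_mul_of_nonneg_right hκ5 hX0.le)
  have h4 : 0 ≤ X * (X - 2 - s) := mul_nonneg hX0.le (by linarith)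
  refine ⟨?_, ?_⟩
  · rcases hw with hw | ⟨x, hx, hw⟩
    · exact H κ hκ0 (by linarith) (by linarith) W w z Bl X s hXX
        (fun i => ⟨hbε.trans (hw i).1, (hw i).2⟩) hX hBl h2 hz hs0 hsX hs
    · exact H' κ hκ0 (by linarith) (by linarith) W w z Bl X s x hXX hx hw hX hBl h2 hz hs0
        hsX hs
  · intro hwε hz1 hsε
    have hw1 : ∀ i, w i ≤ 1 := by
      intro i
      rcases hw with hw | ⟨x, hx, hw⟩
      · exact (hw i).2
      · exact (hw i).2.trans hx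
    have hw0 : ∀ i, 0 ≤ w i := fun i => hε.le.trans (hwε i)
    have h3 := H κ₄ hκ₄0 hκ₄2 hκ₄4 W w z Bl X s hXX
        (fun i => ⟨hbε.trans (hwε i), hw1 i⟩) hX1 hBl h2 hz hs0 hsX hs
    have hXε : 4 ≤ b * X := by
      have := mul_le_mul_of_nonneg_right hκ4 hX0.le
      linarith
    have hX4 : 4 ≤ X := by
      have := mul_le_mul_of_nonneg_right hb1 hX0.le
      linarith
    have hXd : X ≤ d := by
      rw [hXX]
      calc ∑ i, w i ≤ ∑ _i : Fin d, (1 : ℝ) := Finset.sum_le_sum fun i _ => hw1 i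
        _ = d := by simp
    have hdX : (d : ℝ) * b ≤ X := by
      rw [hXX]
      calc (d : ℝ) * b = ∑ _i : Fin d, b := by simp
        _ ≤ ∑ i, w i := Finset.sum_le_sum fun i _ => hbε.trans (hwε i)
    have hd2 : 2 ≤ d := by
      have : (2 : ℝ) ≤ d := by linarith
      exact_mod_cast this
    have hup := chern_upper (W := W) hd2 w z Bl hBl h2 hw0 hw1 (fun k hk => (hz1 k hk).1)
      (fun k hk => (hz1 k hk).2)
    have h5 : b / 2 * X ≤ X - 2 - s := by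
      have : b * X ≤ ε * X := mul_le_mul_of_nonneg_right hbε hX0.le
      linarith
    have h6 : κ₄ * (b / 2 * X ^ 2) ≤ κ₄ * (X * (X - 2 - s)) := by
      refine mul_le_mul_of_nonneg_left ?_ hκ₄0.le
      have := mul_le_mul_of_nonneg_left h5 hX0.le
      linarith
    have h7 : κ * c2 W w z Bl ≤ κ₄ * (b / 2 * X ^ 2) := by
      have h8 : κ * c2 W w z Bl ≤ κ * (3 * (d : ℝ) ^ 2) :=
        mul_le_mul_of_nonneg_left hup hκ0.le
      have h10 : ((d : ℝ) * b) ^ 2 ≤ X ^ 2 :=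
        pow_le_pow_left₀ (by positivity) hdX 2
      have h11 : κ₄ * b / 2 * ((d : ℝ) * b) ^ 2 ≤ κ₄ * b / 2 * X ^ 2 :=
        mul_le_mul_of_nonneg_left h10 (by positivity)
      have h12 : κ * (3 * (d : ℝ) ^ 2) = κ₄ * b / 2 * ((d : ℝ) * b) ^ 2 := by
        rw [hκ]
        ring
      linarith
    linarith

end Pool.Agent.Helper8.PW
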