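import Pool.Agent.Helper8.PW.Main
import Pool.Agent.Helper8.PW.RDefs

/-! Project PW, piece KReal: the kernel inequality for real weights. -/

namespace Pool.Agent.Helper8.PW

open Pool.Agent.Helper8.PL Finset

/-- The integer weights. -/
private abbrev kreal_W {d : ℕ} (W : Wiring d) (n : Fin d → ℕ) (h : ∀ i, 0 < n i) :
    WW (∑ i, n i) := ⟨d, W, n, h, rfl⟩

private theorem kreal_sum_le {d : ℕ} (W : Wiring d) (K : Finset ℕ) (hK : K ⊆ range W.M)
    (g : ℕ → Fin d → Fin d → ℝ) {E : ℝ} (hE : 0 ≤ E)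
    (hg : ∀ k ∈ K, ∀ i ∈ W.B k, ∀ j ∈ (W.B k).erase i, g k i j ≤ E) :
    ∑ k ∈ K, ∑ i ∈ W.B k, ∑ j ∈ (W.B k).erase i, g k i j ≤ E * (d : ℝ) ^ 2 := by
  have h1 : ∑ k ∈ K, ∑ i ∈ W.B k, ∑ j ∈ (W.B k).erase i, g k i j ≤
      ∑ k ∈ K, ∑ i ∈ W.B k, ∑ j ∈ (W.B k).erase i, E :=
    Finset.sum_le_sum fun k hk => Finset.sum_le_sum fun i hi => Finset.sum_le_sum fun j hj =>
      hg k hk i hi j hj
  have h2 : ∑ k ∈ K, ∑ i ∈ W.B k, ∑ j ∈ (W.B k).erase i, E ≤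
      ∑ k ∈ range W.M, ∑ i ∈ W.B k, ∑ j ∈ (W.B k).erase i, E :=
    Finset.sum_le_sum_of_subset_of_nonneg hK fun k _ _ =>
      Finset.sum_nonneg fun i _ => Finset.sum_nonneg fun j _ => hE
  have h3 := Pool.Agent.Helper8.PL.pair_sum W (fun _ _ => E)
  have h4 : ∑ i : Fin d, ∑ j ∈ univ.erase i, E ≤ E * (d : ℝ) ^ 2 := by
    have h5 : ∀ i ∈ (univ : Finset (Fin d)), ∑ j ∈ univ.erase i, E ≤ E * d := by
      intro i _
      have h6 : ∑ j ∈ univ.erase i, E ≤ ∑ j : Fin d, E :=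
        Finset.sum_le_sum_of_subset_of_nonneg (Finset.erase_subset _ _) fun _ _ _ => hE
      have h7 : ∑ j : Fin d, E = E * d := by
        rw [sum_const, card_univ, Fintype.card_fin, nsmul_eq_mul, mul_comm]
      linarith
    refine (Finset.sum_le_sum h5).trans (le_of_eq ?_)
    rw [sum_const, card_univ, Fintype.card_fin, nsmul_eq_mul]
    ring
  linarith

private theorem kreal_nonneg {d : ℕ} (W : Wiring d) (K : Finset ℕ)
    (g : ℕ → Fin d → Fin d → ℝ)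
    (hg : ∀ k ∈ K, ∀ i ∈ W.B k, ∀ j ∈ (W.B k).erase i, 0 ≤ g k i j) :
    0 ≤ ∑ k ∈ K, ∑ i ∈ W.B k, ∑ j ∈ (W.B k).erase i, g k i j :=
  Finset.sum_nonneg fun k hk => Finset.sum_nonneg fun i hi => Finset.sum_nonneg fun j hj =>
    hg k hk i hi j hj

/-- The comparison of the two inequalities. -/
private theorem kreal_arith {K₀ C ε R S X D d P Q P' Q' : ℝ} (hε : 0 < ε) (hC : 0 ≤ C)
    (hR : 0 < R) (hRS : R * S = X) (hX1 : 1 ≤ X) (hX2 : 4 * d ≤ X)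
    (hX3 : 6 * (|K₀| + C) * d ^ 2 / ε ≤ X) (hD0 : 0 ≤ D) (hD : D ≤ X + d)
    (hP : 0 ≤ P' - R ^ 2 * P) (hP2 : P' - R ^ 2 * P ≤ (2 * X + 1) * d ^ 2)
    (hQ : Q' - R ^ 2 * Q ≤ C * (2 * X + 1) * d ^ 2)
    (h : K₀ * P' - ε / 4 * D ^ 2 ≤ Q') : K₀ * P - ε * S ^ 2 ≤ Q := by
  have hR2 : 0 < R ^ 2 := by positivity
  refine le_of_mul_le_mul_left ?_ hR2
  have e1 : R ^ 2 * S ^ 2 = X ^ 2 := by rw [← hRS]; ring
  have e2 : D ^ 2 ≤ (5 / 4 * X) ^ 2 := pow_le_pow_left₀ hD0 (by linarith) 2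
  have e3 : ε / 4 * D ^ 2 ≤ ε * (25 / 64) * X ^ 2 := by
    have := mul_le_mul_of_nonneg_left e2 (show (0:ℝ) ≤ ε / 4 by positivity)
    calc ε / 4 * D ^ 2 ≤ ε / 4 * (5 / 4 * X) ^ 2 := this
      _ = _ := by ring
  have e4 : (|K₀| + C) * ((2 * X + 1) * d ^ 2) ≤ ε / 2 * X ^ 2 := by
    rw [div_le_iff₀ hε] at hX3
    have hc : 0 ≤ |K₀| + C := by positivity
    have h5 : (|K₀| + C) * ((2 * X + 1) * d ^ 2) ≤ (|K₀| + C) * ((3 * X) * d ^ 2) := by
      refine mul_le_mul_of_nonneg_left ?_ hc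
      exact mul_le_mul_of_nonneg_right (by linarith) (by positivity)
    have h6 : (|K₀| + C) * ((3 * X) * d ^ 2) = X / 2 * (6 * (|K₀| + C) * d ^ 2) := by ring
    have h7 : X / 2 * (6 * (|K₀| + C) * d ^ 2) ≤ X / 2 * (X * ε) :=
      mul_le_mul_of_nonneg_left hX3 (by linarith)
    calc (|K₀| + C) * ((2 * X + 1) * d ^ 2) ≤ X / 2 * (X * ε) := by linarith
      _ = ε / 2 * X ^ 2 := by ring
  have e5 : K₀ * (R ^ 2 * P) ≤ K₀ * P' + |K₀| * ((2 * X + 1) * d ^ 2) := by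
    have h5 : |K₀ * (P' - R ^ 2 * P)| ≤ |K₀| * ((2 * X + 1) * d ^ 2) := by
      rw [abs_mul]
      refine mul_le_mul_of_nonneg_left ?_ (abs_nonneg _)
      rw [abs_of_nonneg hP]
      exact hP2
    have h6 := (abs_le.1 h5).1
    linarith
  have e6 : 0 ≤ ε * X ^ 2 := by positivity
  calc R ^ 2 * (K₀ * P - ε * S ^ 2) = K₀ * (R ^ 2 * P) - ε * (R ^ 2 * S ^ 2) := by ring
    _ = K₀ * (R ^ 2 * P) - ε * X ^ 2 := by rw [e1]
    _ ≤ R ^ 2 * Q := by linarith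

/-- Proof. Apply `main_asym` (PW/Main.lean) with `ε / 4` and any `κ` (say `1`); it gives a
`δ₁`; take `δ₀ = min (δ₁ / 2) ...`. For given real weights take a large real number `R` (depending
on `d` and `w`) and the integer weights `n i = ⌈R * w i⌉₊` (structure `WW (∑ i, n i)` with
`e := d`, `U := W`, `w := n`), so that `R w i ≤ n i < R w i + 1`, and `K := SM V δ`, the same
`θ`. If `k ∉ K` then `δ ∑ n i < ∑_{i ∈ B k} n i` (`sum_B`), which gives `δ₀ X ≤ SS k` for large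
`R`. Divide the inequality by `R ^ 2`: `|n i n j / R ^ 2 - w i w j| ≤ (w i + w j) / R + 1 / R ^ 2`
and there are at most `d ^ 2` pairs (`pair_sum` of PL/Pair.lean, `φ` is bounded by `C`). -/
theorem kernel_real {φ : ℝ → ℝ} {C K₀ : ℝ} (hφ : ∀ x, |φ x| ≤ C)
    (hK : ∀ (m : ℕ) (v : ℕ → ℝ × ℝ), ∃ θ : ℕ → ℝ,
      K₀ * ∑ c ∈ range m, ∑ c' ∈ range m, |wd (v c) (v c')| ≤
        ∑ c ∈ range m, ∑ c' ∈ range m, |wd (v c) (v c')| * φ (θ c - θ c'))
    {ε : ℝ} (hε : 0 < ε) : ∃ δ₀ : ℝ, 0 < δ₀ ∧ ∀ {d : ℕ} (W : Wiring d) (w : Fin d → ℝ), 0 < d →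
      (∀ i, 0 < w i) → (∀ i, w i ≤ δ₀ * ∑ j, w j) →
        ∃ (K : Finset ℕ) (θ : ℕ → Fin d → ℝ), K ⊆ range W.M ∧
          (∀ k < W.M, k ∉ K → δ₀ * ∑ j, w j ≤ SS W w k) ∧
          K₀ * ∑ k ∈ K, UU W w k - ε * (∑ j, w j) ^ 2 ≤
            ∑ k ∈ K, ∑ i ∈ W.B k, ∑ j ∈ (W.B k).erase i, w i * w j * φ (θ k i - θ k j) := by
  classical
  have hC : 0 ≤ C := (abs_nonneg _).trans (hφ 0)
  obtain ⟨δ₁, hδ₁, H⟩ := main_asym hφ hK (show 0 < ε / 4 by positivity) one_pos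
  refine ⟨δ₁ / 2, by positivity, fun {d} W w hd hw hwS => ?_⟩
  set S : ℝ := ∑ j, w j with hS
  have hS0 : 0 < S := by
    have : Nonempty (Fin d) := ⟨⟨0, hd⟩⟩
    exact Finset.sum_pos (fun i _ => hw i) Finset.univ_nonempty
  have hd0 : (0 : ℝ) ≤ d := Nat.cast_nonneg _
  set X : ℝ := 1 + 2 / δ₁ + 2 * d / δ₁ + 4 * d + 6 * (|K₀| + C) * (d : ℝ) ^ 2 / ε with hX
  have p1 : 0 ≤ 2 / δ₁ := by positivity
  have p2 : 0 ≤ 2 * d / δ₁ := by positivity
  have p3 : 0 ≤ 6 * (|K₀| + C) * (d : ℝ) ^ 2 / ε := by positivity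
  have hX0 : 0 < X := by rw [hX]; linarith
  set R : ℝ := X / S with hR
  have hR0 : 0 < R := by positivity
  have hRS : R * S = X := div_mul_cancel₀ _ hS0.ne'
  set n : Fin d → ℕ := fun i => ⌈R * w i⌉₊ with hn
  have hn1 : ∀ i, R * w i ≤ n i := fun i => Nat.le_ceil _
  have hn2 : ∀ i, (n i : ℝ) < R * w i + 1 := fun i =>
    Nat.ceil_lt_add_one (mul_nonneg hR0.le (hw i).le)
  have hnpos : ∀ i, 0 < n i := fun i => Nat.ceil_pos.2 (mul_pos hR0 (hw i))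
  set D : ℕ := ∑ i, n i with hDdef
  have hD1 : X ≤ (D : ℝ) := by
    rw [← hRS, hDdef, hS, Finset.mul_sum, Nat.cast_sum]
    exact Finset.sum_le_sum fun i _ => hn1 i
  have hD2 : (D : ℝ) ≤ X + d := by
    have h1 : (D : ℝ) ≤ ∑ i : Fin d, (R * w i + 1) := by
      rw [hDdef, Nat.cast_sum]
      exact Finset.sum_le_sum fun i _ => (hn2 i).le
    rw [Finset.sum_add_distrib, ← Finset.mul_sum, ← hS, hRS, sum_const, card_univ,
      Fintype.card_fin, nsmul_eq_mul, mul_one] at h1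
    exact h1
  have hDpos : 0 < D := by
    have : (0 : ℝ) < D := lt_of_lt_of_le hX0 hD1
    exact_mod_cast this
  have hcond : ∀ i, (n i : ℝ) ≤ δ₁ * D := by
    intro i
    have h1 := (hn2 i).le
    have h2 := mul_le_mul_of_nonneg_left (hwS i) hR0.le
    have h3 : R * (δ₁ / 2 * S) = δ₁ / 2 * X := by rw [← hRS]; ring
    have h4 : 1 ≤ δ₁ / 2 * X := by
      have h5 : 2 / δ₁ ≤ X := by rw [hX]; linarith
      have h6 := mul_le_mul_of_nonneg_left h5 (show (0:ℝ) ≤ δ₁ / 2 by positivity)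
      have h7 : δ₁ / 2 * (2 / δ₁) = 1 := by field_simp
      linarith
    have h5 : δ₁ * X ≤ δ₁ * D := mul_le_mul_of_nonneg_left hD1 hδ₁.le
    linarith
  obtain ⟨δ, hδ1, -, θ, hθ⟩ := H (kreal_W W n hnpos) hDpos hcond
  have hnw : ∀ i j, n i * n j - R ^ 2 * (w i * w j) ≤ 2 * X + 1 ∧
      0 ≤ (n i : ℝ) * n j - R ^ 2 * (w i * w j) := by
    intro i j
    have hle : ∀ i, R * w i ≤ X := by
      intro i
      rw [← hRS]
      refine mul_le_mul_of_nonneg_left ?_ hR0.le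
      rw [hS]
      exact Finset.single_le_sum (f := w) (fun j _ => (hw j).le) (Finset.mem_univ i)
    have a1 := hn1 i
    have a2 := (hn2 i).le
    have b1 := hn1 j
    have b2 := (hn2 j).le
    have c1 := hle i
    have c2 := hle j
    have d1 : 0 ≤ R * w i := mul_nonneg hR0.le (hw i).le
    have d2 : 0 ≤ R * w j := mul_nonneg hR0.le (hw j).le
    constructor
    · have h1 : (n i : ℝ) * n j ≤ (R * w i + 1) * (R * w j + 1) :=
        mul_le_mul a2 b2 (Nat.cast_nonneg _) (by linarith)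
      have h2 : (R * w i + 1) * (R * w j + 1) = R ^ 2 * (w i * w j) + R * w i + R * w j + 1 := by
        ring
      linarith
    · have h1 : (R * w i) * (R * w j) ≤ (n i : ℝ) * n j :=
        mul_le_mul a1 b1 d2 (Nat.cast_nonneg _)
      have h2 : (R * w i) * (R * w j) = R ^ 2 * (w i * w j) := by ring
      linarith
  have hKsub : SM (kreal_W W n hnpos) δ ⊆ range W.M := by
    unfold SM
    exact Finset.filter_subset _ _
  refine ⟨SM (kreal_W W n hnpos) δ, θ, hKsub, ?_, ?_⟩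
  · intro k hk hkK
    have h1 : δ * (D : ℝ) < ((kreal_W W n hnpos).mult k : ℝ) := by
      by_contra hcon
      push Not at hcon
      exact hkK (Finset.mem_filter.2 ⟨Finset.mem_range.2 hk, hcon⟩)
    have h2 : ((kreal_W W n hnpos).mult k : ℝ) = ∑ i ∈ W.B k, (n i : ℝ) := by
      rw [← Pool.Agent.Helper8.PW.sum_B (kreal_W W n hnpos) (show k < (kreal_W W n hnpos).M from hk), Nat.cast_sum]
      rfl
    have h3 : ∑ i ∈ W.B k, (n i : ℝ) ≤ R * SS W w k + d := by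
      have h4 : ∑ i ∈ W.B k, (n i : ℝ) ≤ ∑ i ∈ W.B k, (R * w i + 1) :=
        Finset.sum_le_sum fun i _ => (hn2 i).le
      rw [Finset.sum_add_distrib, ← Finset.mul_sum, sum_const, nsmul_eq_mul, mul_one] at h4
      have h5 : ((W.B k).card : ℝ) ≤ d := by
        have := Finset.card_le_univ (W.B k)
        rw [Fintype.card_fin] at this
        exact_mod_cast this
      have h6 : R * ∑ i ∈ W.B k, w i = R * SS W w k := rfl
      linarith
    have h4 : δ₁ * X ≤ δ * D :=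
      mul_le_mul hδ1 hD1 hX0.le (hδ₁.le.trans hδ1)
    have h5 : (d : ℝ) ≤ δ₁ / 2 * X := by
      have h6 : 2 * d / δ₁ ≤ X := by rw [hX]; linarith
      have h7 := mul_le_mul_of_nonneg_left h6 (show (0:ℝ) ≤ δ₁ / 2 by positivity)
      have h8 : δ₁ / 2 * (2 * d / δ₁) = d := by field_simp
      linarith
    have h6 : R * (δ₁ / 2 * S) ≤ R * SS W w k := by
      have h7 : R * (δ₁ / 2 * S) = δ₁ / 2 * X := by rw [← hRS]; ring
      linarith
    exact le_of_mul_le_mul_left h6 hR0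
  · have hE : (0 : ℝ) ≤ 2 * X + 1 := by linarith
    have k1 : PS (kreal_W W n hnpos) (SM (kreal_W W n hnpos) δ) - R ^ 2 * ∑ k ∈ SM (kreal_W W n hnpos) δ, UU W w k =
        ∑ k ∈ SM (kreal_W W n hnpos) δ, ∑ i ∈ W.B k, ∑ j ∈ (W.B k).erase i,
          ((n i : ℝ) * n j - R ^ 2 * (w i * w j)) := by
      unfold UU
      simp only [Finset.sum_sub_distrib, Finset.mul_sum]
      rfl
    have k2 : ∑ k ∈ SM (kreal_W W n hnpos) δ, ∑ i ∈ (kreal_W W n hnpos).B k, ∑ j ∈ ((kreal_W W n hnpos).B k).erase i,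
            ((kreal_W W n hnpos).w i : ℝ) * (kreal_W W n hnpos).w j * φ (θ k i - θ k j) -
        R ^ 2 * ∑ k ∈ SM (kreal_W W n hnpos) δ, ∑ i ∈ W.B k, ∑ j ∈ (W.B k).erase i,
          w i * w j * φ (θ k i - θ k j) =
        ∑ k ∈ SM (kreal_W W n hnpos) δ, ∑ i ∈ W.B k, ∑ j ∈ (W.B k).erase i,
          ((n i : ℝ) * n j - R ^ 2 * (w i * w j)) * φ (θ k i - θ k j) := by
      simp only [sub_mul, Finset.sum_sub_distrib, Finset.mul_sum]
      congr 1
      refine Finset.sum_congr rfl fun k _ => Finset.sum_congr rfl fun i _ =>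
        Finset.sum_congr rfl fun j _ => ?_
      ring
    refine kreal_arith (d := (d : ℝ)) (D := (D : ℝ)) hε hC hR0 hRS (by rw [hX]; linarith)
      (by rw [hX]; linarith) (by rw [hX]; linarith) (Nat.cast_nonneg _) hD2
      (P' := PS (kreal_W W n hnpos) (SM (kreal_W W n hnpos) δ)) ?_ ?_ ?_ hθ
    · rw [k1]
      exact kreal_nonneg W _ _ fun k _ i _ j _ => (hnw i j).2
    · rw [k1]
      exact kreal_sum_le W _ hKsub _ hE fun k _ i _ j _ => (hnw i j).1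
    · rw [k2]
      refine kreal_sum_le W _ hKsub _ (mul_nonneg hC hE) fun k _ i _ j _ => ?_
      have h1 := (hnw i j).1
      have h2 := (hnw i j).2
      have h3 := (abs_le.1 (hφ (θ k i - θ k j))).2
      calc ((n i : ℝ) * n j - R ^ 2 * (w i * w j)) * φ (θ k i - θ k j)
          ≤ ((n i : ℝ) * n j - R ^ 2 * (w i * w j)) * C := mul_le_mul_of_nonneg_left h3 h2
        _ ≤ (2 * X + 1) * C := mul_le_mul_of_nonneg_right h1 hC
        _ = C * (2 * X + 1) := mul_comm _ _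

end Pool.Agent.Helper8.PW
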