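import Pool.Agent.Helper8.PW.Basic

/-! Project PW: Lipschitz properties of the counting functions. -/

open Finset

namespace Pool.Agent.Helper8.PW

open Pool.Agent.Helper8.PL

variable {d : ℕ} (W : WW d)

private theorem lip_core_aux {m : ℕ} (w : ℕ → ℝ) (A B : ℝ)
    (hA : ∑ e ∈ range m, w e = A) (hB : ∑ e ∈ range m, (e : ℝ) * w e = B)
    (hs : ∀ c c', c < c' → w c ≤ 0 ∨ 0 ≤ w c') (c : ℕ) (hcm : c < m) (hc : 0 < w c) :
    ∃ h : ℝ, |h| ≤ m ∧ ∑ e ∈ range m, |w e| ≤ 2 * (B - h * A) := by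
  classical
  have hex : ∃ c, c < m ∧ 0 < w c := ⟨c, hcm, hc⟩
  obtain ⟨h1, h2⟩ := Nat.find_spec hex
  have h3 : ∀ e, e < Nat.find hex → w e ≤ 0 := by
    intro e he
    by_contra h
    push Not at h
    exact Nat.find_min hex he ⟨he.trans h1, h⟩
  generalize Nat.find hex = q at h1 h2 h3
  refine ⟨(q : ℝ) - 1 / 2, ?_, ?_⟩
  · have h4 : (q : ℝ) + 1 ≤ m := by exact_mod_cast h1
    have h5 : (0 : ℝ) ≤ q := by positivity
    rw [abs_le]
    constructor <;> linarith
  · rw [← hA, ← hB, mul_sum, ← sum_sub_distrib, mul_sum]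
    apply sum_le_sum
    intro e _
    rcases lt_or_ge e q with he | he
    · have h6 := h3 e he
      have h7 : (e : ℝ) + 1 ≤ q := by exact_mod_cast he
      rw [abs_of_nonpos h6]
      nlinarith
    · have h6 : 0 ≤ w e := by
        rcases he.eq_or_lt with h | h
        · rw [← h]; exact h2.le
        · rcases hs q e h with h' | h'
          · linarith
          · exact h'
      have h7 : (q : ℝ) ≤ e := by exact_mod_cast he
      rw [abs_of_nonneg h6]
      nlinarith

private theorem lip_core {m : ℕ} (w : ℕ → ℝ) (A B : ℝ)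
    (hA : ∑ e ∈ range m, w e = A) (hB : ∑ e ∈ range m, (e : ℝ) * w e = B)
    (hs : ∀ c c', c < c' → w c ≤ 0 ∨ 0 ≤ w c') :
    ∑ e ∈ range m, |w e| ≤ 2 * (|B| + m * |A|) := by
  by_cases hex : ∃ c, c < m ∧ 0 < w c
  · obtain ⟨c, hcm, hc⟩ := hex
    obtain ⟨h, h1, h2⟩ := lip_core_aux w A B hA hB hs c hcm hc
    refine h2.trans ?_
    have h3 : -(h * A) ≤ |h| * |A| := by
      rw [← abs_mul]; exact neg_le_abs _
    have h4 : |h| * |A| ≤ m * |A| := mul_le_mul_of_nonneg_right h1 (abs_nonneg _)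
    have h5 := le_abs_self B
    linarith
  · push Not at hex
    rcases Nat.eq_zero_or_pos m with rfl | hm
    · simp
    · have h1 : ∑ e ∈ range m, |w e| = -A := by
        rw [← hA, ← sum_neg_distrib]
        apply sum_congr rfl
        intro e he
        exact abs_of_nonpos (hex e (mem_range.1 he))
      rw [h1]
      have h2 : (1 : ℝ) ≤ m := by exact_mod_cast hm
      have h3 := neg_le_abs A
      have h4 := abs_nonneg A
      have h5 := abs_nonneg B
      nlinarith

private theorem lip_core_mono {m : ℕ} (w : ℕ → ℝ) (B : ℝ)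
    (hA : ∑ e ∈ range m, w e = 0) (hB : ∑ e ∈ range m, (e : ℝ) * w e = B)
    (hs : ∀ c c', c < c' → w c ≤ 0 ∨ 0 ≤ w c') : 0 ≤ B := by
  by_cases hex : ∃ c, c < m ∧ 0 < w c
  · obtain ⟨c, hcm, hc⟩ := hex
    obtain ⟨h, h1, h2⟩ := lip_core_aux w 0 B hA hB hs c hcm hc
    have h3 : 0 ≤ ∑ e ∈ range m, |w e| := sum_nonneg fun _ _ => abs_nonneg _
    linarith
  · push Not at hex
    have h1 : ∀ e ∈ range m, w e = 0 := by
      have := (sum_eq_zero_iff_of_nonpos (s := range m) (f := w)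
        (fun e he => hex e (mem_range.1 he))).1 hA
      exact this
    rw [← hB]
    apply sum_nonneg
    intro e he
    rw [h1 e he, mul_zero]

private theorem lip_sum_cnt {N m k l x y : ℕ} (hN : 0 < N) (hm : d ≤ m * N) (hk : k ≤ W.M)
    (hl : l ≤ W.M) (hx : x ≤ d) (hy : y ≤ d) :
    ∑ e ∈ range m, ((W.cnt N e l y : ℝ) - W.cnt N e k x) = (y : ℝ) - x := by
  rw [sum_sub_distrib]
  have h1 := sum_cnt W hN hm hk hx
  have h2 := sum_cnt W hN hm hl hy
  have h1' : ∑ e ∈ range m, (W.cnt N e k x : ℝ) = x := by exact_mod_cast h1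
  have h2' : ∑ e ∈ range m, (W.cnt N e l y : ℝ) = y := by exact_mod_cast h2
  rw [h1', h2']

private theorem lip_sum_mul_cnt {N m k l x y : ℕ} (hN : 0 < N) (hm : d ≤ m * N) :
    ∑ e ∈ range m, (e : ℝ) * ((W.cnt N e l y : ℝ) - W.cnt N e k x) =
      (W.T N l y : ℝ) - W.T N k x := by
  have h1 := sum_mul_cnt W hN hm k x
  have h2 := sum_mul_cnt W hN hm l y
  have h1' : ∑ e ∈ range m, (e : ℝ) * (W.cnt N e k x : ℝ) = W.T N k x := by exact_mod_cast h1
  have h2' : ∑ e ∈ range m, (e : ℝ) * (W.cnt N e l y : ℝ) = W.T N l y := by exact_mod_cast h2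
  rw [← h1', ← h2', ← sum_sub_distrib]
  apply sum_congr rfl
  intro e _
  ring

private theorem lip_sign {N k l x y : ℕ} (hkl : k ≤ l) (hl : l ≤ W.M) (c c' : ℕ) (hc : c < c') :
    (W.cnt N c l y : ℝ) - W.cnt N c k x ≤ 0 ∨ 0 ≤ (W.cnt N c' l y : ℝ) - W.cnt N c' k x := by
  rcases cnt_sign W (N := N) (x := x) (y := y) hkl hl hc with h | h
  · left
    have : (W.cnt N c l y : ℝ) ≤ W.cnt N c k x := by exact_mod_cast h
    linarith
  · right
    have : (W.cnt N c' k x : ℝ) ≤ W.cnt N c' l y := by exact_mod_cast h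
    linarith

/-- the counting functions are Lipschitz functions of `x` and `T` -/
theorem cnt_lip {N m k l x y : ℕ} (hN : 0 < N) (hm : d ≤ m * N) (hk : k ≤ W.M) (hl : l ≤ W.M)
    (hx : x ≤ d) (hy : y ≤ d) :
    ∑ e ∈ range m, |(W.cnt N e l y : ℝ) - W.cnt N e k x| ≤
      2 * (|(W.T N l y : ℝ) - W.T N k x| + m * |(y : ℝ) - x|) := by
  rcases le_total k l with hkl | hkl
  · exact lip_core _ _ _ (lip_sum_cnt W hN hm hk hl hx hy) (lip_sum_mul_cnt W hN hm)
      (fun c c' hc => lip_sign W hkl hl c c' hc)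
  · have h := lip_core _ _ _ (lip_sum_cnt W hN hm hl hk hy hx) (lip_sum_mul_cnt W hN hm)
      (fun c c' hc => lip_sign W hkl hk c c' hc)
    rw [abs_sub_comm (W.T N l y : ℝ), abs_sub_comm (y : ℝ)]
    refine le_trans (le_of_eq ?_) h
    apply sum_congr rfl
    intro e _
    rw [abs_sub_comm]

theorem T_mono {N k l x : ℕ} (hkl : k ≤ l) (hl : l ≤ W.M) (hx : x ≤ d) :
    W.T N k x ≤ W.T N l x := by
  rcases Nat.eq_zero_or_pos N with rfl | hN
  · unfold WW.T WW.cl
    simp
  · have hm : d ≤ d * N := Nat.le_mul_of_pos_right d hN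
    have h0 : ∑ e ∈ range d, ((W.cnt N e l x : ℝ) - W.cnt N e k x) = 0 := by
      rw [lip_sum_cnt W hN hm (hkl.trans hl) hl hx hx, sub_self]
    have h := lip_core_mono _ _ h0 (lip_sum_mul_cnt W hN hm)
      (fun c c' hc => lip_sign W hkl hl c c' hc)
    have h' : (W.T N k x : ℝ) ≤ W.T N l x := by linarith
    exact_mod_cast h'

theorem T_mono_right {N k x y : ℕ} (hxy : x ≤ y) : W.T N k x ≤ W.T N k y := by
  unfold WW.T
  exact sum_le_sum fun i _ => Nat.mul_le_mul_left _ (f_mono W hxy i)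

theorem sum_f_le {k x y : ℕ} (hk : k ≤ W.M) (hxy : x ≤ y) :
    ∑ i, W.f k y i ≤ ∑ i, W.f k x i + (y - x) := by
  have h0 : ∀ z, ∑ i, W.f k z i = min z d := by
    intro z
    rcases le_total z d with h | h
    · rw [sum_f W hk h]
      omega
    · have h1 : ∀ i : Fin W.e, W.f k z i = W.f k d i := by
        intro i
        rw [f_eq_w W (ht_add_le_d W hk i), f_eq_w W ((ht_add_le_d W hk i).trans h)]
      rw [Finset.sum_congr rfl fun i _ => h1 i, sum_f W hk le_rfl]
      omega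
  rw [h0, h0]
  omega

theorem T_lip_right {N m k x y : ℕ} (hN : 0 < N) (hm : d ≤ m * N) (hk : k ≤ W.M) (hxy : x ≤ y) :
    W.T N k y ≤ W.T N k x + m * (y - x) := by
  unfold WW.T
  have h1 : ∀ i : Fin W.e, W.cl N i * W.f k y i ≤
      W.cl N i * W.f k x i + m * (W.f k y i - W.f k x i) := by
    intro i
    have h2 := f_mono W (k := k) hxy i
    have h3 := (cl_lt W hN hm i).le
    calc W.cl N i * W.f k y i = W.cl N i * W.f k x i + W.cl N i * (W.f k y i - W.f k x i) := by
          rw [← Nat.mul_add]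
          congr 1
          omega
      _ ≤ _ := Nat.add_le_add_left (Nat.mul_le_mul_right _ h3) _
  refine (sum_le_sum fun i _ => h1 i).trans ?_
  rw [sum_add_distrib, ← mul_sum]
  apply Nat.add_le_add_left
  apply Nat.mul_le_mul_left
  have h2 : ∑ i, (W.f k y i - W.f k x i) + ∑ i, W.f k x i = ∑ i, W.f k y i := by
    rw [← sum_add_distrib]
    refine Finset.sum_congr rfl fun i _ => ?_
    have := f_mono W (k := k) hxy i
    omega
  have h3 := sum_f_le W hk hxy
  omega

theorem T_step {N m k x : ℕ} (hN : 0 < N) (hm : d ≤ m * N) (hk : k < W.M) (_hx : x ≤ d) :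
    W.T N (k + 1) x ≤ W.T N k x + m * W.mult k := by
  classical
  rw [← sum_B W hk]
  unfold WW.T
  have h1 : ∀ i : Fin W.e, W.cl N i * W.f (k + 1) x i ≤
      W.cl N i * W.f k x i + (if i ∈ W.B k then m * W.w i else 0) := by
    intro i
    split_ifs with h
    · have h2 := f_le_w W (k + 1) x i
      have h3 := (cl_lt W hN hm i).le
      have h4 := Nat.mul_le_mul h3 h2
      omega
    · have h2 : W.f (k + 1) x i = W.f k x i := by
        unfold WW.f
        rw [ht_out W hk h]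
      rw [h2]
      exact Nat.le_add_right _ _
  refine (sum_le_sum fun i _ => h1 i).trans (le_of_eq ?_)
  rw [sum_add_distrib, ← sum_filter, filter_mem_eq_inter, univ_inter, mul_sum]

theorem f_step {k x : ℕ} (hk : k < W.M) (hx : x ≤ W.lo k ∨ W.hi k ≤ x) (i : Fin W.e) :
    W.f (k + 1) x i = W.f k x i := by
  by_cases h : i ∈ W.B k
  · rcases hx with hx | hx
    · rw [f_eq_zero W (hx.trans (lo_le_ht W h)), f_eq_zero W (hx.trans (ht_in_lo W hk h))]
    · rw [f_eq_w W ((ht_le_hi W hk.le h).trans hx), f_eq_w W ((ht_in_hi W hk h).trans hx)]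
  · unfold WW.f
    rw [ht_out W hk h]

theorem T_eq {N k x : ℕ} (hk : k < W.M) (hx : x ≤ W.lo k ∨ W.hi k ≤ x) :
    W.T N (k + 1) x = W.T N k x := by
  unfold WW.T
  exact Finset.sum_congr rfl fun i _ => by rw [f_step W hk hx i]

end Pool.Agent.Helper8.PW
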