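import Pool.Agent.Helper8.PW.Lip
import Pool.Agent.Helper8.PW.Defs

/-! Project PW: the function `tt` in a row. -/

open Finset MeasureTheory
open scoped ENNReal

namespace Pool.Agent.Helper8.PW

open Pool.Agent.Helper8.PL

open WW

theorem row_dense {d : ℕ} (W : WW d) {N m : ℕ} {δ τ : ℝ} (hd : 0 < d) (hN : 0 < N)
    (hm : d ≤ m * N) (hδ : 0 ≤ δ) (hmult : ∀ k < W.M, (W.mult k : ℝ) ≤ δ * d) {k₀ x : ℕ}
    (hk₀ : k₀ ≤ W.M) (hx : x ≤ d) (h0 : W.tt N k₀ x ≤ τ) (h1 : τ ≤ W.tt N W.M x) :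
    ∃ k, k₀ ≤ k ∧ k ≤ W.M ∧ τ - m * δ ≤ W.tt N k x ∧ W.tt N k x ≤ τ := by
  classical
  set S : Finset ℕ := (range (W.M + 1)).filter fun k => k₀ ≤ k ∧ W.tt N k x ≤ τ with hS
  have hne : S.Nonempty := ⟨k₀, by
    rw [hS, mem_filter, mem_range]; exact ⟨by omega, le_rfl, h0⟩⟩
  obtain ⟨k, hkS, hkmax⟩ := S.exists_max_image id hne
  rw [hS, mem_filter, mem_range] at hkS
  obtain ⟨hkM, hk0, hkt⟩ := hkS
  have hmδ : 0 ≤ (m : ℝ) * δ := mul_nonneg (Nat.cast_nonneg _) hδ
  refine ⟨k, hk0, by omega, ?_, hkt⟩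
  rcases Nat.lt_or_ge k W.M with hlt | hge
  · have hnot : ¬ (W.tt N (k + 1) x ≤ τ) := by
      intro hle
      have hmem : k + 1 ∈ S := by
        rw [hS, mem_filter, mem_range]; exact ⟨by omega, by omega, hle⟩
      have := hkmax (k + 1) hmem
      simp only [id] at this
      omega
    push Not at hnot
    have hstep := T_step W (N := N) (m := m) (k := k) (x := x) hN hm hlt hx
    have hstep' : (W.T N (k + 1) x : ℝ) ≤ W.T N k x + m * W.mult k := by exact_mod_cast hstep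
    have hdR : (0 : ℝ) < d := by exact_mod_cast hd
    have hmu : (m : ℝ) * W.mult k ≤ m * (δ * d) :=
      mul_le_mul_of_nonneg_left (hmult k hlt) (Nat.cast_nonneg _)
    have h2 : W.tt N (k + 1) x ≤ W.tt N k x + m * δ := by
      simp only [WW.tt]
      rw [div_add' _ _ _ hdR.ne', div_le_div_iff_of_pos_right hdR]
      nlinarith
    linarith
  · have : k = W.M := by omega
    subst this
    linarith

/-- The version of `row_dense` near a square. -/
theorem row_dense_loc {d : ℕ} (W : WW d) {N m : ℕ} {s t l δ ε τ : ℝ} {v : ℕ → ℝ × ℝ}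
    {b : ℕ → ℝ} (h : W.Loc N m s t l δ ε v b) (hδ : 0 ≤ δ) {k₀ x : ℕ} (hk₀ : k₀ ≤ W.M)
    (hx : x ≤ d) (hxs : |(x : ℝ) / d - s| ≤ 3 * l) (hτ1 : t - 3 * l ≤ τ) (hτ2 : τ ≤ t + 3 * l)
    (h0 : W.tt N k₀ x ≤ τ) :
    ∃ k, k₀ ≤ k ∧ k ≤ W.M ∧ τ - m * δ ≤ W.tt N k x ∧ W.tt N k x ≤ τ := by
  classical
  have h1 : τ ≤ W.tt N W.M x := hτ2.trans (h.inner.top x hx hxs)
  have hd := h.hd
  have hN := h.hN
  have hm := h.hm
  set S : Finset ℕ := (range (W.M + 1)).filter fun k => k₀ ≤ k ∧ W.tt N k x ≤ τ with hS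
  have hne : S.Nonempty := ⟨k₀, by
    rw [hS, mem_filter, mem_range]; exact ⟨by omega, le_rfl, h0⟩⟩
  obtain ⟨k, hkS, hkmax⟩ := S.exists_max_image id hne
  rw [hS, mem_filter, mem_range] at hkS
  obtain ⟨hkM, hk0, hkt⟩ := hkS
  have hmδ : 0 ≤ (m : ℝ) * δ := mul_nonneg (Nat.cast_nonneg _) hδ
  refine ⟨k, hk0, by omega, ?_, hkt⟩
  rcases Nat.lt_or_ge k W.M with hlt | hge
  · have hnot : ¬ (W.tt N (k + 1) x ≤ τ) := by
      intro hle
      have hmem : k + 1 ∈ S := by
        rw [hS, mem_filter, mem_range]; exact ⟨by omega, by omega, hle⟩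
      have := hkmax (k + 1) hmem
      simp only [id] at this
      omega
    push Not at hnot
    have hmult : (W.mult k : ℝ) ≤ δ * d := by
      rcases h.mult k hlt with h2 | h2
      · exact h2
      · exfalso
        by_cases h3 : x ≤ W.lo k ∨ W.hi k ≤ x
        · have h4 := T_eq W (N := N) hlt h3
          have h5 : W.tt N (k + 1) x = W.tt N k x := by
            unfold WW.tt
            rw [h4]
          linarith
        · push Not at h3
          rcases h2 x hx h3.1.le h3.2.le hxs with h4 | h4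
          · linarith
          · linarith
    have hstep := T_step W (N := N) (m := m) (k := k) (x := x) hN hm hlt hx
    have hstep' : (W.T N (k + 1) x : ℝ) ≤ W.T N k x + m * W.mult k := by exact_mod_cast hstep
    have hdR : (0 : ℝ) < d := by exact_mod_cast hd
    have hmu : (m : ℝ) * W.mult k ≤ m * (δ * d) :=
      mul_le_mul_of_nonneg_left hmult (Nat.cast_nonneg _)
    have h2 : W.tt N (k + 1) x ≤ W.tt N k x + m * δ := by
      simp only [WW.tt]
      rw [div_add' _ _ _ hdR.ne', div_le_div_iff_of_pos_right hdR]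
      nlinarith
    linarith
  · have : k = W.M := by omega
    subst this
    linarith

end Pool.Agent.Helper8.PW
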