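import Pool.Agent.Helper8.PL.Sign
import Pool.Agent.Helper8.PW.Rows

/-! Project PW, piece PL-N: the sign of the wedge products. -/

open Finset

namespace Pool.Agent.Helper8.PW

open Pool.Agent.Helper8.PL

open WW

private theorem wsign_diff {d : ℕ} {W : WW d} {N m : ℕ} {s t l δ ε : ℝ} {v : ℕ → ℝ × ℝ}
    {b : ℕ → ℝ} (h : W.Loc N m s t l δ ε v b) {k j x y e : ℕ} (he : e < m)
    (hk : k ≤ W.M) (hj : j ≤ W.M) (hx : x ≤ d) (hy : y ≤ d)
    (hxs : |(x : ℝ) / d - s| ≤ 4 * l) (hys : |(y : ℝ) / d - s| ≤ 4 * l)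
    (hkt : |W.tt N k x - t| ≤ 4 * l) (hjt : |W.tt N j y - t| ≤ 4 * l) :
    |(W.F N e j y - W.F N e k x) - ((v e).1 * ((y : ℝ) / d - (x : ℝ) / d) +
      (v e).2 * (W.tt N j y - W.tt N k x))| ≤ 2 * ε * l := by
  have h1 := h.aff k hk x hx hxs hkt e he
  have h2 := h.aff j hj y hy hys hjt e he
  rw [abs_le] at h1 h2 ⊢
  constructor
  · nlinarith [h1.1, h1.2, h2.1, h2.2]
  · nlinarith [h1.1, h1.2, h2.1, h2.2]

private theorem wsign_F_le {d : ℕ} {W : WW d} {N e k j x y : ℕ}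
    (h : W.cnt N e k x ≤ W.cnt N e j y) : W.F N e k x ≤ W.F N e j y := by
  unfold WW.F
  have : (W.cnt N e k x : ℝ) ≤ W.cnt N e j y := by exact_mod_cast h
  exact div_le_div_of_nonneg_right this (Nat.cast_nonneg d)

private theorem wsign_cnt_mono {d : ℕ} (W : WW d) {N e k x y : ℕ} (hxy : x ≤ y) :
    W.cnt N e k x ≤ W.cnt N e k y := by
  unfold WW.cnt
  exact Finset.sum_le_sum fun i _ => f_mono W hxy i

/-- The main step: everything except the choice of the constants. -/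
private theorem wsign_core {L η σ₀ e : ℝ} {m : ℕ} (hLm : L = 2 * m + 2)
    (hσ₀ : 0 < σ₀) (hLσ : L * σ₀ ≤ 1) (he : 0 < e)
    (hmain : ∀ σ τ v1 v2 w1 w2 : ℝ, σ₀ / 2 ≤ σ → σ ≤ σ₀ → 0 ≤ τ → τ ≤ L * σ →
      |v1| ≤ L → |v2| ≤ L → |w1| ≤ L → |w2| ≤ L →
      -e ≤ v1 * σ + v2 * τ → -e ≤ w1 * σ + w2 * τ →
      (∀ μ, 0 ≤ μ → μ ≤ 1 → μ * v2 - (v1 * σ + v2 * τ) ≤ e ∨
        -e ≤ μ * w2 - (w1 * σ + w2 * τ)) →
      (∀ μ, 0 ≤ μ → μ ≤ 1 → (v1 * σ + v2 * τ) + μ * v2 ≤ e ∨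
        -e ≤ (w1 * σ + w2 * τ) + μ * w2) →
      -η ≤ v1 * w2 - v2 * w1)
    {γ : ℝ} (hγ0 : 0 < γ) (hγσ : γ ≤ σ₀ / 2) (hγ1 : γ ≤ 1) (hmγ : m * γ ≤ 1)
    (hLγ : L * (m * γ) ≤ e / 4)
    {d : ℕ} (W : WW d) {N : ℕ} {s t l δ : ℝ} {v : ℕ → ℝ × ℝ} {b : ℕ → ℝ}
    (h : W.Loc N m s t l δ (e / 8) v b) (hδγ : δ ≤ γ * l) {c c' : ℕ} (hcc : c < c')
    (hc' : c' < m) : -η ≤ wd (v c) (v c') := by
  have hc : c < m := lt_trans hcc hc'
  have hl := h.hl
  have hd : (0 : ℝ) < d := by exact_mod_cast h.hd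
  have hδd := h.one
  have hδ0 : 0 ≤ δ := by
    by_contra hneg
    push Not at hneg
    have h1 : δ * d < 0 * d := mul_lt_mul_of_pos_right hneg hd
    linarith
  have hL2 : 2 ≤ L := by
    rw [hLm]
    have : (0 : ℝ) ≤ m := Nat.cast_nonneg m
    linarith
  have hL0 : 0 < L := by linarith
  have hm0 : (0 : ℝ) ≤ m := Nat.cast_nonneg m
  have hmL : (m : ℝ) ≤ L := by rw [hLm]; linarith
  have hσ1 : σ₀ ≤ 1 := by
    have h1 : 1 * σ₀ ≤ L * σ₀ := mul_le_mul_of_nonneg_right (by linarith) hσ₀.le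
    linarith
  have hinv : 1 / (d : ℝ) ≤ δ := by
    rw [div_le_iff₀ hd]; exact hδd
  have hδl : δ ≤ l := by
    have h1 : γ * l ≤ 1 * l := mul_le_mul_of_nonneg_right hγ1 hl.le
    linarith
  have hmδ : m * δ ≤ m * γ * l := by
    have h1 : m * δ ≤ m * (γ * l) := mul_le_mul_of_nonneg_left hδγ hm0
    linarith
  have hmδl : m * δ ≤ l := by
    have h1 : m * γ * l ≤ 1 * l := mul_le_mul_of_nonneg_right hmγ hl.le
    linarith
  have hs3 := h.inner.left
  have hs1 := h.inner.right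
  have hs0 : 0 ≤ s := by linarith
  -- the rows
  set x0 : ℕ := ⌈s * d⌉₊ with hx0
  set n : ℕ := ⌊σ₀ * l * d⌋₊ with hn
  set x1 : ℕ := x0 + n with hx1
  have hx0a : s * d ≤ x0 := Nat.le_ceil _
  have hx0b : (x0 : ℝ) < s * d + 1 := Nat.ceil_lt_add_one (by positivity)
  have hna : (n : ℝ) ≤ σ₀ * l * d := Nat.floor_le (by positivity)
  have hnb : σ₀ * l * d < n + 1 := Nat.lt_floor_add_one _
  have hX0a : s ≤ (x0 : ℝ) / d := by rw [le_div_iff₀ hd]; exact hx0a
  have hX0b : (x0 : ℝ) / d ≤ s + l := by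
    rw [div_le_iff₀ hd]
    have h1 : δ * d ≤ l * d := mul_le_mul_of_nonneg_right hδl hd.le
    linarith
  have hx1c : (x1 : ℝ) = x0 + n := by rw [hx1]; push_cast; ring
  set σ : ℝ := (n : ℝ) / (l * d) with hσ
  have hld : 0 < l * d := by positivity
  have hσl : σ * l = (x1 : ℝ) / d - (x0 : ℝ) / d := by
    rw [hσ, hx1c]; field_simp; ring
  have hσhi : σ ≤ σ₀ := by
    rw [hσ, div_le_iff₀ hld]; linarith
  have hσlo : σ₀ / 2 ≤ σ := by
    rw [hσ, le_div_iff₀ hld]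
    have h1 : δ * d ≤ γ * l * d := mul_le_mul_of_nonneg_right hδγ hd.le
    have h2 : γ * (l * d) ≤ σ₀ / 2 * (l * d) := mul_le_mul_of_nonneg_right hγσ hld.le
    linarith
  have hσ0 : 0 < σ := by linarith
  have hσl0 : 0 < σ * l := mul_pos hσ0 hl
  have hσl1 : σ * l ≤ l := by
    have h1 : σ * l ≤ 1 * l := mul_le_mul_of_nonneg_right (by linarith) hl.le
    linarith
  have hX1a : s ≤ (x1 : ℝ) / d := by linarith
  have hX1b : (x1 : ℝ) / d ≤ s + 2 * l := by linarith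
  have hx0d : x0 ≤ d := by
    have : (x0 : ℝ) ≤ d := by
      rw [div_le_iff₀ hd] at hX0b
      have h1 : (s + l) * d ≤ 1 * d := mul_le_mul_of_nonneg_right (by linarith) hd.le
      linarith
    exact_mod_cast this
  have hx1d : x1 ≤ d := by
    have : (x1 : ℝ) ≤ d := by
      rw [div_le_iff₀ hd] at hX1b
      have h1 : (s + 2 * l) * d ≤ 1 * d := mul_le_mul_of_nonneg_right (by linarith) hd.le
      linarith
    exact_mod_cast this
  have hx01 : x0 ≤ x1 := Nat.le_add_right _ _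
  have hA0 : |(x0 : ℝ) / d - s| ≤ 3 * l := by rw [abs_le]; constructor <;> linarith
  have hA1 : |(x1 : ℝ) / d - s| ≤ 3 * l := by rw [abs_le]; constructor <;> linarith
  have hA0' : |(x0 : ℝ) / d - s| ≤ 4 * l := by linarith
  have hA1' : |(x1 : ℝ) / d - s| ≤ 4 * l := by linarith
  have hB0 := h.inner.bot x0 hx0d hA0
  have hT0 := h.inner.top x0 hx0d hA0
  have hT1 := h.inner.top x1 hx1d hA1
  -- the first vertex
  obtain ⟨k0, -, hk0, hk0a, hk0b⟩ := row_dense_loc W h (τ := t)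
    hδ0 (k₀ := 0) (x := x0) (Nat.zero_le _) hx0d hA0 (by linarith) (by linarith) (by linarith)
  have hmonoR : W.tt N k0 x0 ≤ W.tt N k0 x1 := by
    unfold WW.tt
    have := T_mono_right W (N := N) (k := k0) hx01
    have : (W.T N k0 x0 : ℝ) ≤ W.T N k0 x1 := by exact_mod_cast this
    exact div_le_div_of_nonneg_right this hd.le
  have hlipR : W.tt N k0 x1 ≤ W.tt N k0 x0 + m * (σ * l) := by
    have h1 := T_lip_right W (N := N) (m := m) h.hN h.hm hk0 hx01
    have h2 : (W.T N k0 x1 : ℝ) ≤ W.T N k0 x0 + m * n := by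
      have h3 : x1 - x0 = n := by omega
      rw [h3] at h1
      exact_mod_cast h1
    unfold WW.tt
    rw [hσl, hx1c, div_le_iff₀ hd]
    have h4 : ((W.T N k0 x0 : ℝ) / d + m * ((x0 + n : ℝ) / d - x0 / d)) * d =
        W.T N k0 x0 + m * n := by field_simp; ring
    rw [h4]; exact h2
  set τ : ℝ := (W.tt N k0 x1 - W.tt N k0 x0) / l with hτ
  have hτl : τ * l = W.tt N k0 x1 - W.tt N k0 x0 := by
    rw [hτ]; field_simp
  have hτ0 : 0 ≤ τ := div_nonneg (by linarith) hl.le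
  have hτL : τ ≤ L * σ := by
    rw [hτ, div_le_iff₀ hl]
    have : m * (σ * l) ≤ L * (σ * l) := mul_le_mul_of_nonneg_right hmL (by positivity)
    linarith
  have hτl1 : τ * l ≤ l := by
    have h1 : τ ≤ 1 := by
      have : L * σ ≤ L * σ₀ := mul_le_mul_of_nonneg_left hσhi hL0.le
      linarith
    have h2 : τ * l ≤ 1 * l := mul_le_mul_of_nonneg_right h1 hl.le
    linarith
  have hC00 : |W.tt N k0 x0 - t| ≤ 4 * l := by rw [abs_le]; constructor <;> linarith
  have hC01 : |W.tt N k0 x1 - t| ≤ 4 * l := by rw [abs_le]; constructor <;> linarith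
  -- the differences in one row
  have hpos : ∀ a < m, -e ≤ (v a).1 * σ + (v a).2 * τ := by
    intro a ha
    have h1 := wsign_diff h ha hk0 hk0 hx0d hx1d hA0' hA1' hC00 hC01
    rw [← hσl, ← hτl, abs_le] at h1
    have h2 : W.F N a k0 x0 ≤ W.F N a k0 x1 := wsign_F_le (wsign_cnt_mono W hx01)
    have h5 : 0 < e * l := mul_pos he hl
    have h4 : -e * l ≤ ((v a).1 * σ + (v a).2 * τ) * l := by linarith [h1.1, h1.2]
    exact le_of_mul_le_mul_right h4 hl
  have hvb : ∀ a < m, |(v a).2| ≤ L := fun a ha => by rw [hLm]; exact h.v2 a ha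
  have hva : ∀ a < m, |(v a).1| ≤ L := fun a ha => by rw [hLm]; exact h.v1 a ha
  -- a small change of the parameter
  have hsmall : ∀ a < m, ∀ μ μ' : ℝ, μ' ≤ μ → μ * l - m * δ ≤ μ' * l →
      |(μ - μ') * (v a).2| ≤ e / 4 := by
    intro a ha μ μ' h1 h2
    rw [abs_mul, abs_of_nonneg (by linarith : 0 ≤ μ - μ')]
    have h3 : (μ - μ') * l ≤ m * γ * l := by linarith
    have h4 : μ - μ' ≤ m * γ := le_of_mul_le_mul_right h3 hl
    calc (μ - μ') * |(v a).2| ≤ (m * γ) * L :=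
          mul_le_mul h4 (hvb a ha) (abs_nonneg _) (by positivity)
      _ = L * (m * γ) := by ring
      _ ≤ e / 4 := hLγ
  unfold wd
  refine hmain σ τ _ _ _ _ hσlo hσhi hτ0 hτL (hva c hc) (hvb c hc) (hva c' hc') (hvb c' hc')
    (hpos c hc) (hpos c' hc') ?_ ?_
  · intro μ hμ0 hμ1
    have hμl : μ * l ≤ l := by
      have h1 : μ * l ≤ 1 * l := mul_le_mul_of_nonneg_right hμ1 hl.le
      linarith
    have hμl0 : 0 ≤ μ * l := by positivity
    obtain ⟨k1, hk01, hk1, hk1a, hk1b⟩ := row_dense_loc W h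
      (τ := W.tt N k0 x0 + μ * l) hδ0 (k₀ := k0) (x := x0) hk0 hx0d hA0
      (by linarith) (by linarith) (by linarith)
    set μ' : ℝ := (W.tt N k1 x0 - W.tt N k0 x0) / l with hμ'
    have hμ'l : μ' * l = W.tt N k1 x0 - W.tt N k0 x0 := by rw [hμ']; field_simp
    have hμ1' : μ' ≤ μ := by rw [hμ', div_le_iff₀ hl]; linarith
    have hμ2' : μ * l - m * δ ≤ μ' * l := by rw [hμ'l]; linarith
    have hC : |W.tt N k1 x0 - t| ≤ 4 * l := by rw [abs_le]; constructor <;> linarith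
    have hdiff : ∀ a < m, |(W.F N a k1 x0 - W.F N a k0 x1) -
        (μ' * (v a).2 - ((v a).1 * σ + (v a).2 * τ)) * l| ≤ e / 4 * l := by
      intro a ha
      have h1 := wsign_diff h ha hk0 hk1 hx1d hx0d hA1' hA0' hC01 hC
      have h2 : (v a).1 * ((x0 : ℝ) / d - (x1 : ℝ) / d) +
          (v a).2 * (W.tt N k1 x0 - W.tt N k0 x1) =
          (μ' * (v a).2 - ((v a).1 * σ + (v a).2 * τ)) * l := by
        have e1 : (x0 : ℝ) / d - (x1 : ℝ) / d = -(σ * l) := by rw [hσl]; ring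
        have e2 : W.tt N k1 x0 - W.tt N k0 x1 = μ' * l - τ * l := by rw [hμ'l, hτl]; ring
        rw [e1, e2]; ring
      rw [h2] at h1
      calc _ ≤ 2 * (e / 8) * l := h1
        _ = e / 4 * l := by ring
    rcases cnt_sign W (N := N) (x := x1) (y := x0) hk01 hk1 hcc with h1 | h1
    · left
      have h2 := wsign_F_le h1
      have h3 := hdiff c hc
      have h4 := hsmall c hc μ μ' hμ1' hμ2'
      rw [abs_le] at h3 h4
      have h5 : (μ' * (v c).2 - ((v c).1 * σ + (v c).2 * τ)) * l ≤ e / 4 * l := by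
        linarith [h3.1, h3.2]
      have h6 := le_of_mul_le_mul_right h5 hl
      linarith [h4.1, h4.2]
    · right
      have h2 := wsign_F_le h1
      have h3 := hdiff c' hc'
      have h4 := hsmall c' hc' μ μ' hμ1' hμ2'
      rw [abs_le] at h3 h4
      have h5 : -(e / 4) * l ≤ (μ' * (v c').2 - ((v c').1 * σ + (v c').2 * τ)) * l := by
        linarith [h3.1, h3.2]
      have h6 := le_of_mul_le_mul_right h5 hl
      linarith [h4.1, h4.2]
  · intro μ hμ0 hμ1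
    have hμl : μ * l ≤ l := by
      have h1 : μ * l ≤ 1 * l := mul_le_mul_of_nonneg_right hμ1 hl.le
      linarith
    have hμl0 : 0 ≤ μ * l := by positivity
    obtain ⟨k1, hk01, hk1, hk1a, hk1b⟩ := row_dense_loc W h
      (τ := W.tt N k0 x1 + μ * l) hδ0 (k₀ := k0) (x := x1) hk0 hx1d hA1
      (by linarith) (by linarith) (by linarith)
    set μ' : ℝ := (W.tt N k1 x1 - W.tt N k0 x1) / l with hμ'
    have hμ'l : μ' * l = W.tt N k1 x1 - W.tt N k0 x1 := by rw [hμ']; field_simp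
    have hμ1' : μ' ≤ μ := by rw [hμ', div_le_iff₀ hl]; linarith
    have hμ2' : μ * l - m * δ ≤ μ' * l := by rw [hμ'l]; linarith
    have hC : |W.tt N k1 x1 - t| ≤ 4 * l := by rw [abs_le]; constructor <;> linarith
    have hdiff : ∀ a < m, |(W.F N a k1 x1 - W.F N a k0 x0) -
        (((v a).1 * σ + (v a).2 * τ) + μ' * (v a).2) * l| ≤ e / 4 * l := by
      intro a ha
      have h1 := wsign_diff h ha hk0 hk1 hx0d hx1d hA0' hA1' hC00 hC
      have h2 : (v a).1 * ((x1 : ℝ) / d - (x0 : ℝ) / d) +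
          (v a).2 * (W.tt N k1 x1 - W.tt N k0 x0) =
          (((v a).1 * σ + (v a).2 * τ) + μ' * (v a).2) * l := by
        have e2 : W.tt N k1 x1 - W.tt N k0 x0 = μ' * l + τ * l := by rw [hμ'l, hτl]; ring
        rw [← hσl, e2]; ring
      rw [h2] at h1
      calc _ ≤ 2 * (e / 8) * l := h1
        _ = e / 4 * l := by ring
    rcases cnt_sign W (N := N) (x := x0) (y := x1) hk01 hk1 hcc with h1 | h1
    · left
      have h2 := wsign_F_le h1
      have h3 := hdiff c hc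
      have h4 := hsmall c hc μ μ' hμ1' hμ2'
      rw [abs_le] at h3 h4
      have h5 : (((v c).1 * σ + (v c).2 * τ) + μ' * (v c).2) * l ≤ e / 4 * l := by
        linarith [h3.1, h3.2]
      have h6 := le_of_mul_le_mul_right h5 hl
      linarith [h4.1, h4.2]
    · right
      have h2 := wsign_F_le h1
      have h3 := hdiff c' hc'
      have h4 := hsmall c' hc' μ μ' hμ1' hμ2'
      rw [abs_le] at h3 h4
      have h5 : -(e / 4) * l ≤ (((v c').1 * σ + (v c').2 * τ) + μ' * (v c').2) * l := by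
        linarith [h3.1, h3.2]
      have h6 := le_of_mul_le_mul_right h5 hl
      linarith [h4.1, h4.2]

/-- The wedge products of the local velocity vectors are almost nonnegative. -/
theorem wd_ge (m : ℕ) {η : ℝ} (hη : 0 < η) : ∃ ε γ : ℝ, 0 < ε ∧ 0 < γ ∧
    ∀ {d : ℕ} (W : WW d) {N : ℕ} {s t l δ : ℝ} {v : ℕ → ℝ × ℝ} {b : ℕ → ℝ},
      W.Loc N m s t l δ ε v b → δ ≤ γ * l → ∀ c c', c < c' → c' < m →
        -η ≤ wd (v c) (v c') := by
  have hm0 : (0 : ℝ) ≤ m := Nat.cast_nonneg m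
  have hL : (1 : ℝ) ≤ 2 * m + 2 := by linarith
  have hη' : 0 < min η 1 := lt_min hη one_pos
  obtain ⟨σ₀, e, hσ₀, hLσ, he, hmain⟩ := sign_lemma hL hη' (min_le_right η 1)
  have hden : (0 : ℝ) < 4 * (2 * m + 2) * (m + 1) := by positivity
  refine ⟨e / 8, min (σ₀ / 2) (min (1 / (m + 1)) (e / (4 * (2 * m + 2) * (m + 1)))),
    by positivity, lt_min (by positivity) (lt_min (by positivity) (by positivity)), ?_⟩
  intro d W N s t l δ v b h hδ c c' hcc hc'
  set γ : ℝ := min (σ₀ / 2) (min (1 / (m + 1)) (e / (4 * (2 * m + 2) * (m + 1)))) with hγ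
  have hγ0 : 0 < γ := lt_min (by positivity) (lt_min (by positivity) (by positivity))
  have hγ1 : γ ≤ σ₀ / 2 := min_le_left _ _
  have hγ2 : γ ≤ 1 / (m + 1) := le_trans (min_le_right _ _) (min_le_left _ _)
  have hγ3 : γ ≤ e / (4 * (2 * m + 2) * (m + 1)) :=
    le_trans (min_le_right _ _) (min_le_right _ _)
  rw [le_div_iff₀ (by positivity)] at hγ2
  rw [le_div_iff₀ hden] at hγ3
  have h1 : γ ≤ 1 := by nlinarith
  have h2 : m * γ ≤ 1 := by nlinarith
  have h3 : (2 * m + 2) * (m * γ) ≤ e / 4 := by nlinarith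
  have h4 := wsign_core (L := 2 * m + 2) (η := min η 1) rfl hσ₀ hLσ he hmain hγ0 hγ1 h1 h2 h3
    W h hδ hcc hc'
  linarith [min_le_left η 1]

end Pool.Agent.Helper8.PW
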