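import Pool.Agent.Helper8.PW.MUp
import Pool.Agent.Helper8.PW.WSign
import Pool.Agent.Helper8.PW.WSum
import Pool.Agent.Helper8.PW.ALow

/-! Project PW: the local lemma. -/

open Finset MeasureTheory
open scoped ENNReal

namespace Pool.Agent.Helper8.PW

open Pool.Agent.Helper8.PL

open WW

theorem locl_mono {d : ℕ} {W : WW d} {N m : ℕ} {s t l δ ε ε' : ℝ} {v : ℕ → ℝ × ℝ}
    {b : ℕ → ℝ} (h : W.Loc N m s t l δ ε v b) (hε : ε ≤ ε') : W.Loc N m s t l δ ε' v b := by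
  refine ⟨h.hd, h.hN, h.hm, h.hl, h.mult, h.one, h.inner, h.v1, h.v2, ?_⟩
  intro k hk x hx h1 h2 e he
  exact (h.aff k hk x hx h1 h2 e he).trans (mul_le_mul_of_nonneg_right hε h.hl.le)

theorem locl_sum {m : ℕ} (f : ℕ → ℕ → ℝ) :
    (∑ c ∈ range m, ∑ c' ∈ range m, if c < c' then f c c' else 0) =
      ∑ p ∈ (range m ×ˢ range m).filter (fun p : ℕ × ℕ => p.1 < p.2), f p.1 p.2 := by
  rw [Finset.sum_filter, Finset.sum_product]

theorem loc (m : ℕ) {η : ℝ} (hη : 0 < η) : ∃ ε γ : ℝ, 0 < ε ∧ 0 < γ ∧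
    ∀ {d : ℕ} (W : WW d) {N : ℕ} {s t l δ : ℝ} {v : ℕ → ℝ × ℝ} {b : ℕ → ℝ},
      W.Loc N m s t l δ ε v b → δ ≤ γ * l → ∀ c c', c < c' → c' < m →
        |W.mass N c c' (W.VQ N s t l) - |wd (v c) (v c')| * l ^ 2| ≤ η * l ^ 2 := by
  have hK : (0 : ℝ) < ((m : ℝ) + 1) ^ 3 := by positivity
  obtain ⟨η', hη'⟩ : ∃ η' : ℝ, η' = η / (20 * ((m : ℝ) + 1) ^ 3) := ⟨_, rfl⟩
  have h0 : 0 < η' := by
    rw [hη']
    positivity
  have hKη : ((m : ℝ) + 1) ^ 3 * η' = η / 20 := by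
    rw [hη']
    field_simp
  obtain ⟨ε1, γ1, hε1, hγ1, H1⟩ := mass_upper m h0
  obtain ⟨ε2, γ2, hε2, hγ2, H2⟩ := wd_ge m h0
  obtain ⟨ε3, γ3, hε3, hγ3, H3⟩ := sum_wd m h0
  have hm1 : (0 : ℝ) < (m : ℝ) + 1 := by positivity
  obtain ⟨γ4, hγ4⟩ : ∃ γ4 : ℝ, γ4 = min (η / (20 * ((m : ℝ) + 1))) (1 / (6 * ((m : ℝ) + 1))) :=
    ⟨_, rfl⟩
  have hγ4' : 0 < γ4 := by
    rw [hγ4]
    exact lt_min (by positivity) (by positivity)
  refine ⟨min ε1 (min ε2 ε3), min γ4 (min γ1 (min γ2 γ3)), lt_min hε1 (lt_min hε2 hε3),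
    lt_min hγ4' (lt_min hγ1 (lt_min hγ2 hγ3)), ?_⟩
  intro d W N s t l δ v b h hδ c c' hc hc'
  have hl := h.hl
  have hmin : ∀ γ' : ℝ, min γ4 (min γ1 (min γ2 γ3)) ≤ γ' → δ ≤ γ' * l := fun γ' h' =>
    hδ.trans (mul_le_mul_of_nonneg_right h' hl.le)
  have hd1 : δ ≤ γ1 * l := hmin _ ((min_le_right _ _).trans (min_le_left _ _))
  have hd2 : δ ≤ γ2 * l := hmin _ ((min_le_right _ _).trans ((min_le_right _ _).trans
    (min_le_left _ _)))
  have hd3 : δ ≤ γ3 * l := hmin _ ((min_le_right _ _).trans ((min_le_right _ _).trans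
    (min_le_right _ _)))
  have hd4 : δ ≤ γ4 * l := hmin _ (min_le_left _ _)
  have hd5 : δ ≤ η / (20 * ((m : ℝ) + 1)) * l :=
    hd4.trans (mul_le_mul_of_nonneg_right (by rw [hγ4]; exact min_le_left _ _) hl.le)
  have hd6 : δ ≤ 1 / (6 * ((m : ℝ) + 1)) * l :=
    hd4.trans (mul_le_mul_of_nonneg_right (by rw [hγ4]; exact min_le_right _ _) hl.le)
  have g1 := H1 W (locl_mono h (min_le_left _ _)) hd1
  have g2 := H2 W (locl_mono h ((min_le_right _ _).trans (min_le_left _ _))) hd2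
  have g3 := H3 W (locl_mono h ((min_le_right _ _).trans (min_le_right _ _))) hd3
  have hδ0 : 0 < δ := by
    by_contra hcon
    have h1 := h.one
    have h2 : δ * (d : ℝ) ≤ 0 := mul_nonpos_of_nonpos_of_nonneg (not_lt.1 hcon) (by positivity)
    linarith
  have hmd : ((m : ℝ) + 1) * δ ≤ l / 6 := by
    calc ((m : ℝ) + 1) * δ ≤ ((m : ℝ) + 1) * (1 / (6 * ((m : ℝ) + 1)) * l) :=
          mul_le_mul_of_nonneg_left hd6 hm1.le
      _ = l / 6 := by field_simp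
  have hmd' : ((m : ℝ) + 1) * δ ≤ η / 20 * l := by
    calc ((m : ℝ) + 1) * δ ≤ ((m : ℝ) + 1) * (η / (20 * ((m : ℝ) + 1)) * l) :=
          mul_le_mul_of_nonneg_left hd5 hm1.le
      _ = η / 20 * l := by field_simp
  have hm0 : (0 : ℝ) ≤ m := by positivity
  have hmδ : 0 ≤ (m : ℝ) * δ := by positivity
  have g4 := area_lower W h (by nlinarith) (by nlinarith)
  have g5 : l ^ 2 - η / 4 * l ^ 2 ≤ (l - 3 * m * δ) * (l - 2 * δ) := by
    have e1 : 3 * (m : ℝ) * δ + 2 * δ ≤ η / 4 * l := by nlinarith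
    have e2 : 0 ≤ 3 * (m : ℝ) * δ * (2 * δ) := by positivity
    nlinarith [mul_le_mul_of_nonneg_right e1 hl.le]
  -- all the pairs
  obtain ⟨P, hP⟩ : ∃ P : Finset (ℕ × ℕ), P = (range m ×ˢ range m).filter
    (fun p : ℕ × ℕ => p.1 < p.2) := ⟨_, rfl⟩
  have hPm : ∀ p ∈ P, p.1 < p.2 ∧ p.2 < m := by
    intro p hp
    rw [hP, mem_filter, mem_product, mem_range, mem_range] at hp
    exact ⟨hp.2, hp.1.2⟩
  have hcP : ((c, c') : ℕ × ℕ) ∈ P := by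
    rw [hP, mem_filter, mem_product, mem_range, mem_range]
    exact ⟨⟨hc.trans hc', hc'⟩, hc⟩
  rw [locl_sum, ← hP] at g3
  rw [locl_sum (fun c c' => ((c' : ℝ) - c) * W.mass N c c' (W.VQ N s t l)), ← hP] at g4
  have hg1 : ∀ p ∈ P, (1 : ℝ) ≤ (p.2 : ℝ) - p.1 := by
    intro p hp
    have : (p.1 : ℝ) + 1 ≤ p.2 := by exact_mod_cast (hPm p hp).1
    linarith
  have hg2 : ∀ p ∈ P, (p.2 : ℝ) - p.1 ≤ m := by
    intro p hp
    have h1 : (p.2 : ℝ) ≤ m := by exact_mod_cast (hPm p hp).2.le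
    have h2 : (0 : ℝ) ≤ p.1 := by positivity
    linarith
  have hPc : (P.card : ℝ) ≤ (m : ℝ) ^ 2 := by
    have h1 : P.card ≤ m * m := by
      rw [hP]
      exact (card_filter_le _ _).trans (by rw [card_product, card_range])
    have h2 : (P.card : ℝ) ≤ (m : ℝ) * m := by exact_mod_cast h1
    nlinarith
  have hG : ∑ p ∈ P, ((p.2 : ℝ) - p.1) ≤ ((m : ℝ) + 1) ^ 3 := by
    calc ∑ p ∈ P, ((p.2 : ℝ) - p.1) ≤ ∑ p ∈ P, (m : ℝ) := Finset.sum_le_sum hg2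
      _ = P.card * m := by rw [sum_const, nsmul_eq_mul]
      _ ≤ (m : ℝ) ^ 2 * m := mul_le_mul_of_nonneg_right hPc hm0
      _ ≤ ((m : ℝ) + 1) ^ 3 := by nlinarith
  have hG0 : 0 ≤ ∑ p ∈ P, ((p.2 : ℝ) - p.1) :=
    Finset.sum_nonneg fun p hp => by linarith [hg1 p hp]
  -- the sum of the absolute values
  have hJ : ∑ p ∈ P, ((p.2 : ℝ) - p.1) * |wd (v p.1) (v p.2)| ≤ 1 + η' + 2 * (η / 20) := by
    have e1 : ∀ p ∈ P, ((p.2 : ℝ) - p.1) * |wd (v p.1) (v p.2)| ≤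
        ((p.2 : ℝ) - p.1) * wd (v p.1) (v p.2) + ((p.2 : ℝ) - p.1) * (2 * η') := by
      intro p hp
      rw [← mul_add]
      refine mul_le_mul_of_nonneg_left ?_ (by linarith [hg1 p hp])
      have := g2 p.1 p.2 (hPm p hp).1 (hPm p hp).2
      rw [abs_le]
      constructor <;> linarith
    have e2 := Finset.sum_le_sum e1
    rw [sum_add_distrib, ← sum_mul] at e2
    have e3 := (abs_le.1 g3).2
    have e4 : (∑ p ∈ P, ((p.2 : ℝ) - p.1)) * (2 * η') ≤ ((m : ℝ) + 1) ^ 3 * (2 * η') :=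
      mul_le_mul_of_nonneg_right hG (by positivity)
    have e5 : ((m : ℝ) + 1) ^ 3 * (2 * η') = 2 * (η / 20) := by
      rw [← hKη]
      ring
    linarith
  have hl2 : 0 < l ^ 2 := by positivity
  have hη20 : η' ≤ η / 20 := by
    have : (1 : ℝ) ≤ ((m : ℝ) + 1) ^ 3 := one_le_pow₀ (by linarith)
    rw [← hKη]
    exact le_mul_of_one_le_left h0.le this
  -- the nonnegative terms
  have hf0 : ∀ p ∈ P, 0 ≤ ((p.2 : ℝ) - p.1) * (|wd (v p.1) (v p.2)| * l ^ 2 -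
      W.mass N p.1 p.2 (W.VQ N s t l) + η' * l ^ 2) := by
    intro p hp
    refine mul_nonneg (by linarith [hg1 p hp]) ?_
    have := g1 p.1 p.2 (hPm p hp).1 (hPm p hp).2
    rw [add_mul] at this
    linarith
  have hf1 := Finset.single_le_sum hf0 hcP
  have hf2 : ∑ p ∈ P, ((p.2 : ℝ) - p.1) * (|wd (v p.1) (v p.2)| * l ^ 2 -
      W.mass N p.1 p.2 (W.VQ N s t l) + η' * l ^ 2) =
      (∑ p ∈ P, ((p.2 : ℝ) - p.1) * |wd (v p.1) (v p.2)|) * l ^ 2 -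
      (∑ p ∈ P, ((p.2 : ℝ) - p.1) * W.mass N p.1 p.2 (W.VQ N s t l)) +
      (∑ p ∈ P, ((p.2 : ℝ) - p.1)) * (η' * l ^ 2) := by
    rw [sum_mul, sum_mul, ← sum_sub_distrib, ← sum_add_distrib]
    refine Finset.sum_congr rfl fun p _ => ?_
    ring
  have hup := g1 c c' hc hc'
  rw [add_mul] at hup
  have hpos : 0 ≤ |wd (v c) (v c')| * l ^ 2 - W.mass N c c' (W.VQ N s t l) + η' * l ^ 2 := by
    linarith
  have hf3 : |wd (v c) (v c')| * l ^ 2 - W.mass N c c' (W.VQ N s t l) + η' * l ^ 2 ≤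
      ((c' : ℝ) - c) * (|wd (v c) (v c')| * l ^ 2 -
      W.mass N c c' (W.VQ N s t l) + η' * l ^ 2) :=
    le_mul_of_one_le_left hpos (hg1 (c, c') hcP)
  have hf4 : (∑ p ∈ P, ((p.2 : ℝ) - p.1)) * (η' * l ^ 2) ≤ η / 20 * l ^ 2 := by
    calc (∑ p ∈ P, ((p.2 : ℝ) - p.1)) * (η' * l ^ 2) ≤ ((m : ℝ) + 1) ^ 3 * (η' * l ^ 2) :=
          mul_le_mul_of_nonneg_right hG (by positivity)
      _ = η / 20 * l ^ 2 := by rw [← mul_assoc, hKη]
  have hf5 := mul_le_mul_of_nonneg_right hJ hl2.le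
  have hf6 : |wd (v c) (v c')| * l ^ 2 - W.mass N c c' (W.VQ N s t l) + η' * l ^ 2 ≤
      η / 2 * l ^ 2 := by
    refine hf3.trans (hf1.trans ?_)
    rw [hf2]
    have e1 : (1 + η' + 2 * (η / 20)) * l ^ 2 ≤ (1 + η / 20 + 2 * (η / 20)) * l ^ 2 :=
      mul_le_mul_of_nonneg_right (by linarith) hl2.le
    have e2 : 0 < η * l ^ 2 := by positivity
    linarith
  have e1 : 0 < η' * l ^ 2 := by positivity
  have e2 : η' * l ^ 2 ≤ η / 20 * l ^ 2 := mul_le_mul_of_nonneg_right hη20 hl2.le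
  have e3 : 0 < η * l ^ 2 := by positivity
  rw [abs_le]
  constructor
  · linarith
  · linarith

end Pool.Agent.Helper8.PW
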