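import Pool.Agent.Helper8.PW.Basic

/-! Project PW: the rectangles of the vertices are disjoint. -/

open Finset MeasureTheory
open scoped ENNReal

namespace Pool.Agent.Helper8.PW

open Pool.Agent.Helper8.PL

variable {d : ℕ} (W : WW d)

/-- the cut after the vertex `k` which separates the classes `≥ c'` from the class `c` -/
private theorem rect_after {N c c' k : ℕ} (hc : c < c') (hk : k < W.M) :
    ∃ x, W.cnt N c (k + 1) x = W.cnt N c k (W.lo k) ∧
      W.cnt N c' (k + 1) x = W.cnt N c' k (W.hi k) := by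
  classical
  have hex : ∃ g, W.U.lo k ≤ g ∧ ∀ i : Fin W.e, W.U.lo k ≤ W.U.pos k i →
      W.U.pos k i < W.U.hi k → c' ≤ W.cl N i → W.U.pos (k + 1) i < g := by
    refine ⟨W.U.hi k, by have := W.U.two_le k hk; omega, fun i h1 h2 _ => ?_⟩
    have := W.U.flip k hk i h1 h2
    omega
  obtain ⟨hx1, hx2⟩ := Nat.find_spec hex
  have hx3 : Nat.find hex ≤ W.U.hi k := by
    apply Nat.find_min' hex
    refine ⟨by have := W.U.two_le k hk; omega, fun i h1 h2 _ => ?_⟩
    have := W.U.flip k hk i h1 h2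
    omega
  have hx4 : ∀ i : Fin W.e, W.U.lo k ≤ W.U.pos k i → W.U.pos k i < W.U.hi k → W.cl N i = c →
      Nat.find hex ≤ W.U.pos (k + 1) i := by
    intro i h1 h2 h3
    by_contra h4
    push Not at h4
    have hf := W.U.flip k hk i h1 h2
    have hmin := Nat.find_min hex (m := Nat.find hex - 1) (by omega)
    apply hmin
    refine ⟨by omega, fun j hj1 hj2 hj3 => ?_⟩
    have hfj := W.U.flip k hk j hj1 hj2
    have hij : i < j := lt_of_cl_lt W (N := N) (by omega)
    have hpos : W.U.pos k i < W.U.pos k j := by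
      rcases lt_trichotomy (W.U.pos k i) (W.U.pos k j) with h | h | h
      · exact h
      · exact absurd (pos_inj W.U hk.le h) hij.ne
      · exact absurd (W.U.sorted k hk j i hj1 h h2) (not_lt.2 hij.le)
    omega
  obtain ⟨g, hg⟩ : ∃ g : ℕ, g = Nat.find hex := ⟨_, rfl⟩
  rw [← hg] at hx1 hx2 hx3 hx4
  have hk1 : k + 1 ≤ W.M := hk
  -- the lines below and above the gap
  have below : ∀ i : Fin W.e, W.U.pos (k + 1) i < g →
      W.f (k + 1) (W.hh (k + 1) g) i = W.w i := by
    intro i h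
    apply f_eq_w
    rw [← hh_succ W hk1 i]
    exact hh_mono W h
  have above : ∀ i : Fin W.e, g ≤ W.U.pos (k + 1) i →
      W.f (k + 1) (W.hh (k + 1) g) i = 0 := by
    intro i h
    apply f_eq_zero
    exact hh_mono W h
  have hlohi := lo_le_hi W hk
  refine ⟨W.hh (k + 1) g, ?_, ?_⟩
  · unfold WW.cnt
    refine Finset.sum_congr rfl fun i hi => ?_
    have hi' := (mem_filter.1 hi).2
    rcases basic_step W.U hk i with h | h
    · rcases h.1 with h1 | h1
      · rw [below i (by omega), f_eq_w W]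
        rw [← hh_succ W hk.le i]
        exact hh_mono W h1
      · rw [above i (by omega), f_eq_zero W]
        exact hh_mono W (by have := W.U.two_le k hk; omega)
    · rw [above i (hx4 i h.1.1 h.1.2 hi'), f_eq_zero W]
      exact hh_mono W h.1.1
  · unfold WW.cnt
    refine Finset.sum_congr rfl fun i hi => ?_
    have hi' := (mem_filter.1 hi).2
    rcases basic_step W.U hk i with h | h
    · rcases h.1 with h1 | h1
      · rw [below i (by omega), f_eq_w W]
        rw [← hh_succ W hk.le i]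
        exact hh_mono W (by have := W.U.two_le k hk; omega)
      · rw [above i (by omega), f_eq_zero W]
        exact hh_mono W h1
    · rw [below i (hx2 i h.1.1 h.1.2 hi'.ge), f_eq_w W]
      rw [← hh_succ W hk.le i]
      exact hh_mono W h.1.2

/-- the cut before the vertex `l` which separates the classes `≤ c` from the class `c'` -/
private theorem rect_before {N c c' l : ℕ} (hc : c < c') (hl : l < W.M) :
    ∃ y, W.cnt N c l y = W.cnt N c l (W.hi l) ∧
      W.cnt N c' l y = W.cnt N c' l (W.lo l) := by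
  classical
  have hex : ∃ g, W.U.lo l ≤ g ∧ ∀ i : Fin W.e, W.U.lo l ≤ W.U.pos l i →
      W.U.pos l i < W.U.hi l → W.cl N i ≤ c → W.U.pos l i < g :=
    ⟨W.U.hi l, by have := W.U.two_le l hl; omega, fun i h1 h2 _ => h2⟩
  obtain ⟨hx1, hx2⟩ := Nat.find_spec hex
  have hx3 : Nat.find hex ≤ W.U.hi l :=
    Nat.find_min' hex ⟨by have := W.U.two_le l hl; omega, fun i h1 h2 _ => h2⟩
  have hx4 : ∀ i : Fin W.e, W.U.lo l ≤ W.U.pos l i → W.U.pos l i < W.U.hi l →
      W.cl N i = c' → Nat.find hex ≤ W.U.pos l i := by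
    intro i h1 h2 h3
    by_contra h4
    push Not at h4
    have hmin := Nat.find_min hex (m := Nat.find hex - 1) (by omega)
    apply hmin
    refine ⟨by omega, fun j hj1 hj2 hj3 => ?_⟩
    have hji : j < i := lt_of_cl_lt W (N := N) (by omega)
    have hpos : W.U.pos l j < W.U.pos l i := by
      rcases lt_trichotomy (W.U.pos l j) (W.U.pos l i) with h | h | h
      · exact h
      · exact absurd (pos_inj W.U hl.le h) hji.ne
      · exact absurd (W.U.sorted l hl i j h1 h hj2) (not_lt.2 hji.le)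
    omega
  obtain ⟨g, hg⟩ : ∃ g : ℕ, g = Nat.find hex := ⟨_, rfl⟩
  rw [← hg] at hx1 hx2 hx3 hx4
  -- the lines below and above the gap
  have below : ∀ i : Fin W.e, W.U.pos l i < g → W.f l (W.hh l g) i = W.w i := by
    intro i h
    apply f_eq_w
    rw [← hh_succ W hl.le i]
    exact hh_mono W h
  have above : ∀ i : Fin W.e, g ≤ W.U.pos l i → W.f l (W.hh l g) i = 0 := by
    intro i h
    apply f_eq_zero
    exact hh_mono W h
  have below2 : ∀ (i : Fin W.e) (g' : ℕ), W.U.pos l i < g' → W.f l (W.hh l g') i = W.w i := by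
    intro i g' h
    apply f_eq_w
    rw [← hh_succ W hl.le i]
    exact hh_mono W h
  have above2 : ∀ (i : Fin W.e) (g' : ℕ), g' ≤ W.U.pos l i → W.f l (W.hh l g') i = 0 := by
    intro i g' h
    apply f_eq_zero
    exact hh_mono W h
  refine ⟨W.hh l g, ?_, ?_⟩
  · unfold WW.cnt
    refine Finset.sum_congr rfl fun i hi => ?_
    have hi' := (mem_filter.1 hi).2
    rcases lt_or_ge (W.U.pos l i) (W.U.hi l) with h | h
    · have e1 : W.f l (W.hi l) i = W.w i := below2 i _ h
      rw [e1]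
      rcases lt_or_ge (W.U.pos l i) (W.U.lo l) with h1 | h1
      · exact below i (by omega)
      · exact below i (hx2 i h1 h hi'.le)
    · have e1 : W.f l (W.hi l) i = 0 := above2 i _ h
      rw [e1]
      exact above i (by omega)
  · unfold WW.cnt
    refine Finset.sum_congr rfl fun i hi => ?_
    have hi' := (mem_filter.1 hi).2
    rcases lt_or_ge (W.U.pos l i) (W.U.lo l) with h | h
    · have e1 : W.f l (W.lo l) i = W.w i := below2 i _ h
      rw [e1]
      exact below i (by omega)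
    · have e1 : W.f l (W.lo l) i = 0 := above2 i _ h
      rw [e1]
      rcases lt_or_ge (W.U.pos l i) (W.U.hi l) with h1 | h1
      · exact above i (hx4 i h h1 hi')
      · exact above i (by omega)

/-- the rectangles of different vertices are disjoint -/
theorem rect_disj {N c c' k l : ℕ} (hc : c < c') (hkl : k < l) (hl : l < W.M) {r s : ℕ}
    (h1 : W.cnt N c k (W.lo k) ≤ r) (h2 : r < W.cnt N c k (W.hi k))
    (h3 : W.cnt N c' k (W.lo k) ≤ s) (h4 : s < W.cnt N c' k (W.hi k))
    (h5 : W.cnt N c l (W.lo l) ≤ r) (h6 : r < W.cnt N c l (W.hi l))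
    (h7 : W.cnt N c' l (W.lo l) ≤ s) (h8 : s < W.cnt N c' l (W.hi l)) : False := by
  obtain ⟨x, hx1, hx2⟩ := rect_after W (N := N) hc (show k < W.M by omega)
  obtain ⟨y, hy1, hy2⟩ := rect_before W (N := N) hc hl
  rcases cnt_sign W (N := N) (k := k + 1) (l := l) (x := x) (y := y) hkl hl.le hc with h | h
  · omega
  · omega

/-- the area of the rectangles of a set of vertices; `V` is any set which contains them -/
theorem rect_area {N c c' : ℕ} (hc : c < c') (hd : 0 < d) (K : Finset ℕ) (hK : ∀ k ∈ K, k < W.M)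
    (V : Set (ℝ × ℝ)) (hV : ∀ k ∈ K, ∀ y : ℝ × ℝ,
      (W.cnt N c k (W.lo k) : ℝ) / d ≤ y.1 → y.1 < (W.cnt N c k (W.hi k) : ℝ) / d →
      (W.cnt N c' k (W.lo k) : ℝ) / d ≤ y.2 → y.2 < (W.cnt N c' k (W.hi k) : ℝ) / d → y ∈ V) :
    ENNReal.ofReal ((∑ k ∈ K, (W.u N c k : ℝ) * W.u N c' k) / d ^ 2) ≤ volume V := by
  classical
  have hd' : (0 : ℝ) < d := by exact_mod_cast hd
  let R : ℕ → Set (ℝ × ℝ) := fun k =>
    Set.Ico ((W.cnt N c k (W.lo k) : ℝ) / d) ((W.cnt N c k (W.hi k) : ℝ) / d) ×ˢ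
      Set.Ico ((W.cnt N c' k (W.lo k) : ℝ) / d) ((W.cnt N c' k (W.hi k) : ℝ) / d)
  have hRm : ∀ k ∈ K, MeasurableSet (R k) := fun k _ => measurableSet_Ico.prod measurableSet_Ico
  have hkey : ∀ k ∈ K, ∀ l ∈ K, k < l → Disjoint (R k) (R l) := by
    intro k hk l hl hkl
    rw [Set.disjoint_left]
    rintro ⟨a, b⟩ h h'
    simp only [R, Set.mem_prod, Set.mem_Ico] at h h'
    obtain ⟨⟨h1, h2⟩, h3, h4⟩ := h
    obtain ⟨⟨h5, h6⟩, h7, h8⟩ := h'
    rw [div_le_iff₀ hd'] at h1 h3 h5 h7
    rw [lt_div_iff₀ hd'] at h2 h4 h6 h8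
    have ha : (0 : ℝ) ≤ a * d := le_trans (Nat.cast_nonneg _) h1
    have hb : (0 : ℝ) ≤ b * d := le_trans (Nat.cast_nonneg _) h3
    exact rect_disj W (N := N) hc hkl (hK l hl) (r := ⌊a * d⌋₊) (s := ⌊b * d⌋₊)
      (Nat.le_floor h1) ((Nat.floor_lt ha).2 h2) (Nat.le_floor h3) ((Nat.floor_lt hb).2 h4)
      (Nat.le_floor h5) ((Nat.floor_lt ha).2 h6) (Nat.le_floor h7) ((Nat.floor_lt hb).2 h8)
  have hdisj : Set.PairwiseDisjoint (K : Set ℕ) R := by
    intro k hk l hl hne
    rcases lt_or_gt_of_ne hne with h | h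
    · exact hkey k hk l hl h
    · exact (hkey l hl k hk h).symm
  have hsub : (⋃ k ∈ K, R k) ⊆ V := by
    intro y hy
    simp only [Set.mem_iUnion] at hy
    obtain ⟨k, hk, hy⟩ := hy
    simp only [R, Set.mem_prod, Set.mem_Ico] at hy
    exact hV k hk y hy.1.1 hy.1.2 hy.2.1 hy.2.2
  refine le_trans (le_of_eq ?_) (measure_mono hsub)
  rw [measure_biUnion_finset hdisj hRm, Finset.sum_div,
    ENNReal.ofReal_sum_of_nonneg (fun k _ => by positivity)]
  apply Finset.sum_congr rfl
  intro k hk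
  have hk' := hK k hk
  have e1 := cnt_hi W N c hk'
  have e2 := cnt_hi W N c' hk'
  simp only [R]
  rw [Measure.volume_eq_prod, Measure.prod_prod, Real.volume_Ico, Real.volume_Ico,
    ← ENNReal.ofReal_mul (by
      rw [e1]
      push_cast
      rw [← sub_div]
      apply div_nonneg _ hd'.le
      simp)]
  congr 1
  rw [e1, e2]
  push_cast
  field_simp
  ring

end Pool.Agent.Helper8.PW
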