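import Pool.Agent.Helper8.PL.Area
import Pool.Agent.Helper8.PW.Rect
import Pool.Agent.Helper8.PW.Lip
import Pool.Agent.Helper8.PW.Defs

/-! Project PW, piece PL-M: upper bound of the mass of a square. -/

open Finset MeasureTheory
open scoped ENNReal

namespace Pool.Agent.Helper8.PW

open Pool.Agent.Helper8.PL

open WW

theorem mass_upper (m : ℕ) {η : ℝ} (hη : 0 < η) : ∃ ε γ : ℝ, 0 < ε ∧ 0 < γ ∧
    ∀ {d : ℕ} (W : WW d) {N : ℕ} {s t l δ : ℝ} {v : ℕ → ℝ × ℝ} {b : ℕ → ℝ},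
      W.Loc N m s t l δ ε v b → δ ≤ γ * l → ∀ c c', c < c' → c' < m →
        W.mass N c c' (W.VQ N s t l) ≤ (|wd (v c) (v c')| + η) * l ^ 2 := by
  have hL : (0 : ℝ) < 2 * m + 2 := by positivity
  obtain ⟨e, he, H⟩ := area_nbhd hL hη
  refine ⟨e / 2, e / 2, by positivity, by positivity, ?_⟩
  intro d W N s t l δ v b h hδ c c' hcc hc'
  have hc : c < m := hcc.trans hc'
  have hd : (0 : ℝ) < d := by exact_mod_cast h.hd
  have hl := h.hl
  have hVQ : ∀ k ∈ W.VQ N s t l, k < W.M ∧ (s ≤ (W.lo k : ℝ) / d ∧ (W.lo k : ℝ) / d < s + l) ∧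
      (t ≤ W.tt N k (W.lo k) ∧ W.tt N k (W.lo k) < t + l) := by
    intro k hk
    simp only [VQ, Finset.mem_filter, Finset.mem_range] at hk
    exact hk
  have hy : ∀ f < m, ∀ k ∈ W.VQ N s t l, ∀ y : ℝ, (W.cnt N f k (W.lo k) : ℝ) / d ≤ y →
      y < (W.cnt N f k (W.hi k) : ℝ) / d →
      |y - ((v f).1 * ((W.lo k : ℝ) / d) + (v f).2 * W.tt N k (W.lo k) + b f)| ≤ e * l := by
    intro f hf k hk y h1 h2
    obtain ⟨hkM, ⟨hs1, hs2⟩, ht1, ht2⟩ := hVQ k hk
    have h3 : (W.cnt N f k (W.hi k) : ℝ) = W.cnt N f k (W.lo k) + W.u N f k := by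
      exact_mod_cast cnt_hi W N f hkM
    have h4 : (W.u N f k : ℝ) ≤ W.mult k := by
      exact_mod_cast u_le W N f hkM
    have hlo' : W.lo k ≤ d := by
      have e1 := W.two_le k hkM
      have e2 := W.le_d k hkM
      omega
    have hmul : (W.mult k : ℝ) ≤ δ * d := by
      rcases h.mult k hkM with e2 | e2
      · exact e2
      · exfalso
        have e3 : W.tt N (k + 1) (W.lo k) = W.tt N k (W.lo k) := by
          unfold WW.tt
          rw [T_eq W hkM (Or.inl le_rfl)]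
        rcases e2 (W.lo k) hlo' le_rfl (by have := W.two_le k hkM; omega)
          (by rw [abs_le]; constructor <;> linarith) with e4 | e4
        · linarith
        · linarith
    have h5 : (W.u N f k : ℝ) ≤ δ * d := h4.trans hmul
    have h6 : (W.u N f k : ℝ) / d ≤ δ := by
      rw [div_le_iff₀ hd]
      exact h5
    have h7 : |y - W.F N f k (W.lo k)| ≤ e / 2 * l := by
      have h8 : (W.cnt N f k (W.hi k) : ℝ) / d = (W.cnt N f k (W.lo k) : ℝ) / d +
          (W.u N f k : ℝ) / d := by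
        rw [h3, add_div]
      rw [h8] at h2
      rw [F, abs_le]
      constructor
      · have : 0 ≤ e / 2 * l := by positivity
        linarith
      · linarith
    have hlo : W.lo k ≤ d := by
      have e1 := W.two_le k hkM
      have e2 := W.le_d k hkM
      omega
    have h9 := h.aff k hkM.le (W.lo k) hlo (by rw [abs_le]; constructor <;> linarith)
      (by rw [abs_le]; constructor <;> linarith) f hf
    have h10 := abs_add_le (y - W.F N f k (W.lo k)) (W.F N f k (W.lo k) -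
      ((v f).1 * ((W.lo k : ℝ) / d) + (v f).2 * W.tt N k (W.lo k) + b f))
    have h11 : y - W.F N f k (W.lo k) + (W.F N f k (W.lo k) -
      ((v f).1 * ((W.lo k : ℝ) / d) + (v f).2 * W.tt N k (W.lo k) + b f)) =
      y - ((v f).1 * ((W.lo k : ℝ) / d) + (v f).2 * W.tt N k (W.lo k) + b f) := by ring
    rw [h11] at h10
    linarith
  have hmain := H (v c) (v c') (b c, b c') (s, t) l (h.v1 c hc) (h.v2 c hc) (h.v1 c' hc')
    (h.v2 c' hc') hl
  have hrect := rect_area W (N := N) hcc h.hd (W.VQ N s t l) (fun k hk => (hVQ k hk).1)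
    {y : ℝ × ℝ | ∃ z : ℝ × ℝ, (s, t).1 ≤ z.1 ∧ z.1 ≤ (s, t).1 + l ∧ (s, t).2 ≤ z.2 ∧
        z.2 ≤ (s, t).2 + l ∧ |y.1 - ((v c).1 * z.1 + (v c).2 * z.2 + (b c, b c').1)| ≤ e * l ∧
        |y.2 - ((v c').1 * z.1 + (v c').2 * z.2 + (b c, b c').2)| ≤ e * l}
    (by
      intro k hk y h1 h2 h3 h4
      obtain ⟨hkM, ⟨hs1, hs2⟩, ht1, ht2⟩ := hVQ k hk
      exact ⟨((W.lo k : ℝ) / d, W.tt N k (W.lo k)), hs1, hs2.le, ht1, ht2.le,
        hy c hc k hk y.1 h1 h2, hy c' hc' k hk y.2 h3 h4⟩)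
  have hfin := hrect.trans hmain
  rw [ENNReal.ofReal_le_ofReal_iff (by positivity)] at hfin
  exact hfin

end Pool.Agent.Helper8.PW
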