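import Pool.Agent.Helper8.PW.Pair
import Pool.Agent.Helper8.PW.Defs

/-! Project PW: splitting of the sums by classes and by squares. -/

open Finset MeasureTheory
open scoped ENNReal NNReal

namespace Pool.Agent.Helper8.PW

open Pool.Agent.Helper8.PL

open WW

/-- the weight of a class -/
theorem class_le {d : ℕ} (W : WW d) {N v : ℕ} (hN : 0 < N) (hv : ∀ i, W.w i ≤ v) (c : ℕ) :
    ∑ j ∈ univ.filter (fun j => W.cl N j = c), W.w j ≤ N + v := by
  classical
  rcases (univ.filter (fun j => W.cl N j = c)).eq_empty_or_nonempty with h | h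
  · rw [h]
    simp
  · obtain ⟨S, hS⟩ : ∃ S : Finset (Fin W.e), S = univ.filter (fun j => W.cl N j = c) := ⟨_, rfl⟩
    rw [← hS] at h ⊢
    have hmem : ∀ j ∈ S, W.cl N j = c := by
      intro j hj
      rw [hS, mem_filter] at hj
      exact hj.2
    have h0 := hmem _ (S.min'_mem h)
    have h1 := hmem _ (S.max'_mem h)
    have hst : ∀ j : Fin W.e, W.cl N j = c →
        N * c ≤ ∑ l ∈ univ.filter (fun l => l < j), W.w l ∧
        ∑ l ∈ univ.filter (fun l => l < j), W.w l < N * c + N := by
      intro j hj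
      unfold WW.cl at hj
      have h4 := Nat.div_add_mod (∑ l ∈ univ.filter (fun l => l < j), W.w l) N
      have h5 := Nat.mod_lt (∑ l ∈ univ.filter (fun l => l < j), W.w l) hN
      rw [hj] at h4
      omega
    have h2 := (hst _ h0).1
    have h3 := (hst _ h1).2
    have h4 : ∑ l ∈ univ.filter (fun l => l < S.min' h), W.w l + ∑ j ∈ S, W.w j ≤
        ∑ l ∈ univ.filter (fun l => l < S.max' h), W.w l + W.w (S.max' h) := by
      rw [← sum_union, add_comm (∑ l ∈ univ.filter (fun l => l < S.max' h), W.w l),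
        ← sum_insert (s := univ.filter fun l => l < S.max' h) (a := S.max' h) (by simp)]
      · apply sum_le_sum_of_subset
        intro l hl
        rw [mem_union, mem_filter] at hl
        rw [mem_insert, mem_filter]
        rcases hl with hl | hl
        · right
          exact ⟨mem_univ _, hl.2.trans_le (S.min'_le _ (S.max'_mem h))⟩
        · rcases (S.le_max' l hl).eq_or_lt with h5 | h5
          · exact Or.inl h5
          · exact Or.inr ⟨mem_univ _, h5⟩
      · rw [Finset.disjoint_left]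
        intro l hl hl'
        rw [mem_filter] at hl
        exact absurd (S.min'_le l hl') (not_le.2 hl.2)
    have h5 := hv (S.max' h)
    omega

/-- the pairs of lines of the same class -/
theorem same_class {d : ℕ} (W : WW d) {N v : ℕ} (hN : 0 < N) (hv : ∀ i, W.w i ≤ v) :
    ∑ k ∈ range W.M, ∑ i ∈ W.B k, ∑ j ∈ (W.B k).erase i,
      (if W.cl N i = W.cl N j then (W.w i : ℝ) * W.w j else 0) ≤ ((N : ℝ) + v) * d := by
  rw [pair_sum W (fun i j => if W.cl N i = W.cl N j then (W.w i : ℝ) * W.w j else 0)]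
  have h1 : ∀ i ∈ (univ : Finset (Fin W.e)), ∑ j ∈ univ.erase i,
      (if W.cl N i = W.cl N j then (W.w i : ℝ) * W.w j else 0) ≤ W.w i * ((N : ℝ) + v) := by
    intro i _
    have h2 := class_le W hN hv (W.cl N i)
    have h3 : (∑ j ∈ univ.filter (fun j => W.cl N j = W.cl N i), (W.w j : ℝ)) ≤ (N : ℝ) + v := by
      exact_mod_cast h2
    calc ∑ j ∈ univ.erase i, (if W.cl N i = W.cl N j then (W.w i : ℝ) * W.w j else 0)
        ≤ ∑ j, (if W.cl N i = W.cl N j then (W.w i : ℝ) * W.w j else 0) := by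
          apply sum_le_sum_of_subset_of_nonneg (erase_subset _ _)
          intro j _ _
          split_ifs <;> positivity
      _ = W.w i * ∑ j ∈ univ.filter (fun j => W.cl N j = W.cl N i), (W.w j : ℝ) := by
          rw [mul_sum, sum_filter]
          refine Finset.sum_congr rfl fun j _ => ?_
          by_cases h : W.cl N i = W.cl N j
          · rw [if_pos h, if_pos h.symm]
          · rw [if_neg h, if_neg (Ne.symm h)]
      _ ≤ _ := mul_le_mul_of_nonneg_left h3 (by positivity)
  refine (Finset.sum_le_sum h1).trans (le_of_eq ?_)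
  rw [← sum_mul, mul_comm]
  congr 1
  exact_mod_cast W.sum_w

/-- the sum over the pairs of lines in a vertex, by classes -/
theorem vertex_split {d : ℕ} (W : WW d) {N m : ℕ} (hN : 0 < N) (hm : d ≤ m * N) (k : ℕ)
    (g : ℕ → ℕ → ℝ) :
    ∑ i ∈ W.B k, ∑ j ∈ (W.B k).erase i, (W.w i : ℝ) * W.w j * g (W.cl N i) (W.cl N j) =
      (∑ c ∈ range m, ∑ c' ∈ range m,
        if c = c' then 0 else (W.u N c k : ℝ) * W.u N c' k * g c c') +
      ∑ i ∈ W.B k, ∑ j ∈ (W.B k).erase i,
        (if W.cl N i = W.cl N j then (W.w i : ℝ) * W.w j * g (W.cl N i) (W.cl N j) else 0) := by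
  have hsum : ∀ h : ℕ → ℝ, ∑ i ∈ W.B k, (W.w i : ℝ) * h (W.cl N i) =
      ∑ c ∈ range m, (W.u N c k : ℝ) * h c := fun h => pair_fib W hN hm h
  have h2 : ∀ i ∈ W.B k, ∑ j ∈ (W.B k).erase i, (W.w i : ℝ) * W.w j * g (W.cl N i) (W.cl N j) =
      W.w i * ∑ j ∈ W.B k, (W.w j : ℝ) *
        (if W.cl N i = W.cl N j then 0 else g (W.cl N i) (W.cl N j)) +
      ∑ j ∈ (W.B k).erase i,
        (if W.cl N i = W.cl N j then (W.w i : ℝ) * W.w j * g (W.cl N i) (W.cl N j) else 0) := by
    intro i hi
    have h3 : ∑ j ∈ W.B k, (W.w j : ℝ) *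
        (if W.cl N i = W.cl N j then 0 else g (W.cl N i) (W.cl N j)) =
        ∑ j ∈ (W.B k).erase i, (W.w j : ℝ) *
        (if W.cl N i = W.cl N j then 0 else g (W.cl N i) (W.cl N j)) := by
      rw [← Finset.add_sum_erase _ _ hi, if_pos rfl, mul_zero, zero_add]
    rw [h3, mul_sum, ← Finset.sum_add_distrib]
    refine Finset.sum_congr rfl fun j _ => ?_
    by_cases h : W.cl N i = W.cl N j
    · rw [if_pos h, if_pos h]
      ring
    · rw [if_neg h, if_neg h]
      ring
  rw [Finset.sum_congr rfl h2, Finset.sum_add_distrib]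
  congr 1
  have h4 : ∀ i ∈ W.B k, (W.w i : ℝ) * ∑ j ∈ W.B k, (W.w j : ℝ) *
      (if W.cl N i = W.cl N j then 0 else g (W.cl N i) (W.cl N j)) =
      W.w i * ∑ c' ∈ range m, (W.u N c' k : ℝ) *
        (if W.cl N i = c' then 0 else g (W.cl N i) c') := by
    intro i _
    rw [hsum (fun c' => if W.cl N i = c' then 0 else g (W.cl N i) c')]
  rw [Finset.sum_congr rfl h4]
  rw [hsum (fun c => ∑ c' ∈ range m, (W.u N c' k : ℝ) * (if c = c' then 0 else g c c'))]
  refine Finset.sum_congr rfl fun c _ => ?_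
  rw [Finset.mul_sum]
  refine Finset.sum_congr rfl fun c' _ => ?_
  by_cases h : c = c'
  · rw [if_pos h, if_pos h, mul_zero, mul_zero]
  · rw [if_neg h, if_neg h, mul_assoc]

/-- Proof. `k < M` is in `VQ` of the square `q` if and only if `q = sq k`
(`Nat.floor_eq_iff`); `lo k / d < 1 ≤ m` and `tt k (lo k) < m` (there are `lo k < d` lines below
the cut, of classes `≤ m - 1`), so `sq k` is in the range. -/
theorem sum_squares {d : ℕ} (W : WW d) {N m n : ℕ} (hd : 0 < d) (hN : 0 < N)
    (hm : d ≤ m * N) (g : ℕ × ℕ → ℕ → ℝ) :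
    ∑ k ∈ range W.M, g (W.sq N n k) k =
      ∑ q ∈ range (m * 2 ^ n) ×ˢ range (m * 2 ^ n),
        ∑ k ∈ W.VQ N ((q.1 : ℝ) / 2 ^ n) ((q.2 : ℝ) / 2 ^ n) (1 / 2 ^ n), g q k := by
  have h2n : (0 : ℝ) < 2 ^ n := by positivity
  have hdR : (0 : ℝ) < d := by exact_mod_cast hd
  have hm1 : 1 ≤ m := by
    rcases Nat.eq_zero_or_pos m with h | h
    · rw [h, zero_mul] at hm
      omega
    · exact h
  have hmR : (1 : ℝ) ≤ m := by exact_mod_cast hm1
  have hflo : ∀ (a : ℝ) (q : ℕ), 0 ≤ a → (⌊a * 2 ^ n⌋₊ = q ↔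
      ((q : ℝ) / 2 ^ n ≤ a ∧ a < (q : ℝ) / 2 ^ n + 1 / 2 ^ n)) := by
    intro a q ha
    rw [Nat.floor_eq_iff (by positivity), div_le_iff₀ h2n, ← add_div, lt_div_iff₀ h2n]
  have hlo0 : ∀ k, 0 ≤ (W.lo k : ℝ) / d := fun k => by positivity
  have htt0 : ∀ k x, 0 ≤ W.tt N k x := fun k x => by
    unfold WW.tt
    positivity
  have hmaps : ∀ k ∈ range W.M, W.sq N n k ∈ range (m * 2 ^ n) ×ˢ range (m * 2 ^ n) := by
    intro k hk
    rw [Finset.mem_range] at hk
    rw [Finset.mem_product, Finset.mem_range, Finset.mem_range]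
    unfold WW.sq
    have h1 : (W.lo k : ℝ) / d < m := by
      have h3 : W.lo k < d := by
        have := W.two_le k hk
        have := W.le_d k hk
        omega
      have h4 : (W.lo k : ℝ) / d < 1 := by
        rw [div_lt_one hdR]
        exact_mod_cast h3
      linarith
    have h2 : W.tt N k (W.lo k) < m := by
      unfold WW.tt
      rw [div_lt_iff₀ hdR]
      have hloM : W.lo k ≤ d := by
        have := W.two_le k hk
        have := W.le_d k hk
        omega
      have h5 : W.T N k (W.lo k) ≤ d * (m - 1) := by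
        unfold WW.T
        calc ∑ i, W.cl N i * W.f k (W.lo k) i
            ≤ ∑ i, (m - 1) * W.f k (W.lo k) i := by
              refine Finset.sum_le_sum fun i _ => Nat.mul_le_mul_right _ ?_
              have := cl_lt W hN hm i
              omega
          _ = (m - 1) * W.lo k := by
              rw [← mul_sum, sum_f W hk.le hloM]
          _ ≤ d * (m - 1) := by
              rw [Nat.mul_comm]
              exact Nat.mul_le_mul_right _ hloM
      have h6 : d * (m - 1) < m * d := by
        rw [Nat.mul_comm m d]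
        exact Nat.mul_lt_mul_of_pos_left (by omega) hd
      exact_mod_cast lt_of_le_of_lt h5 h6
    constructor
    · rw [Nat.floor_lt (by positivity)]
      push_cast
      exact mul_lt_mul_of_pos_right h1 h2n
    · rw [Nat.floor_lt (mul_nonneg (htt0 _ _) h2n.le)]
      push_cast
      exact mul_lt_mul_of_pos_right h2 h2n
  rw [← Finset.sum_fiberwise_of_maps_to hmaps]
  refine Finset.sum_congr rfl fun q _ => ?_
  have hV : (range W.M).filter (fun k => W.sq N n k = q) =
      W.VQ N ((q.1 : ℝ) / 2 ^ n) ((q.2 : ℝ) / 2 ^ n) (1 / 2 ^ n) := by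
    unfold WW.VQ
    refine Finset.filter_congr fun k _ => ?_
    rw [← hflo _ _ (hlo0 k), ← hflo _ _ (htt0 k (W.lo k))]
    unfold WW.sq
    rw [Prod.ext_iff]
  rw [hV.symm]
  refine Finset.sum_congr rfl fun k hk => ?_
  rw [(Finset.mem_filter.mp hk).2]

end Pool.Agent.Helper8.PW
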