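import Pool.Agent.Helper8.PW.Locl
import Pool.Agent.Helper8.PW.MLe
import Pool.Agent.Helper8.PW.Bdry
import Pool.Agent.Helper8.PW.Ext
import Pool.Agent.Helper8.PW.Split
import Pool.Agent.Helper8.PL.Aff
import Pool.Agent.Helper8.PL.Scale
import Pool.Agent.Helper8.PW.Hole

/-! Project PW: the asymptotic lower bound for a kernel. -/

open Finset MeasureTheory
open scoped ENNReal NNReal

namespace Pool.Agent.Helper8.PW

open Pool.Agent.Helper8.PL

open WW

theorem main_wd_comm (v w : ℝ × ℝ) : |wd v w| = |wd w v| := by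
  rw [← abs_neg]
  congr 1
  simp only [wd]
  ring

theorem main_wd_self (v : ℝ × ℝ) : wd v v = 0 := by
  simp only [wd]
  ring

theorem main_mass_comm {d : ℕ} (W : WW d) (N c c' : ℕ) (K : Finset ℕ) :
    W.mass N c c' K = W.mass N c' c K := by
  simp only [mass]
  congr 1
  exact Finset.sum_congr rfl fun k _ => mul_comm _ _

theorem main_mass_nonneg {d : ℕ} (W : WW d) (N c c' : ℕ) (K : Finset ℕ) :
    0 ≤ W.mass N c c' K := by
  simp only [mass]
  positivity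

theorem main_mass_empty {d : ℕ} (W : WW d) (N c c' : ℕ) :
    W.mass N c c' ∅ = 0 := by
  simp [mass]

/-- the sum over the pairs of classes of a square -/
noncomputable def mainS {d : ℕ} (W : WW d) (N m : ℕ) (K : Finset ℕ) (ψ : ℝ → ℝ)
    (θ : ℕ → ℝ) : ℝ :=
  ∑ c ∈ range m, ∑ c' ∈ range m,
    if c = c' then 0 else W.mass N c c' K * ψ (θ c - θ c')

theorem main_sq_good {d : ℕ} (W : WW d) {N m : ℕ} (K : Finset ℕ) {φ : ℝ → ℝ}
    {D K₀ η l : ℝ} (hφ : ∀ x, |φ x - K₀| ≤ D) (v : ℕ → ℝ × ℝ)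
    (hv : ∀ c c', c < c' → c' < m → |W.mass N c c' K - |wd (v c) (v c')| * l ^ 2| ≤ η * l ^ 2)
    (θ : ℕ → ℝ) (hθ : K₀ * ∑ c ∈ range m, ∑ c' ∈ range m, |wd (v c) (v c')| ≤
        ∑ c ∈ range m, ∑ c' ∈ range m, |wd (v c) (v c')| * φ (θ c - θ c')) (hη : 0 ≤ η) :
    -(D * m ^ 2 * η * l ^ 2) ≤ mainS W N m K (fun x => φ x - K₀) θ := by
  have hD : 0 ≤ D := (abs_nonneg _).trans (hφ 0)
  have h1 : ∀ c ∈ range m, ∀ c' ∈ range m,
      |wd (v c) (v c')| * l ^ 2 * (φ (θ c - θ c') - K₀) - D * (η * l ^ 2) ≤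
        if c = c' then 0 else W.mass N c c' K * (φ (θ c - θ c') - K₀) := by
    intro c hc c' hc'
    rw [mem_range] at hc hc'
    by_cases h : c = c'
    · subst h
      rw [if_pos rfl, main_wd_self, abs_zero]
      have : 0 ≤ D * (η * l ^ 2) := by positivity
      linarith
    · rw [if_neg h]
      have h2 : |W.mass N c c' K - |wd (v c) (v c')| * l ^ 2| ≤ η * l ^ 2 := by
        rcases lt_or_gt_of_ne h with h3 | h3
        · exact hv c c' h3 hc'
        · rw [main_mass_comm, main_wd_comm]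
          exact hv c' c h3 hc
      have h4 : |(W.mass N c c' K - |wd (v c) (v c')| * l ^ 2) * (φ (θ c - θ c') - K₀)| ≤
          η * l ^ 2 * D := by
        rw [abs_mul]
        exact mul_le_mul h2 (hφ _) (abs_nonneg _) (by positivity)
      have h5 := (abs_le.1 h4).1
      have h6 : (W.mass N c c' K - |wd (v c) (v c')| * l ^ 2) * (φ (θ c - θ c') - K₀) =
          W.mass N c c' K * (φ (θ c - θ c') - K₀) -
            |wd (v c) (v c')| * l ^ 2 * (φ (θ c - θ c') - K₀) := by ring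
      have h7 : η * l ^ 2 * D = D * (η * l ^ 2) := by ring
      linarith
  have h2 : ∑ c ∈ range m, ∑ c' ∈ range m,
      (|wd (v c) (v c')| * l ^ 2 * (φ (θ c - θ c') - K₀) - D * (η * l ^ 2)) ≤
      mainS W N m K (fun x => φ x - K₀) θ :=
    Finset.sum_le_sum fun c hc => Finset.sum_le_sum fun c' hc' => h1 c hc c' hc'
  refine le_trans ?_ h2
  have h3 : ∑ c ∈ range m, ∑ c' ∈ range m,
      (|wd (v c) (v c')| * l ^ 2 * (φ (θ c - θ c') - K₀) - D * (η * l ^ 2)) =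
      l ^ 2 * (∑ c ∈ range m, ∑ c' ∈ range m, |wd (v c) (v c')| * φ (θ c - θ c') -
        K₀ * ∑ c ∈ range m, ∑ c' ∈ range m, |wd (v c) (v c')|) - D * m ^ 2 * η * l ^ 2 := by
    rw [mul_sub, mul_sum, mul_sum, mul_sum]
    rw [← Finset.sum_sub_distrib]
    have h4 : D * (m : ℝ) ^ 2 * η * l ^ 2 = ∑ c ∈ range m, (m : ℝ) * (D * (η * l ^ 2)) := by
      rw [sum_const, card_range, nsmul_eq_mul]
      ring
    rw [h4, ← Finset.sum_sub_distrib]
    refine Finset.sum_congr rfl fun c _ => ?_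
    rw [Finset.sum_sub_distrib, sum_const, card_range, nsmul_eq_mul, mul_sum, mul_sum, mul_sum,
      ← Finset.sum_sub_distrib]
    congr 1
    refine Finset.sum_congr rfl fun c' _ => ?_
    ring
  rw [h3]
  have h5 : 0 ≤ l ^ 2 * (∑ c ∈ range m, ∑ c' ∈ range m, |wd (v c) (v c')| * φ (θ c - θ c') -
        K₀ * ∑ c ∈ range m, ∑ c' ∈ range m, |wd (v c) (v c')|) :=
    mul_nonneg (by positivity) (by linarith)
  linarith

theorem main_sq_bad {d : ℕ} (W : WW d) {N m : ℕ} (K : Finset ℕ) {ψ : ℝ → ℝ}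
    {D R : ℝ} (hψ : ∀ x, |ψ x| ≤ D) (hR : 0 ≤ R)
    (hv : ∀ c c', c < c' → c' < m → W.mass N c c' K ≤ R) (θ : ℕ → ℝ) :
    -(D * m ^ 2 * R) ≤ mainS W N m K ψ θ := by
  have hD : 0 ≤ D := (abs_nonneg _).trans (hψ 0)
  have h1 : ∀ c ∈ range m, ∀ c' ∈ range m,
      -(D * R) ≤ if c = c' then 0 else W.mass N c c' K * ψ (θ c - θ c') := by
    intro c hc c' hc'
    rw [mem_range] at hc hc'
    by_cases h : c = c'
    · rw [if_pos h]
      have : 0 ≤ D * R := by positivity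
      linarith
    · rw [if_neg h]
      have h2 : W.mass N c c' K ≤ R := by
        rcases lt_or_gt_of_ne h with h3 | h3
        · exact hv c c' h3 hc'
        · rw [main_mass_comm]
          exact hv c' c h3 hc
      have h4 : |W.mass N c c' K * ψ (θ c - θ c')| ≤ R * D := by
        rw [abs_mul, abs_of_nonneg (main_mass_nonneg W N c c' K)]
        exact mul_le_mul h2 (hψ _) (abs_nonneg _) hR
      have h5 := (abs_le.1 h4).1
      have h7 : R * D = D * R := by ring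
      linarith
  have h2 : ∑ c ∈ range m, ∑ c' ∈ range m, (-(D * R)) ≤ mainS W N m K ψ θ :=
    Finset.sum_le_sum fun c hc => Finset.sum_le_sum fun c' hc' => h1 c hc c' hc'
  refine le_trans (le_of_eq ?_) h2
  rw [sum_const, sum_const, card_range, nsmul_eq_mul, nsmul_eq_mul]
  ring

open Classical in
/-- the vertices of multiplicity at most `δ d` -/
noncomputable def SM {d : ℕ} (W : WW d) (δ : ℝ) : Finset ℕ :=
  (range W.M).filter fun k => (W.mult k : ℝ) ≤ δ * d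

open Classical in
/-- the vertices of multiplicity at most `δ d` in a square -/
noncomputable def KS {d : ℕ} (W : WW d) (N n : ℕ) (δ : ℝ) (q : ℕ × ℕ) : Finset ℕ :=
  (W.VQ N ((q.1 : ℝ) / 2 ^ n) ((q.2 : ℝ) / 2 ^ n) (1 / 2 ^ n)).filter
    fun k => (W.mult k : ℝ) ≤ δ * d

/-- the pairs of lines in a set of vertices -/
noncomputable def PS {d : ℕ} (W : WW d) (K : Finset ℕ) : ℝ :=
  ∑ k ∈ K, ∑ i ∈ W.B k, ∑ j ∈ (W.B k).erase i, (W.w i : ℝ) * W.w j

theorem main_sum_w {d : ℕ} (W : WW d) : ∑ i, (W.w i : ℝ) = d := by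
  exact_mod_cast W.sum_w

theorem main_pairs {d : ℕ} (W : WW d) :
    PS W (range W.M) = (d : ℝ) ^ 2 - ∑ i, (W.w i : ℝ) ^ 2 := by
  unfold PS
  rw [pair_sum W (fun i j => (W.w i : ℝ) * W.w j)]
  have h1 : ∀ i ∈ (univ : Finset (Fin W.e)), ∑ j ∈ univ.erase i, (W.w i : ℝ) * W.w j =
      W.w i * d - (W.w i : ℝ) ^ 2 := by
    intro i hi
    rw [← mul_sum]
    have h2 := Finset.add_sum_erase univ (fun j => (W.w j : ℝ)) hi
    rw [main_sum_w W] at h2
    have h3 : ∑ j ∈ univ.erase i, (W.w j : ℝ) = d - W.w i := by linarith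
    rw [h3]
    ring
  rw [Finset.sum_congr rfl h1, sum_sub_distrib, ← sum_mul, main_sum_w W]
  ring

/-- the pairs of one vertex -/
theorem main_vertex {d : ℕ} (W : WW d) {k : ℕ} (hk : k < W.M) :
    ∑ i ∈ W.B k, ∑ j ∈ (W.B k).erase i, (W.w i : ℝ) * W.w j =
      (W.mult k : ℝ) ^ 2 - ∑ i ∈ W.B k, (W.w i : ℝ) ^ 2 := by
  have h0 : ∑ i ∈ W.B k, (W.w i : ℝ) = W.mult k := by exact_mod_cast sum_B W hk
  have h1 : ∀ i ∈ W.B k, ∑ j ∈ (W.B k).erase i, (W.w i : ℝ) * W.w j =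
      W.w i * W.mult k - (W.w i : ℝ) ^ 2 := by
    intro i hi
    rw [← mul_sum]
    have h2 := Finset.add_sum_erase (W.B k) (fun j => (W.w j : ℝ)) hi
    rw [h0] at h2
    have h3 : ∑ j ∈ (W.B k).erase i, (W.w j : ℝ) = W.mult k - W.w i := by linarith
    rw [h3]
    ring
  rw [Finset.sum_congr rfl h1, sum_sub_distrib, ← sum_mul, h0]
  ring

theorem main_two_le {d : ℕ} (W : WW d) {k : ℕ} (hk : k < W.M) : 2 ≤ W.mult k := by
  have := W.two_le k hk
  simp only [mult]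
  omega

theorem main_vertex_nonneg {d : ℕ} (W : WW d) (k : ℕ) :
    0 ≤ ∑ i ∈ W.B k, ∑ j ∈ (W.B k).erase i, (W.w i : ℝ) * W.w j :=
  Finset.sum_nonneg fun i _ => Finset.sum_nonneg fun j _ => by positivity

/-- the vertices of large weight -/
theorem main_sq_sum {d v : ℕ} (W : WW d) (hd : 0 < d) (hv : ∀ i, W.w i ≤ v) (K : Finset ℕ)
    (hK : ∀ k ∈ K, k < W.M ∧ 2 * v ≤ W.mult k) :
    ∑ k ∈ K, ((W.mult k : ℝ) / d) ^ 2 ≤ 2 := by
  have hd' : (0 : ℝ) < d := by exact_mod_cast hd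
  have h1 : ∀ k ∈ K, (W.mult k : ℝ) ^ 2 ≤
      2 * ∑ i ∈ W.B k, ∑ j ∈ (W.B k).erase i, (W.w i : ℝ) * W.w j := by
    intro k hk
    obtain ⟨hk1, hk2⟩ := hK k hk
    rw [main_vertex W hk1]
    have h2 : ∑ i ∈ W.B k, (W.w i : ℝ) ^ 2 ≤ v * W.mult k := by
      calc ∑ i ∈ W.B k, (W.w i : ℝ) ^ 2 ≤ ∑ i ∈ W.B k, (v : ℝ) * W.w i := by
            refine Finset.sum_le_sum fun i _ => ?_
            have : (W.w i : ℝ) ≤ v := by exact_mod_cast hv i
            rw [pow_two]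
            exact mul_le_mul_of_nonneg_right this (by positivity)
        _ = v * W.mult k := by
            rw [← mul_sum]
            congr 1
            exact_mod_cast sum_B W hk1
    have h3 : (2 : ℝ) * v ≤ W.mult k := by exact_mod_cast hk2
    have h4 : (2 : ℝ) * v * W.mult k ≤ W.mult k * W.mult k :=
      mul_le_mul_of_nonneg_right h3 (by positivity)
    nlinarith
  have h2 : ∑ k ∈ K, (W.mult k : ℝ) ^ 2 ≤ 2 * (d : ℝ) ^ 2 := by
    calc ∑ k ∈ K, (W.mult k : ℝ) ^ 2 ≤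
        ∑ k ∈ K, 2 * ∑ i ∈ W.B k, ∑ j ∈ (W.B k).erase i, (W.w i : ℝ) * W.w j :=
          Finset.sum_le_sum h1
      _ = 2 * PS W K := by rw [← mul_sum]; rfl
      _ ≤ 2 * PS W (range W.M) := by
          apply mul_le_mul_of_nonneg_left _ (by norm_num)
          unfold PS
          apply Finset.sum_le_sum_of_subset_of_nonneg
          · intro k hk
            exact mem_range.2 (hK k hk).1
          · intro k _ _
            exact main_vertex_nonneg W k
      _ ≤ 2 * (d : ℝ) ^ 2 := by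
          rw [main_pairs W]
          have : 0 ≤ ∑ i, (W.w i : ℝ) ^ 2 := Finset.sum_nonneg fun i _ => sq_nonneg _
          linarith
  have h3 : ∑ k ∈ K, ((W.mult k : ℝ) / d) ^ 2 =
      (∑ k ∈ K, (W.mult k : ℝ) ^ 2) / (d : ℝ) ^ 2 := by
    rw [sum_div]
    exact Finset.sum_congr rfl fun k _ => div_pow _ _ _
  rw [h3, div_le_iff₀ (by positivity)]
  exact h2

theorem main_comb {d : ℕ} (W : WW d) {N m n v : ℕ} (hd : 0 < d) (hN : 0 < N)
    (hm : d ≤ m * N) (hv : ∀ i, W.w i ≤ v) {φ : ℝ → ℝ} {D K₀ E δ : ℝ} (hφ : ∀ x, |φ x - K₀| ≤ D)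
    (Θ : ℕ × ℕ → ℕ → ℝ)
    (hE : -E ≤ ∑ q ∈ range (m * 2 ^ n) ×ˢ range (m * 2 ^ n),
      mainS W N m (KS W N n δ q) (fun x => φ x - K₀) (Θ q)) :
    K₀ * PS W (SM W δ) - D * (((N : ℝ) + v) * d) - E * (d : ℝ) ^ 2 ≤
      ∑ k ∈ SM W δ, ∑ i ∈ W.B k, ∑ j ∈ (W.B k).erase i, (W.w i : ℝ) * W.w j *
        φ (Θ (W.sq N n k) (W.cl N i) - Θ (W.sq N n k) (W.cl N j)) := by
  classical
  have hD : 0 ≤ D := (abs_nonneg _).trans (hφ 0)
  have hd' : (0 : ℝ) < d := by exact_mod_cast hd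
  have hSM : ∀ k ∈ SM W δ, k < W.M := by
    intro k hk
    rw [SM, mem_filter, mem_range] at hk
    exact hk.1
  -- split off the constant
  have h1 : ∑ k ∈ SM W δ, ∑ i ∈ W.B k, ∑ j ∈ (W.B k).erase i, (W.w i : ℝ) * W.w j * K₀ =
      K₀ * PS W (SM W δ) := by
    unfold PS
    rw [mul_sum]
    refine Finset.sum_congr rfl fun k _ => ?_
    rw [mul_sum]
    refine Finset.sum_congr rfl fun i _ => ?_
    rw [mul_sum]
    refine Finset.sum_congr rfl fun j _ => ?_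
    ring
  have h2 : ∑ k ∈ SM W δ, ∑ i ∈ W.B k, ∑ j ∈ (W.B k).erase i, (W.w i : ℝ) * W.w j *
        φ (Θ (W.sq N n k) (W.cl N i) - Θ (W.sq N n k) (W.cl N j)) =
      K₀ * PS W (SM W δ) +
      ∑ k ∈ SM W δ, ∑ i ∈ W.B k, ∑ j ∈ (W.B k).erase i, (W.w i : ℝ) * W.w j *
        (φ (Θ (W.sq N n k) (W.cl N i) - Θ (W.sq N n k) (W.cl N j)) - K₀) := by
    rw [← h1, ← sum_add_distrib]
    refine Finset.sum_congr rfl fun k _ => ?_
    rw [← sum_add_distrib]
    refine Finset.sum_congr rfl fun i _ => ?_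
    rw [← sum_add_distrib]
    refine Finset.sum_congr rfl fun j _ => ?_
    ring
  rw [h2]
  -- the pairs of different classes
  have h3 : ∑ k ∈ SM W δ, ∑ i ∈ W.B k, ∑ j ∈ (W.B k).erase i, (W.w i : ℝ) * W.w j *
        (φ (Θ (W.sq N n k) (W.cl N i) - Θ (W.sq N n k) (W.cl N j)) - K₀) =
      (∑ k ∈ SM W δ, ∑ c ∈ range m, ∑ c' ∈ range m,
        if c = c' then 0 else (W.u N c k : ℝ) * W.u N c' k *
          (φ (Θ (W.sq N n k) c - Θ (W.sq N n k) c') - K₀)) +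
      ∑ k ∈ SM W δ, ∑ i ∈ W.B k, ∑ j ∈ (W.B k).erase i,
        (if W.cl N i = W.cl N j then (W.w i : ℝ) * W.w j *
          (φ (Θ (W.sq N n k) (W.cl N i) - Θ (W.sq N n k) (W.cl N j)) - K₀) else 0) := by
    rw [← sum_add_distrib]
    refine Finset.sum_congr rfl fun k _ => ?_
    exact vertex_split W hN hm k
      (fun c c' => φ (Θ (W.sq N n k) c - Θ (W.sq N n k) c') - K₀)
  have h4 : -(D * (((N : ℝ) + v) * d)) ≤ ∑ k ∈ SM W δ, ∑ i ∈ W.B k, ∑ j ∈ (W.B k).erase i,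
        (if W.cl N i = W.cl N j then (W.w i : ℝ) * W.w j *
          (φ (Θ (W.sq N n k) (W.cl N i) - Θ (W.sq N n k) (W.cl N j)) - K₀) else 0) := by
    have h5 := mul_le_mul_of_nonneg_left (same_class W hN hv) hD
    have h6 : -(D * ∑ k ∈ SM W δ, ∑ i ∈ W.B k, ∑ j ∈ (W.B k).erase i,
        (if W.cl N i = W.cl N j then (W.w i : ℝ) * W.w j else 0)) ≤
        ∑ k ∈ SM W δ, ∑ i ∈ W.B k, ∑ j ∈ (W.B k).erase i,
        (if W.cl N i = W.cl N j then (W.w i : ℝ) * W.w j *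
          (φ (Θ (W.sq N n k) (W.cl N i) - Θ (W.sq N n k) (W.cl N j)) - K₀) else 0) := by
      rw [mul_sum, ← sum_neg_distrib]
      refine Finset.sum_le_sum fun k _ => ?_
      rw [mul_sum, ← sum_neg_distrib]
      refine Finset.sum_le_sum fun i _ => ?_
      rw [mul_sum, ← sum_neg_distrib]
      refine Finset.sum_le_sum fun j _ => ?_
      split_ifs
      · have := (abs_le.1 (hφ (Θ (W.sq N n k) (W.cl N i) -
          Θ (W.sq N n k) (W.cl N j)))).1
        have h9 := mul_le_mul_of_nonneg_left this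
          (by positivity : (0 : ℝ) ≤ (W.w i : ℝ) * W.w j)
        linarith
      · simp
    have h7 : ∑ k ∈ SM W δ, ∑ i ∈ W.B k, ∑ j ∈ (W.B k).erase i,
        (if W.cl N i = W.cl N j then (W.w i : ℝ) * W.w j else 0) ≤
        ∑ k ∈ range W.M, ∑ i ∈ W.B k, ∑ j ∈ (W.B k).erase i,
        (if W.cl N i = W.cl N j then (W.w i : ℝ) * W.w j else 0) := by
      refine Finset.sum_le_sum_of_subset_of_nonneg ?_ ?_
      · intro k hk
        exact mem_range.2 (hSM k hk)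
      · intro k _ _
        refine Finset.sum_nonneg fun i _ => Finset.sum_nonneg fun j _ => ?_
        split_ifs <;> positivity
    have h8 := mul_le_mul_of_nonneg_left h7 hD
    linarith
  have h5 := sum_squares W (n := n) hd hN hm (fun q k => if (W.mult k : ℝ) ≤ δ * d then
        ∑ c ∈ range m, ∑ c' ∈ range m,
        (if c = c' then 0 else (W.u N c k : ℝ) * W.u N c' k * (φ (Θ q c - Θ q c') - K₀)) else 0)
  have h6 : ∀ q : ℕ × ℕ, ∑ k ∈ W.VQ N ((q.1 : ℝ) / 2 ^ n) ((q.2 : ℝ) / 2 ^ n) (1 / 2 ^ n),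
      (if (W.mult k : ℝ) ≤ δ * d then ∑ c ∈ range m, ∑ c' ∈ range m,
        (if c = c' then 0 else (W.u N c k : ℝ) * W.u N c' k * (φ (Θ q c - Θ q c') - K₀))
        else 0) =
      (d : ℝ) ^ 2 * mainS W N m (KS W N n δ q) (fun x => φ x - K₀) (Θ q) := by
    intro q
    rw [← sum_filter]
    have h7 : (W.VQ N ((q.1 : ℝ) / 2 ^ n) ((q.2 : ℝ) / 2 ^ n) (1 / 2 ^ n)).filter
        (fun k => (W.mult k : ℝ) ≤ δ * d) = KS W N n δ q := by
      ext k
      simp only [KS, mem_filter]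
    rw [h7, sum_comm]
    simp only [mainS]
    rw [mul_sum]
    refine Finset.sum_congr rfl fun c _ => ?_
    rw [sum_comm, mul_sum]
    refine Finset.sum_congr rfl fun c' _ => ?_
    split_ifs with h
    · simp
    · rw [mass, ← sum_mul]
      field_simp
  have h7 : ∑ k ∈ SM W δ, ∑ c ∈ range m, ∑ c' ∈ range m,
        (if c = c' then 0 else (W.u N c k : ℝ) * W.u N c' k *
          (φ (Θ (W.sq N n k) c - Θ (W.sq N n k) c') - K₀)) =
      (d : ℝ) ^ 2 * ∑ q ∈ range (m * 2 ^ n) ×ˢ range (m * 2 ^ n),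
      mainS W N m (KS W N n δ q) (fun x => φ x - K₀) (Θ q) := by
    rw [mul_sum]
    have h8 : SM W δ = (range W.M).filter fun k => (W.mult k : ℝ) ≤ δ * d := by
      ext k
      simp only [SM, mem_filter]
    rw [h8, sum_filter]
    exact h5.trans (Finset.sum_congr rfl fun q _ => h6 q)
  have h8 : -(E * (d : ℝ) ^ 2) ≤ (d : ℝ) ^ 2 * ∑ q ∈ range (m * 2 ^ n) ×ˢ range (m * 2 ^ n),
      mainS W N m (KS W N n δ q) (fun x => φ x - K₀) (Θ q) := by
    have := mul_le_mul_of_nonneg_left hE (by positivity : (0 : ℝ) ≤ (d : ℝ) ^ 2)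
    linarith
  rw [h3, h7]
  linarith

/-- the vertices in a square to which `Loc` applies are small -/
theorem main_loc_small {d : ℕ} (W : WW d) {N m : ℕ} {s t l δ ε : ℝ} {v : ℕ → ℝ × ℝ}
    {b : ℕ → ℝ} (h : W.Loc N m s t l δ ε v b) {k : ℕ} (hk : k ∈ W.VQ N s t l) :
    (W.mult k : ℝ) ≤ δ * d := by
  have hl := h.hl
  simp only [VQ, Finset.mem_filter, Finset.mem_range] at hk
  obtain ⟨hkM, ⟨hs1, hs2⟩, ht1, ht2⟩ := hk
  have hlo' : W.lo k ≤ d := by
    have e1 := W.two_le k hkM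
    have e2 := W.le_d k hkM
    omega
  rcases h.mult k hkM with e2 | e2
  · exact e2
  · exfalso
    have e3 : W.tt N (k + 1) (W.lo k) = W.tt N k (W.lo k) := by
      unfold WW.tt
      rw [T_eq W hkM (Or.inl le_rfl)]
    rcases e2 (W.lo k) hlo' le_rfl (by have := W.two_le k hkM; omega)
      (by rw [abs_le]; constructor <;> linarith) with e4 | e4
    · linarith
    · linarith

/-- The asymptotic lower bound for a kernel; the vertices of multiplicity more than `δ d` are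
left out. -/
theorem main_asym {φ : ℝ → ℝ} {C K₀ : ℝ} (hφ : ∀ x, |φ x| ≤ C)
    (hK : ∀ (m : ℕ) (v : ℕ → ℝ × ℝ), ∃ θ : ℕ → ℝ,
      K₀ * ∑ c ∈ range m, ∑ c' ∈ range m, |wd (v c) (v c')| ≤
        ∑ c ∈ range m, ∑ c' ∈ range m, |wd (v c) (v c')| * φ (θ c - θ c'))
    {ε κ : ℝ} (hε : 0 < ε) (hκ : 0 < κ) : ∃ δ₀ : ℝ, 0 < δ₀ ∧ ∀ {d : ℕ} (W : WW d), 0 < d →
      (∀ i, (W.w i : ℝ) ≤ δ₀ * d) → ∃ δ : ℝ, δ₀ ≤ δ ∧ δ ≤ κ ∧ ∃ θ : ℕ → Fin W.e → ℝ,
        K₀ * PS W (SM W δ) - ε * (d : ℝ) ^ 2 ≤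
          ∑ k ∈ SM W δ, ∑ i ∈ W.B k, ∑ j ∈ (W.B k).erase i,
            (W.w i : ℝ) * W.w j * φ (θ k i - θ k j) := by
  classical
  have hC : 0 ≤ C := (abs_nonneg _).trans (hφ 0)
  obtain ⟨D, hD⟩ : ∃ D : ℝ, D = C + |K₀| + 1 := ⟨_, rfl⟩
  have hD0 : 0 < D := by
    rw [hD]
    positivity
  have hφD : ∀ x, |φ x - K₀| ≤ D := by
    intro x
    have h1 : |φ x - K₀| ≤ |φ x| + |K₀| := abs_sub _ _
    rw [hD]
    linarith [hφ x]
  obtain ⟨m, hm⟩ := exists_nat_gt (16 * D / ε)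
  have hm0' : (0 : ℝ) < m := lt_trans (by positivity) hm
  have hm0 : 0 < m := by exact_mod_cast hm0'
  have hmε : D / m ≤ ε / 16 := by
    rw [div_lt_iff₀ hε] at hm
    rw [div_le_iff₀ hm0']
    linarith
  obtain ⟨R, hR⟩ : ∃ R : ℝ, R = 9 * (2 * m + 2) ^ 2 := ⟨_, rfl⟩
  have hR0 : 0 < R := by
    rw [hR]
    positivity
  obtain ⟨H, hH⟩ : ∃ H : ℝ, H = D * m ^ 2 * R * (40 * m) := ⟨_, rfl⟩
  have hH0 : 0 < H := by
    rw [hH]
    positivity
  obtain ⟨η, hη⟩ : ∃ η : ℝ, η = ε / (8 * (D * m ^ 4)) := ⟨_, rfl⟩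
  have hη0 : 0 < η := by
    rw [hη]
    positivity
  have hηε : D * m ^ 4 * η = ε / 8 := by
    rw [hη]
    field_simp
  obtain ⟨ε₁, γ₁, hε₁, hγ₁, hloc⟩ := loc m hη0
  obtain ⟨n₁, hn₁⟩ := pow_unbounded_of_one_lt (320 * m ^ 3 * D * R / ε) (one_lt_two (α := ℝ))
  obtain ⟨ε₂, hε₂⟩ : ∃ ε₂ : ℝ, ε₂ = min ε₁ (ε / (8 * (D * m ^ 2 * R))) := ⟨_, rfl⟩
  have hε₂0 : 0 < ε₂ := by
    rw [hε₂]
    exact lt_min hε₁ (by positivity)
  have hε₂1 : ε₂ ≤ ε₁ := by
    rw [hε₂]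
    exact min_le_left _ _
  have hε₂2 : D * m ^ 2 * R * ε₂ ≤ ε / 8 := by
    calc D * m ^ 2 * R * ε₂ ≤ D * m ^ 2 * R * (ε / (8 * (D * m ^ 2 * R))) :=
          mul_le_mul_of_nonneg_left (by rw [hε₂]; exact min_le_right _ _) (by positivity)
      _ = ε / 8 := by field_simp
  obtain ⟨γ, hγ⟩ : ∃ γ : ℝ, γ = min (min γ₁ 1) (min κ (ε / (16 * D))) := ⟨_, rfl⟩
  have hγ0 : 0 < γ := by
    rw [hγ]
    exact lt_min (lt_min hγ₁ one_pos) (lt_min hκ (by positivity))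
  have hγ1 : γ ≤ γ₁ := by
    rw [hγ]
    exact (min_le_left _ _).trans (min_le_left _ _)
  have hγ2 : γ ≤ 1 := by
    rw [hγ]
    exact (min_le_left _ _).trans (min_le_right _ _)
  have hγ3 : γ ≤ κ := by
    rw [hγ]
    exact (min_le_right _ _).trans (min_le_left _ _)
  have hγ4 : γ ≤ ε / (16 * D) := by
    rw [hγ]
    exact (min_le_right _ _).trans (min_le_right _ _)
  obtain ⟨K, hK'⟩ : ∃ K : ℝ, K = 288 * H / ε + 1 := ⟨_, rfl⟩
  have hK1 : 1 ≤ K := by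
    rw [hK']
    have : 0 ≤ 288 * H / ε := by positivity
    linarith
  have hK0 : 0 < K := by linarith
  have hKH : H * (18 / K) ≤ ε / 16 := by
    have h1 : 288 * H / ε ≤ K := by
      rw [hK']
      linarith
    rw [div_le_iff₀ hε] at h1
    rw [← mul_div_assoc, div_le_iff₀ hK0]
    linarith
  obtain ⟨ε', hε'⟩ : ∃ ε' : ℝ, ε' = ε * γ ^ 2 / (16 * H * (K + 8)) := ⟨_, rfl⟩
  have hε'0 : 0 < ε' := by
    rw [hε']
    positivity
  have hε'H : H * ((K + 8) / γ ^ 2 * ε') = ε / 16 := by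
    rw [hε']
    field_simp
  obtain ⟨n₀, hn₀⟩ := scale_select m (2 * m + 2 : ℝ≥0) m n₁ hε₂0 hγ0 hK0 hε'0
  have hpn0 : (0 : ℝ) < 2 ^ n₀ := by positivity
  refine ⟨γ / 2 ^ n₀ / 2, by positivity, ?_⟩
  intro d W hd hw₀
  have hd' : (0 : ℝ) < d := by exact_mod_cast hd
  obtain ⟨v, hv, hv1, hvd⟩ : ∃ v : ℕ, (∀ i, W.w i ≤ v) ∧ 1 ≤ v ∧
      (v : ℝ) ≤ γ / 2 ^ n₀ / 2 * d := by
    have hne : (univ : Finset (Fin W.e)).Nonempty := by
      rw [Finset.nonempty_iff_ne_empty]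
      intro h
      have h1 := W.sum_w
      rw [h, sum_empty] at h1
      omega
    obtain ⟨i, _, hi⟩ := Finset.exists_max_image univ W.w hne
    exact ⟨W.w i, fun j => hi j (mem_univ _), W.pos_w i, hw₀ i⟩
  have hone₀ : 1 ≤ γ / 2 ^ n₀ * d := by
    have h1 : (1 : ℝ) ≤ v := by exact_mod_cast hv1
    linarith
  obtain ⟨N, hN'⟩ : ∃ N : ℕ, N = d / m + 1 := ⟨_, rfl⟩
  have hN : 0 < N := by
    rw [hN']
    exact Nat.succ_pos _
  have hmN : d ≤ m * N := by
    rw [hN']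
    exact (Nat.lt_mul_div_succ d hm0).le
  obtain ⟨Φ, hΦ1, hΦ2⟩ := exists_ext W hd hN hmN
  obtain ⟨UB, hUB⟩ : ∃ UB : Finset ℕ, UB = (range W.M).filter fun k => 2 * v ≤ W.mult k :=
    ⟨_, rfl⟩
  have hUB' : ∀ k ∈ UB, k < W.M ∧ 2 * v ≤ W.mult k := by
    intro k hk
    rw [hUB, mem_filter, mem_range] at hk
    exact hk
  obtain ⟨n, hn1, hn0, hS, hU⟩ := hn₀ Φ hΦ1 UB (fun k => (W.mult k : ℝ) / d)
    (main_sq_sum W hd hv UB hUB')
  have hpn : (0 : ℝ) < 2 ^ n := by positivity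
  have hpow : (2 : ℝ) ^ n ≤ 2 ^ n₀ := pow_le_pow_right₀ (by norm_num) hn0
  have hpow1 : (1 : ℝ) ≤ 2 ^ n := one_le_pow₀ (by norm_num)
  obtain ⟨δ, hδ⟩ : ∃ δ : ℝ, δ = γ / 2 ^ n := ⟨_, rfl⟩
  have hδ0 : 0 < δ := by
    rw [hδ]
    positivity
  have hδδ : γ / 2 ^ n₀ ≤ δ := by
    rw [hδ]
    exact div_le_div_of_nonneg_left hγ0.le hpn hpow
  have hδγ' : δ ≤ γ := by
    rw [hδ]
    exact div_le_self hγ0.le hpow1
  have hone : 1 ≤ δ * d := hone₀.trans (mul_le_mul_of_nonneg_right hδδ hd'.le)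
  have hδl : δ ≤ 1 / 2 ^ n := by
    rw [hδ]
    exact div_le_div_of_nonneg_right hγ2 hpn.le
  have hδγ : δ ≤ γ₁ * (1 / 2 ^ n) := by
    rw [hδ, div_eq_mul_one_div]
    exact mul_le_mul_of_nonneg_right hγ1 (by positivity)
  have hvδ : 2 * (v : ℝ) ≤ δ * d := by
    have := mul_le_mul_of_nonneg_right hδδ hd'.le
    linarith
  refine ⟨δ, by linarith [(by positivity : 0 ≤ γ / 2 ^ n₀ / 2)], hδγ'.trans hγ3, ?_⟩
  have hnd : 2 ^ n ≤ d := by
    have h1 : (1 : ℝ) ≤ 1 / 2 ^ n * d := hone.trans (mul_le_mul_of_nonneg_right hδl hd'.le)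
    have h2 : (2 : ℝ) ^ n ≤ d := by
      rw [one_div, ← div_eq_inv_mul, le_div_iff₀ hpn] at h1
      linarith
    exact_mod_cast h2
  obtain ⟨G, hG⟩ : ∃ G : ℕ × ℕ → Prop, G = fun q => ∃ (A : (ℝ × ℝ) →L[ℝ] (Fin m → ℝ))
      (b : Fin m → ℝ), ‖A‖ ≤ (2 * m + 2 : ℝ≥0) ∧
      ∀ z : ℝ × ℝ, dist z ((q.1 : ℝ) / 2 ^ n, (q.2 : ℝ) / 2 ^ n) ≤ 4 / 2 ^ n →
        ‖Φ z - A z - b‖ ≤ ε₂ / 2 ^ n := ⟨_, rfl⟩
  obtain ⟨V, hV⟩ : ∃ V : ℕ × ℕ → Finset ℕ, V = fun q : ℕ × ℕ =>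
      W.VQ N ((q.1 : ℝ) / 2 ^ n) ((q.2 : ℝ) / 2 ^ n) (1 / 2 ^ n) := ⟨_, rfl⟩
  obtain ⟨I, hI⟩ : ∃ I : ℕ × ℕ → Prop, I = fun q : ℕ × ℕ =>
      W.Inner N ((q.1 : ℝ) / 2 ^ n) ((q.2 : ℝ) / 2 ^ n) (1 / 2 ^ n) := ⟨_, rfl⟩
  obtain ⟨Fr, hFr⟩ : ∃ Fr : ℕ × ℕ → ℕ → Prop, Fr = fun (q : ℕ × ℕ) (k : ℕ) =>
      W.Far N ((q.1 : ℝ) / 2 ^ n) ((q.2 : ℝ) / 2 ^ n) (1 / 2 ^ n) k := ⟨_, rfl⟩
  obtain ⟨Bg, hBg⟩ : ∃ Bg : Finset ℕ, Bg = (range W.M).filter
    fun k => ¬ ((W.mult k : ℝ) ≤ δ * d) := ⟨_, rfl⟩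
  obtain ⟨r, hr⟩ : ∃ r : ℝ, r = D * m ^ 2 * (R * (1 / 2 ^ n) ^ 2) := ⟨_, rfl⟩
  have hr0 : 0 ≤ r := by
    rw [hr]
    positivity
  obtain ⟨e, he⟩ : ∃ e : ℕ × ℕ → ℝ, e = fun q => D * m ^ 2 * η * (1 / 2 ^ n) ^ 2 +
      (if (V q).Nonempty ∧ ¬ I q then r else 0) + (if ¬ G q then r else 0) +
      ∑ k ∈ Bg, (if (∃ j ∈ V q, (W.mult j : ℝ) ≤ δ * d) ∧ ¬ Fr q k then r else 0) := ⟨_, rfl⟩
  have hKS : ∀ q, KS W N n δ q ⊆ V q := by
    intro q k hk
    rw [KS, mem_filter] at hk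
    rw [hV]
    exact hk.1
  have hKS' : ∀ q, ∀ k ∈ KS W N n δ q, (W.mult k : ℝ) ≤ δ * d := by
    intro q k hk
    rw [KS, mem_filter] at hk
    exact hk.2
  have hmassR : ∀ q : ℕ × ℕ, ∀ c c', c < c' → c' < m →
      W.mass N c c' (KS W N n δ q) ≤ R * (1 / 2 ^ n) ^ 2 := by
    intro q c c' hc hc'
    rw [hR]
    refine mass_le W hd hN hmN hc hc' (by positivity) hδl (KS W N n δ q) ?_ (hKS' q)
      (s := (q.1 : ℝ) / 2 ^ n) (t := (q.2 : ℝ) / 2 ^ n)
    have := hKS q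
    rw [hV] at this
    exact this
  have hsq : ∀ q : ℕ × ℕ, ∃ θ : ℕ → ℝ,
      -(e q) ≤ mainS W N m (KS W N n δ q) (fun x => φ x - K₀) θ := by
    intro q
    have ha : 0 ≤ D * m ^ 2 * η * (1 / 2 ^ n : ℝ) ^ 2 := by positivity
    have hb : 0 ≤ (if (V q).Nonempty ∧ ¬ I q then r else 0) := by split_ifs <;> simp [hr0]
    have hc : 0 ≤ (if ¬ G q then r else 0) := by split_ifs <;> simp [hr0]
    have hd1 : ∀ k ∈ Bg,
        0 ≤ (if (∃ j ∈ V q, (W.mult j : ℝ) ≤ δ * d) ∧ ¬ Fr q k then r else 0) := by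
      intro k _
      split_ifs <;> simp [hr0]
    have hd2 := Finset.sum_nonneg hd1
    have hbad := main_sq_bad W (N := N) (m := m) (KS W N n δ q) hφD (by positivity) (hmassR q)
      (fun _ => 0)
    rw [← hr] at hbad
    by_cases hE : (KS W N n δ q).Nonempty
    · obtain ⟨j, hj⟩ := hE
      have hjV : j ∈ V q := hKS q hj
      have hj' : ∃ j ∈ V q, (W.mult j : ℝ) ≤ δ * d := ⟨j, hjV, hKS' q j hj⟩
      by_cases hIq : I q
      · by_cases hFq : ∃ k ∈ Bg, ¬ Fr q k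
        · obtain ⟨k, hkB, hkF⟩ := hFq
          refine ⟨fun _ => 0, ?_⟩
          have h1 := Finset.single_le_sum hd1 hkB
          rw [if_pos ⟨hj', hkF⟩] at h1
          rw [he]
          simp only
          linarith
        · push Not at hFq
          by_cases hGq : G q
          · have hGq' := hGq
            rw [hG] at hGq'
            obtain ⟨A, b, hA, hAb⟩ := hGq'
            have hIq' := hIq
            rw [hI] at hIq'
            have hmult : ∀ k < W.M, (W.mult k : ℝ) ≤ δ * d ∨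
                W.Far N ((q.1 : ℝ) / 2 ^ n) ((q.2 : ℝ) / 2 ^ n) (1 / 2 ^ n) k := by
              intro k hk
              by_cases h1 : (W.mult k : ℝ) ≤ δ * d
              · exact Or.inl h1
              · right
                have h2 := hFq k (by rw [hBg, mem_filter, mem_range]; exact ⟨hk, h1⟩)
                rw [hFr] at h2
                exact h2
            obtain ⟨v, b', hL⟩ := loc_of_aff W hd hN hmN hone hΦ2 hmult hIq' A b hA hAb
            have hL' : W.Loc N m ((q.1 : ℝ) / 2 ^ n) ((q.2 : ℝ) / 2 ^ n) (1 / 2 ^ n)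
                δ ε₁ v b' := locl_mono hL hε₂1
            have hKV : KS W N n δ q =
                W.VQ N ((q.1 : ℝ) / 2 ^ n) ((q.2 : ℝ) / 2 ^ n) (1 / 2 ^ n) := by
              ext k
              rw [KS, mem_filter]
              exact ⟨fun h => h.1, fun h => ⟨h, main_loc_small W hL' h⟩⟩
            obtain ⟨θ, hθ⟩ := hK m v
            have hgood := main_sq_good W (N := N) (m := m) (KS W N n δ q) (l := 1 / 2 ^ n)
              (η := η) hφD v (by rw [hKV]; exact hloc W hL' hδγ) θ hθ hη0.le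
            refine ⟨θ, ?_⟩
            rw [he]
            simp only
            linarith
          · refine ⟨fun _ => 0, ?_⟩
            rw [he]
            simp only
            rw [if_pos hGq]
            linarith
      · refine ⟨fun _ => 0, ?_⟩
        rw [he]
        simp only
        rw [if_pos (⟨⟨j, hjV⟩, hIq⟩ : (V q).Nonempty ∧ ¬ I q)]
        linarith
    · refine ⟨fun _ => 0, ?_⟩
      rw [Finset.not_nonempty_iff_eq_empty] at hE
      have h0 := main_sq_bad W (N := N) (m := m) (KS W N n δ q) (R := 0) hφD le_rfl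
        (fun c c' _ _ => by rw [hE, main_mass_empty]) (fun _ => 0)
      have h1 : -(e q) ≤ 0 := by
        rw [he]
        simp only
        linarith
      linarith
  choose Θ hΘ using hsq
  obtain ⟨Q, hQ⟩ : ∃ Q : Finset (ℕ × ℕ), Q = range (m * 2 ^ n) ×ˢ range (m * 2 ^ n) := ⟨_, rfl⟩
  have hb1 : ((Q.filter fun q => (V q).Nonempty ∧ ¬ I q).card : ℝ) ≤ 40 * m * 2 ^ n := by
    have h1 := card_boundary W hd hN hmN hnd
    rw [← hQ] at h1
    have h2 : (Q.filter fun q => (V q).Nonempty ∧ ¬ I q).card ≤ 40 * m * 2 ^ n := by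
      refine le_trans (le_of_eq ?_) h1
      congr 1
      ext q
      simp only [mem_filter, hV, hI]
    exact_mod_cast h2
  have hb2 : ((Q.filter fun q => ¬ G q).card : ℝ) ≤ ε₂ * 4 ^ n := by
    refine hS (Q.filter fun q => ¬ G q) ?_ ?_
    · rw [← hQ]
      exact filter_subset _ _
    · intro q hq
      rw [mem_filter] at hq
      have h1 := hq.2
      rw [hG] at h1
      exact h1
  have hb3 : ∀ k ∈ Bg, ((Q.filter fun q => (∃ j ∈ V q, (W.mult j : ℝ) ≤ δ * d) ∧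
      ¬ Fr q k).card : ℝ) ≤ 40 * m * ((W.mult k : ℝ) / d * 2 ^ n + 8) := by
    intro k hk
    rw [hBg, mem_filter, mem_range] at hk
    have h1 := card_hole W (n := n) hd hN hmN hk.1 (not_le.1 hk.2)
    rw [← hQ] at h1
    refine le_trans (le_of_eq ?_) h1
    congr 2
    ext q
    simp only [mem_filter, hV, hFr]
  have hsum : ∑ q ∈ Q, e q ≤ ε / 2 := by
    have h1 : ∑ q ∈ Q, e q = (Q.card : ℝ) * (D * m ^ 2 * η * (1 / 2 ^ n) ^ 2) +
        ((Q.filter fun q => (V q).Nonempty ∧ ¬ I q).card : ℝ) * r +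
        ((Q.filter fun q => ¬ G q).card : ℝ) * r +
        ∑ k ∈ Bg, ((Q.filter fun q => (∃ j ∈ V q, (W.mult j : ℝ) ≤ δ * d) ∧
          ¬ Fr q k).card : ℝ) * r := by
      rw [he, sum_add_distrib, sum_add_distrib, sum_add_distrib, sum_const, ← sum_filter,
        ← sum_filter, sum_const, sum_const, nsmul_eq_mul, nsmul_eq_mul, nsmul_eq_mul, sum_comm]
      congr 1
      refine Finset.sum_congr rfl fun k _ => ?_
      rw [← sum_filter, sum_const, nsmul_eq_mul]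
    have h2 : (Q.card : ℝ) = (m * 2 ^ n) ^ 2 := by
      rw [hQ, card_product, card_range]
      push_cast
      ring
    have h3 : (Q.card : ℝ) * (D * m ^ 2 * η * (1 / 2 ^ n) ^ 2) = ε / 8 := by
      rw [h2, ← hηε]
      field_simp
    have h4 : ((Q.filter fun q => (V q).Nonempty ∧ ¬ I q).card : ℝ) * r ≤ ε / 8 := by
      refine (mul_le_mul_of_nonneg_right hb1 hr0).trans ?_
      have h5 : 320 * (m : ℝ) ^ 3 * D * R / ε ≤ 2 ^ n :=
        hn₁.le.trans (pow_le_pow_right₀ (by norm_num) hn1)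
      rw [div_le_iff₀ hε] at h5
      rw [hr]
      have h6 : 40 * (m : ℝ) * 2 ^ n * (D * m ^ 2 * (R * (1 / 2 ^ n) ^ 2)) =
          (320 * (m : ℝ) ^ 3 * D * R) / 2 ^ n / 8 := by
        field_simp
        ring
      rw [h6]
      have h7 : (320 * (m : ℝ) ^ 3 * D * R) / 2 ^ n ≤ ε := by
        rw [div_le_iff₀ hpn]
        linarith
      linarith
    have h5 : ((Q.filter fun q => ¬ G q).card : ℝ) * r ≤ ε / 8 := by
      refine (mul_le_mul_of_nonneg_right hb2 hr0).trans ?_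
      rw [hr]
      have h6 : ε₂ * 4 ^ n * (D * m ^ 2 * (R * (1 / 2 ^ n) ^ 2)) = D * m ^ 2 * R * ε₂ := by
        have h7 : (4 : ℝ) ^ n = 2 ^ n * 2 ^ n := by
          rw [← mul_pow]
          norm_num
        rw [h7]
        field_simp
      rw [h6]
      exact hε₂2
    have h6 : ∑ k ∈ Bg, ((Q.filter fun q => (∃ j ∈ V q, (W.mult j : ℝ) ≤ δ * d) ∧
          ¬ Fr q k).card : ℝ) * r ≤ ε / 8 := by
      -- one vertex
      have h7 : ∀ k ∈ Bg, ((Q.filter fun q => (∃ j ∈ V q, (W.mult j : ℝ) ≤ δ * d) ∧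
          ¬ Fr q k).card : ℝ) * r ≤ H * (9 / K * ((W.mult k : ℝ) / d) ^ 2 +
            (K + 8) / γ ^ 2 * (if γ / 2 ^ n < (W.mult k : ℝ) / d ∧
              (W.mult k : ℝ) / d ≤ K / 2 ^ n then ((W.mult k : ℝ) / d) ^ 2 else 0)) := by
        intro k hk
        refine (mul_le_mul_of_nonneg_right (hb3 k hk) hr0).trans ?_
        rw [hBg, mem_filter, mem_range, not_le] at hk
        obtain ⟨ρ, hρ⟩ : ∃ ρ : ℝ, ρ = (W.mult k : ℝ) / d := ⟨_, rfl⟩
        rw [← hρ]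
        have hρ0 : 0 ≤ ρ := by
          rw [hρ]
          positivity
        have hρδ : γ / 2 ^ n < ρ := by
          rw [hρ, lt_div_iff₀ hd', ← hδ]
          exact hk.2
        obtain ⟨l, hl⟩ : ∃ l : ℝ, l = 1 / 2 ^ n := ⟨_, rfl⟩
        have hl0 : 0 < l := by
          rw [hl]
          positivity
        have e1 : 40 * (m : ℝ) * (ρ * 2 ^ n + 8) * r = H * (ρ * l + 8 * l ^ 2) := by
          rw [hr, hH, hl]
          field_simp
        rw [e1]
        refine mul_le_mul_of_nonneg_left ?_ hH0.le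
        have e2 : γ * l < ρ := by
          rw [hl, mul_one_div]
          exact hρδ
        have e3 : K / 2 ^ n = K * l := by
          rw [hl, mul_one_div]
        by_cases h8 : ρ ≤ K / 2 ^ n
        · rw [if_pos ⟨hρδ, h8⟩]
          rw [e3] at h8
          have e4 : ρ * l + 8 * l ^ 2 ≤ (K + 8) * l ^ 2 := by
            nlinarith
          have e5 : l ^ 2 ≤ ρ ^ 2 / γ ^ 2 := by
            rw [le_div_iff₀ (by positivity), ← mul_pow]
            exact pow_le_pow_left₀ (by positivity) (by linarith) 2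
          have e6 : (K + 8) * l ^ 2 ≤ (K + 8) * (ρ ^ 2 / γ ^ 2) :=
            mul_le_mul_of_nonneg_left e5 (by linarith)
          have e7 : (K + 8) * (ρ ^ 2 / γ ^ 2) = (K + 8) / γ ^ 2 * ρ ^ 2 := by ring
          have e8 : 0 ≤ 9 / K * ρ ^ 2 := by positivity
          linarith
        · rw [if_neg (fun h => h8 h.2), mul_zero, add_zero]
          rw [e3, not_le] at h8
          have e4 : l ≤ ρ / K := by
            rw [le_div_iff₀ hK0]
            linarith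
          have e5 : ρ * l ≤ ρ * (ρ / K) := mul_le_mul_of_nonneg_left e4 hρ0
          have e6 : l ^ 2 ≤ ρ ^ 2 / K := by
            have e7 : l ^ 2 ≤ (ρ / K) ^ 2 := pow_le_pow_left₀ hl0.le e4 2
            have e8 : (ρ / K) ^ 2 ≤ ρ ^ 2 / K := by
              rw [div_pow]
              refine div_le_div_of_nonneg_left (by positivity) hK0 ?_
              nlinarith
            linarith
          have e7 : 9 / K * ρ ^ 2 = ρ * (ρ / K) + 8 * (ρ ^ 2 / K) := by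
            field_simp
            ring
          rw [e7]
          linarith
      refine (Finset.sum_le_sum h7).trans ?_
      rw [← mul_sum, sum_add_distrib, ← mul_sum, ← mul_sum]
      have hBgs : Bg ⊆ UB := by
        intro k hk
        rw [hBg, mem_filter, not_le] at hk
        rw [hUB, mem_filter]
        refine ⟨hk.1, ?_⟩
        have : (2 * v : ℝ) ≤ W.mult k := by linarith [hk.2]
        exact_mod_cast this
      have h8 : ∑ k ∈ Bg, ((W.mult k : ℝ) / d) ^ 2 ≤ 2 :=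
        (Finset.sum_le_sum_of_subset_of_nonneg hBgs (fun k _ _ => by positivity)).trans
          (main_sq_sum W hd hv UB hUB')
      have h9 : ∑ k ∈ Bg, (if γ / 2 ^ n < (W.mult k : ℝ) / d ∧
              (W.mult k : ℝ) / d ≤ K / 2 ^ n then ((W.mult k : ℝ) / d) ^ 2 else 0) ≤ ε' := by
        refine le_trans ?_ hU
        rw [sum_filter]
        refine Finset.sum_le_sum_of_subset_of_nonneg hBgs (fun k _ _ => ?_)
        split_ifs
        · positivity
        · exact le_rfl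
      have h10 : 9 / K * ∑ k ∈ Bg, ((W.mult k : ℝ) / d) ^ 2 ≤ 18 / K := by
        calc 9 / K * ∑ k ∈ Bg, ((W.mult k : ℝ) / d) ^ 2 ≤ 9 / K * 2 :=
              mul_le_mul_of_nonneg_left h8 (by positivity)
          _ = 18 / K := by ring
      have h11 : (K + 8) / γ ^ 2 * ∑ k ∈ Bg, (if γ / 2 ^ n < (W.mult k : ℝ) / d ∧
              (W.mult k : ℝ) / d ≤ K / 2 ^ n then ((W.mult k : ℝ) / d) ^ 2 else 0) ≤
              (K + 8) / γ ^ 2 * ε' :=
        mul_le_mul_of_nonneg_left h9 (by positivity)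
      refine (mul_le_mul_of_nonneg_left (add_le_add h10 h11) hH0.le).trans ?_
      rw [mul_add, hε'H]
      linarith
    rw [h1, h3]
    linarith
  have hE : -(ε / 2) ≤ ∑ q ∈ range (m * 2 ^ n) ×ˢ range (m * 2 ^ n),
      mainS W N m (KS W N n δ q) (fun x => φ x - K₀) (Θ q) := by
    have h1 : ∑ q ∈ Q, (-(e q)) ≤ ∑ q ∈ Q, mainS W N m (KS W N n δ q)
        (fun x => φ x - K₀) (Θ q) :=
      Finset.sum_le_sum fun q _ => hΘ q
    rw [sum_neg_distrib] at h1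
    rw [hQ] at h1
    rw [hQ] at hsum
    linarith
  have hfin := main_comb W hd hN hmN hv hφD Θ hE
  refine ⟨fun k i => Θ (W.sq N n k) (W.cl N i), le_trans ?_ hfin⟩
  have hNr : (N : ℝ) ≤ d / m + 1 := by
    rw [hN']
    push_cast
    have := Nat.cast_div_le (α := ℝ) (m := d) (n := m)
    linarith
  have hdd : (d : ℝ) ≤ δ * d ^ 2 := by
    have := mul_le_mul_of_nonneg_right hone hd'.le
    nlinarith
  have hDd : D * d ≤ ε / 16 * d ^ 2 := by
    calc D * d ≤ D * (δ * d ^ 2) := mul_le_mul_of_nonneg_left hdd hD0.le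
      _ ≤ D * (ε / (16 * D) * d ^ 2) :=
          mul_le_mul_of_nonneg_left
            (mul_le_mul_of_nonneg_right (hδγ'.trans hγ4) (by positivity)) hD0.le
      _ = ε / 16 * d ^ 2 := by field_simp
  have hDv : D * (v * d) ≤ ε / 16 * d ^ 2 := by
    have hv2 : (v : ℝ) ≤ δ * d := by
      have : (0 : ℝ) ≤ v := by positivity
      linarith
    calc D * (v * d) ≤ D * (δ * d * d) :=
          mul_le_mul_of_nonneg_left (mul_le_mul_of_nonneg_right hv2 hd'.le) hD0.le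
      _ = D * (δ * d ^ 2) := by ring
      _ ≤ D * (ε / (16 * D) * d ^ 2) :=
          mul_le_mul_of_nonneg_left
            (mul_le_mul_of_nonneg_right (hδγ'.trans hγ4) (by positivity)) hD0.le
      _ = ε / 16 * d ^ 2 := by field_simp
  have hDN : D * (((N : ℝ) + v) * d) ≤ ε / 16 * d ^ 2 + ε / 16 * d ^ 2 + ε / 16 * d ^ 2 := by
    have h1 : D * (N * d) ≤ ε / 16 * d ^ 2 + ε / 16 * d ^ 2 := by
      calc D * (N * d) ≤ D * ((d / m + 1) * d) :=
            mul_le_mul_of_nonneg_left (mul_le_mul_of_nonneg_right hNr hd'.le) hD0.le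
        _ = D / m * d ^ 2 + D * d := by
            field_simp
        _ ≤ ε / 16 * d ^ 2 + ε / 16 * d ^ 2 :=
            add_le_add (mul_le_mul_of_nonneg_right hmε (by positivity)) hDd
    calc D * (((N : ℝ) + v) * d) = D * (N * d) + D * (v * d) := by ring
      _ ≤ _ := add_le_add h1 hDv
  have hεd : 0 < ε * (d : ℝ) ^ 2 := by positivity
  linarith

end Pool.Agent.Helper8.PW
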